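import Pool.Agent.MARK.Defs

namespace MARK

open Equiv
open scoped Pointwise

theorem AVG_main {G X : Type} [Group G] [Finite G] [MulAction G X]
    (V : Submodule ℂ (X → ℂ)) (hV : InvSub G V) (v : X → ℤ)
    (hv : (fun x => ((v x : ℤ) : ℂ)) ∈ V) (p : ℕ) (hp : p.Prime) (c : ℤ)
    (hc : ¬ (p : ℤ) ∣ c) (x1 : X) (hvc : ∀ g : G, (p : ℤ) ∣ v (g • x1) - c)
    (K : Subgroup G) (hK : ¬ p ∣ Nat.card K) :
    ∃ f ∈ V, f ≠ 0 ∧ ∀ g ∈ K, ∀ x, f (g • x) = f x := by
  have : Fintype K := Fintype.ofFinite K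
  refine ⟨∑ g : K, fun x => ((v ((g : G) • x) : ℤ) : ℂ), ?_, ?_, ?_⟩
  · exact Submodule.sum_mem _ fun g _ => hV (g : G) _ hv
  · intro h0
    have h1 := congrFun h0 x1
    rw [Finset.sum_apply, Pi.zero_apply, ← Int.cast_sum] at h1
    have h2 : ∑ g : K, v ((g : G) • x1) = 0 := by exact_mod_cast h1
    have h3 : (p : ℤ) ∣ ∑ g : K, (v ((g : G) • x1) - c) :=
      Finset.dvd_sum fun g _ => hvc (g : G)
    rw [Finset.sum_sub_distrib, h2, zero_sub, dvd_neg, Finset.sum_const, Finset.card_univ,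
      nsmul_eq_mul] at h3
    rcases (Nat.prime_iff_prime_int.mp hp).dvd_or_dvd h3 with h4 | h4
    · apply hK
      rw [Nat.card_eq_fintype_card]
      exact_mod_cast h4
    · exact hc h4
  · intro g hg x
    rw [Finset.sum_apply, Finset.sum_apply]
    refine Fintype.sum_equiv (Equiv.mulRight (⟨g, hg⟩ : K)) _ _ fun h => ?_
    simp only [Equiv.coe_mulRight, Subgroup.coe_mul, mul_smul]

end MARK
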