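import Pool.Agent.MARK.Defs

namespace MARK

open Equiv
open scoped Pointwise

/-- Words; `true` stands for the function `f` and `false` for the 5-cycle. -/
private def B6A_W : List (List Bool) :=
  [[true, true],
   [true, false],
   [true, true, false],
   [true, false, true, false],
   [true, true, true, false],
   [true, false, true, false, false, false, false],
   [true, true, true, false, true, false, false],
   [true, true, true, false, false, true, false],
   [true, false, true, false, false, false, true, false, false],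
   [true, false, true, false, false, true, false, false, false]]

private def B6A_ev (f : Fin 6 → Fin 6) : List Bool → Fin 6 → Fin 6
  | [], x => x
  | true :: w, x => f (B6A_ev f w x)
  | false :: w, x => (![1, 2, 3, 4, 0, 5] : Fin 6 → Fin 6) (B6A_ev f w x)

private theorem B6A_dec : ∀ a b c d : Fin 6, [0, 5, a, b, c, d].Nodup →
    [a, b, c, d] = [1, 3, 2, 4] ∨ [a, b, c, d] = [2, 1, 4, 3] ∨ [a, b, c, d] = [3, 4, 1, 2] ∨
    [a, b, c, d] = [4, 2, 3, 1] ∨
    ∃ w ∈ B6A_W, (Finset.univ.filter
      (fun x => B6A_ev ![5, a, b, c, d, 0] w x ≠ x)).card = 3 := by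
  decide +kernel

private theorem B6A_prod (h : Perm (Fin 6)) (w : List Bool) (x : Fin 6) :
    (w.map (fun b => if b then h else c6)).prod x = B6A_ev (fun x => h x) w x := by
  induction w generalizing x with
  | nil => rfl
  | cons b w ih =>
    rw [List.map_cons, List.prod_cons, Perm.mul_apply, ih]
    cases b <;> rfl

private theorem B6A_u6 (g : Perm (Fin 6)) (f : Fin 6 → Fin 6) (hf : (fun x => g x) = f)
    (e : ℤ) (he : ((Perm.sign g : ℤˣ) : ℤ) = e)
    (h : ∀ s : Finset (Fin 6), u6 (s.image f) = e * u6 s) : Q6 g := by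
  intro s
  rw [he, ← h s, ← hf]
  rfl

private theorem B6A_q1 : ∀ s : Finset (Fin 6),
    u6 (s.image (![5, 1, 3, 2, 4, 0] : Fin 6 → Fin 6)) = 1 * u6 s := by
  decide +kernel

private theorem B6A_q2 : ∀ s : Finset (Fin 6),
    u6 (s.image (![5, 2, 1, 4, 3, 0] : Fin 6 → Fin 6)) = (-1) * u6 s := by
  decide +kernel

private theorem B6A_q3 : ∀ s : Finset (Fin 6),
    u6 (s.image (![5, 3, 4, 1, 2, 0] : Fin 6 → Fin 6)) = (-1) * u6 s := by
  decide +kernel

private theorem B6A_q4 : ∀ s : Finset (Fin 6),
    u6 (s.image (![5, 4, 2, 3, 1, 0] : Fin 6 → Fin 6)) = 1 * u6 s := by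
  decide +kernel

theorem B6A_main (h : Perm (Fin 6)) (h5 : h 5 = 0) (h0 : h 0 = 5) :
    Q6 h ∨ ∃ w ∈ Subgroup.closure ({c6, h} : Set (Perm (Fin 6))), w.support.card = 3 := by
  have hf : (fun x => h x) = ![5, h 1, h 2, h 3, h 4, 0] := by
    funext x
    fin_cases x
    · exact h0
    · rfl
    · rfl
    · rfl
    · rfl
    · exact h5
  have hnd : [0, 5, h 1, h 2, h 3, h 4].Nodup := by
    have h1 : ([5, 0, 1, 2, 3, 4] : List (Fin 6)).map h = [0, 5, h 1, h 2, h 3, h 4] := by
      simp only [List.map_cons, List.map_nil, h0, h5]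
    rw [← h1]
    exact (List.nodup_map_iff h.injective).mpr (by decide)
  have hsign : ∀ (g : Perm (Fin 6)), (fun x => h x) = (fun x => g x) → h = g := fun g hg =>
    Equiv.ext fun x => congrFun hg x
  rcases B6A_dec (h 1) (h 2) (h 3) (h 4) hnd with hc | hc | hc | hc | ⟨w, -, hcard⟩
  · left
    simp only [List.cons.injEq, and_true] at hc
    obtain ⟨e1, e2, e3, e4⟩ := hc
    rw [e1, e2, e3, e4] at hf
    refine B6A_u6 h _ hf 1 ?_ B6A_q1
    have hg : h = swap 0 5 * swap 2 3 := by
      apply hsign
      rw [hf]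
      decide
    rw [hg, Perm.sign_mul, Perm.sign_swap (by decide), Perm.sign_swap (by decide)]
    rfl
  · left
    simp only [List.cons.injEq, and_true] at hc
    obtain ⟨e1, e2, e3, e4⟩ := hc
    rw [e1, e2, e3, e4] at hf
    refine B6A_u6 h _ hf (-1) ?_ B6A_q2
    have hg : h = swap 0 5 * (swap 1 2 * swap 3 4) := by
      apply hsign
      rw [hf]
      decide
    rw [hg, Perm.sign_mul, Perm.sign_mul, Perm.sign_swap (by decide), Perm.sign_swap (by decide),
      Perm.sign_swap (by decide)]
    rfl
  · left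
    simp only [List.cons.injEq, and_true] at hc
    obtain ⟨e1, e2, e3, e4⟩ := hc
    rw [e1, e2, e3, e4] at hf
    refine B6A_u6 h _ hf (-1) ?_ B6A_q3
    have hg : h = swap 0 5 * (swap 1 3 * swap 2 4) := by
      apply hsign
      rw [hf]
      decide
    rw [hg, Perm.sign_mul, Perm.sign_mul, Perm.sign_swap (by decide), Perm.sign_swap (by decide),
      Perm.sign_swap (by decide)]
    rfl
  · left
    simp only [List.cons.injEq, and_true] at hc
    obtain ⟨e1, e2, e3, e4⟩ := hc
    rw [e1, e2, e3, e4] at hf
    refine B6A_u6 h _ hf 1 ?_ B6A_q4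
    have hg : h = swap 0 5 * swap 1 4 := by
      apply hsign
      rw [hf]
      decide
    rw [hg, Perm.sign_mul, Perm.sign_swap (by decide), Perm.sign_swap (by decide)]
    rfl
  · right
    refine ⟨(w.map (fun b => if b then h else c6)).prod, ?_, ?_⟩
    · apply Subgroup.list_prod_mem
      intro x hx
      obtain ⟨b, -, rfl⟩ := List.mem_map.mp hx
      cases b
      · exact Subgroup.subset_closure (Or.inl rfl)
      · exact Subgroup.subset_closure (Or.inr rfl)
    · rw [← hcard]
      congr 1
      ext x
      rw [Perm.mem_support, Finset.mem_filter, B6A_prod, hf]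
      simp

end MARK
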