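import Pool.Agent.MARK.Defs

namespace MARK

open Equiv
open scoped Pointwise

/-- The permutation x -> 2x of the projective line over F_5. -/
def P6F_b : Perm (Fin 6) := ⟨![0, 2, 4, 1, 3, 5], ![0, 3, 1, 4, 2, 5], by decide, by decide⟩

/-- The permutation x -> -1/x of the projective line over F_5. -/
def P6F_w : Perm (Fin 6) := ⟨![5, 4, 2, 3, 1, 0], ![5, 4, 2, 3, 1, 0], by decide, by decide⟩

theorem P6F_mem_c : c6 ∈ P6 := by
  change ∀ s : Finset (Fin 6), u6 (c6 • s) = ((Perm.sign c6 : ℤˣ) : ℤ) * u6 s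
  decide +kernel

theorem P6F_mem_b : P6F_b ∈ P6 := by
  change ∀ s : Finset (Fin 6), u6 (P6F_b • s) = ((Perm.sign P6F_b : ℤˣ) : ℤ) * u6 s
  decide +kernel

theorem P6F_mem_w : P6F_w ∈ P6 := by
  change ∀ s : Finset (Fin 6), u6 (P6F_w • s) = ((Perm.sign P6F_w : ℤˣ) : ℤ) * u6 s
  decide +kernel

theorem P6F_ne_top : P6 ≠ ⊤ := by
  intro h
  have h1 : swap (0 : Fin 6) 1 ∈ P6 := by rw [h]; trivial
  have h2 : u6 (swap (0 : Fin 6) 1 • ({5, 0, 1} : Finset (Fin 6))) =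
      ((Perm.sign (swap (0 : Fin 6) 1) : ℤˣ) : ℤ) * u6 {5, 0, 1} := h1 _
  revert h2
  decide +kernel

theorem P6F_odd : ∃ g ∈ P6, Perm.sign g = -1 := by
  refine ⟨P6F_b, P6F_mem_b, ?_⟩
  decide +kernel

theorem P6F_trans : MulAction.IsPretransitive P6 (Fin 6) := by
  have key : ∀ y : Fin 6, ∃ g : P6, g • (0 : Fin 6) = y := by
    have h5 : ∃ g : P6, g • (0 : Fin 6) = 5 := ⟨⟨P6F_w, P6F_mem_w⟩, by
      change P6F_w 0 = 5
      decide⟩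
    have hc : ∀ k : ℕ, ∃ g : P6, g • (0 : Fin 6) = (c6 ^ k) 0 := fun k =>
      ⟨⟨c6 ^ k, P6.pow_mem P6F_mem_c k⟩, rfl⟩
    intro y
    fin_cases y
    · exact hc 0
    · exact hc 1
    · exact hc 2
    · exact hc 3
    · exact hc 4
    · exact h5
  refine ⟨fun x y => ?_⟩
  obtain ⟨g, hg⟩ := key x
  obtain ⟨h, hh⟩ := key y
  exact ⟨h * g⁻¹, by rw [mul_smul, ← hg, inv_smul_smul, hh]⟩

theorem P6F_transSX : MulAction.IsPretransitive P6 SX := by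
  obtain ⟨g, hg, hs⟩ := P6F_odd
  refine ⟨fun x y => ?_⟩
  by_cases hxy : x = y
  · exact ⟨1, by rw [hxy, one_smul]⟩
  · refine ⟨⟨g, hg⟩, ?_⟩
    have key : ∀ a b : ℤˣ, a ≠ b → (-1 : ℤˣ) * a = b := by decide
    change Perm.sign g * (show ℤˣ from x) = y
    rw [hs]
    exact key x y hxy

/-- The base point of `BX`. -/
def P6F_x0 : BX := ⟨{0, 1, 2}, by decide⟩

theorem P6F_transBX : MulAction.IsPretransitive P6 BX := by
  have key : ∀ y : BX, ∃ g : P6, g • P6F_x0 = y := by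
    have h1 : ∀ y : BX, ∃ i : Fin 5, ∃ j : Fin 4, ∃ k : Fin 2, ∃ l : Fin 5,
        ((c6 ^ (i : ℕ) * P6F_b ^ (j : ℕ) * P6F_w ^ (k : ℕ) * c6 ^ (l : ℕ)) • P6F_x0 : BX) = y := by
      decide +kernel
    intro y
    obtain ⟨i, j, k, l, h⟩ := h1 y
    exact ⟨⟨_, P6.mul_mem (P6.mul_mem (P6.mul_mem (P6.pow_mem P6F_mem_c i)
      (P6.pow_mem P6F_mem_b j)) (P6.pow_mem P6F_mem_w k)) (P6.pow_mem P6F_mem_c l)⟩, h⟩
  refine ⟨fun x y => ?_⟩
  obtain ⟨g, hg⟩ := key x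
  obtain ⟨h, hh⟩ := key y
  exact ⟨h * g⁻¹, by rw [mul_smul, ← hg, inv_smul_smul, hh]⟩

end MARK
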