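import Pool.Agent.MARK.Defs

namespace MARK

open Equiv
open scoped Pointwise

theorem PC_cycle (n p : ℕ) (hp : p.Prime) (h2 : n < 2 * p) (K : Subgroup (Perm (Fin n)))
    (hd : p ∣ Nat.card K) : ∃ g ∈ K, g.IsCycle ∧ g.support.card = p := by
  have : Fact p.Prime := ⟨hp⟩
  obtain ⟨g, hg⟩ := exists_prime_orderOf_dvd_card' (G := K) p hd
  have ho : orderOf (g : Perm (Fin n)) = p := by
    rw [Subgroup.orderOf_coe]; exact hg
  have hc : (g : Perm (Fin n)).IsCycle := by
    refine Equiv.Perm.isCycle_of_prime_order' (by rw [ho]; exact hp) ?_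
    rw [ho, Fintype.card_fin]; exact h2
  exact ⟨g, g.2, hc, by rw [← hc.orderOf, ho]⟩

theorem PC_prim (n p : ℕ) (hp : p.Prime) (h2 : n < 2 * p) (K : Subgroup (Perm (Fin n)))
    (htr : MulAction.IsPretransitive K (Fin n)) (g : Perm (Fin n)) (hg : g ∈ K)
    (hc : g.IsCycle) (hs : g.support.card = p) : MulAction.IsPreprimitive K (Fin n) := by
  have := htr
  have ho : orderOf g = p := by rw [hc.orderOf, hs]
  obtain ⟨a, ha⟩ : g.support.Nonempty := by
    rw [← Finset.card_pos, hs]; exact hp.pos
  refine MulAction.IsPreprimitive.of_isTrivialBlock_base a ?_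
  intro B haB hB
  by_cases hgB : (⟨g, hg⟩ : K) • B = B
  · right
    apply hB.eq_univ_of_card_lt
    have hsub : (g.support : Set (Fin n)) ⊆ B := by
      intro x hx
      obtain ⟨i, hi⟩ := hc.sameCycle (Perm.mem_support.1 ha) (Perm.mem_support.1 (Finset.mem_coe.1 hx))
      have hz : ∀ j : ℤ, ((⟨g, hg⟩ : K) ^ j) • B = B := by
        intro j
        have : (⟨g, hg⟩ : K) ∈ MulAction.stabilizer K B := hgB
        exact Subgroup.zpow_mem _ this j
      have h3 := Set.smul_mem_smul_set (a := (⟨g, hg⟩ : K) ^ i) haB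
      rw [hz i] at h3
      have h4 : ((⟨g, hg⟩ : K) ^ i) • a = x := by
        rw [← hi]
        change (((⟨g, hg⟩ : K) ^ i : K) : Perm (Fin n)) a = _
        rw [Subgroup.coe_zpow]
      rw [h4] at h3
      exact h3
    have h5 : (g.support : Set (Fin n)).ncard ≤ B.ncard := Set.ncard_le_ncard hsub (Set.toFinite _)
    rw [Set.ncard_coe_finset, hs] at h5
    rw [Nat.card_eq_fintype_card, Fintype.card_fin]
    omega
  · left
    apply hB.subsingleton_of_card_lt
    rw [Nat.card_eq_fintype_card, Fintype.card_fin]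
    refine lt_of_lt_of_le h2 (Nat.mul_le_mul_left 2 ?_)
    set γ : K := ⟨g, hg⟩ with hγ
    have hoγ : orderOf γ = p := by
      rw [← ho, ← Subgroup.orderOf_coe γ]
    have h7 : Nat.card (Subgroup.zpowers γ) = p := by rw [Nat.card_zpowers, hoγ]
    have h8 : (MulAction.orbit (Subgroup.zpowers γ) B).ncard = p := by
      have h9 : Nat.card (MulAction.orbit (Subgroup.zpowers γ) B) ∣ p := by
        have h6 := MulAction.index_stabilizer (Subgroup.zpowers γ) B
        rw [← h7]
        change (MulAction.orbit (Subgroup.zpowers γ) B).ncard ∣ _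
        rw [← h6]
        exact Subgroup.index_dvd_card _
      rcases (Nat.dvd_prime hp).1 h9 with h10 | h10
      · exfalso
        apply hgB
        rw [Nat.card_eq_one_iff_unique] at h10
        obtain ⟨hsub, _⟩ := h10
        have e := hsub.elim (⟨B, MulAction.mem_orbit_self B⟩ : MulAction.orbit (Subgroup.zpowers γ) B)
          ⟨(⟨γ, Subgroup.mem_zpowers γ⟩ : Subgroup.zpowers γ) • B, MulAction.mem_orbit _ _⟩
        have e' := congrArg Subtype.val e
        exact e'.symm
      · exact h10
    rw [← h8]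
    apply Set.ncard_le_ncard _ (Set.toFinite _)
    rintro _ ⟨z, rfl⟩
    exact ⟨(z : K), rfl⟩

end MARK
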