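import Pool.Agent.MARK.Defs
import Pool.Agent.MARK.PC
import Pool.Agent.MARK.B6A
import Pool.Agent.MARK.P6F

namespace MARK

open Equiv
open scoped Pointwise

theorem B6_c : c6.IsCycle ∧ c6.support.card = 5 := by
  constructor
  · refine ⟨0, by decide, fun y hy => ?_⟩
    have h : ∀ y : Fin 6, c6 y ≠ y → ∃ i : Fin 5, (c6 ^ (i : ℕ)) 0 = y := by decide +kernel
    obtain ⟨i, hi⟩ := h y hy
    exact ⟨(i : ℕ), by simpa using hi⟩
  · decide +kernel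

theorem B6_left : ∀ x : Fin 6, x ≠ 5 → ∃ i : Fin 5, (c6 ^ (i : ℕ)) x = 0 := by decide +kernel

theorem B6_right : ∀ x : Fin 6, x ≠ 5 → ∃ i : Fin 5, (c6 ^ (i : ℕ)) 0 = x := by decide +kernel

theorem B6_fix (i : ℕ) : (c6 ^ i) 5 = 5 := by
  induction i with
  | zero => rfl
  | succ i ih =>
    rw [pow_succ, Perm.mul_apply]
    have : c6 5 = 5 := by decide
    rw [this, ih]

/-- a subgroup containing `c6`, transitive, without 3-cycles, consists of elements of `P6` -/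
theorem B6_core (K : Subgroup (Perm (Fin 6))) (htr : ∃ h ∈ K, h 5 ≠ 5) (hc : c6 ∈ K)
    (hno : ∀ w ∈ K, w.support.card ≠ 3) (h2 : Perm (Fin 6)) (hh2 : h2 ∈ K) : Q6 h2 := by
  by_contra hQ
  obtain ⟨h1, hh1, h15⟩ := htr
  obtain ⟨h, hh, h5, hnQ⟩ : ∃ h ∈ K, h 5 ≠ 5 ∧ h ∉ P6 := by
    by_cases ha : h2 5 = 5
    · by_cases hb : h1 ∈ P6
      · refine ⟨h1 * h2, K.mul_mem hh1 hh2, by rw [Perm.mul_apply, ha]; exact h15, ?_⟩
        intro hm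
        apply hQ
        have := P6.mul_mem (P6.inv_mem hb) hm
        rw [inv_mul_cancel_left] at this
        exact this
      · exact ⟨h1, hh1, h15, hb⟩
    · exact ⟨h2, hh2, ha, hQ⟩
  obtain ⟨i, hi⟩ := B6_left (h 5) h5
  obtain ⟨j, hj⟩ := B6_right (h⁻¹ 5) (by
    intro h6
    apply h5
    rw [Perm.inv_eq_iff_eq] at h6
    exact h6.symm)
  have e5 : (c6 ^ (i : ℕ) * h * c6 ^ (j : ℕ)) 5 = 0 := by
    rw [Perm.mul_apply, Perm.mul_apply, B6_fix, hi]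
  have e0 : (c6 ^ (i : ℕ) * h * c6 ^ (j : ℕ)) 0 = 5 := by
    rw [Perm.mul_apply, Perm.mul_apply, hj, show h (h⁻¹ 5) = 5 by simp, B6_fix]
  rcases B6A_main _ e5 e0 with hq | ⟨w, hw, hw3⟩
  · apply hnQ
    have h7 : c6 ^ (i : ℕ) * h * c6 ^ (j : ℕ) ∈ P6 := hq
    have h8 := P6.mul_mem (P6.mul_mem (P6.inv_mem (P6.pow_mem P6F_mem_c i)) h7)
      (P6.inv_mem (P6.pow_mem P6F_mem_c j))
    have h9 : (c6 ^ (i : ℕ))⁻¹ * (c6 ^ (i : ℕ) * h * c6 ^ (j : ℕ)) * (c6 ^ (j : ℕ))⁻¹ = h := by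
      group
    rw [h9] at h8
    exact h8
  · refine hno w ?_ hw3
    refine (Subgroup.closure_le K).2 ?_ hw
    rintro x (rfl | rfl)
    · exact hc
    · exact K.mul_mem (K.mul_mem (K.pow_mem hc i) hh) (K.pow_mem hc j)

theorem B6_main (K : Subgroup (Perm (Fin 6))) (htr : MulAction.IsPretransitive K (Fin 6))
    (hd : 5 ∣ Nat.card K) (hA : ¬ alternatingGroup (Fin 6) ≤ K) :
    ∃ σ : Perm (Fin 6), ∀ g ∈ K, Q6 (σ * g * σ⁻¹) := by
  obtain ⟨g, hg, hc, hs⟩ := PC_cycle 6 5 (by norm_num) (by norm_num) K hd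
  have hp := PC_prim 6 5 (by norm_num) (by norm_num) K htr g hg hc hs
  have hconj : IsConj g c6 := (Perm.IsCycle.isConj_iff hc B6_c.1).2 (by rw [hs, B6_c.2])
  obtain ⟨σ, hσ⟩ := isConj_iff.1 hconj
  refine ⟨σ, fun k hk => ?_⟩
  refine B6_core (K.map (MulAut.conj σ).toMonoidHom) ?_ ?_ ?_ _ ?_
  · obtain ⟨⟨h, hh⟩, hx⟩ := htr.exists_smul_eq (σ⁻¹ 5) (σ⁻¹ 0)
    refine ⟨σ * h * σ⁻¹, ⟨h, hh, rfl⟩, ?_⟩
    have hx' : h (σ⁻¹ 5) = σ⁻¹ 0 := hx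
    rw [Perm.mul_apply, Perm.mul_apply, hx', show σ (σ⁻¹ 0) = 0 by simp]
    decide
  · exact ⟨g, hg, hσ⟩
  · rintro _ ⟨w, hw, rfl⟩ h3
    apply hA
    have h4 : w.support.card = 3 := by
      rw [← h3]
      change _ = (σ * w * σ⁻¹).support.card
      rw [Perm.card_support_conj]
    exact Perm.alternatingGroup_le_of_isPreprimitive_of_isThreeCycle_mem hp
      (card_support_eq_three_iff.1 h4) hw
  · exact ⟨k, hk, rfl⟩

end MARK
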