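import Pool.Agent.MARK.Defs

namespace MARK

open Equiv
open scoped Pointwise

theorem BAS_marks {G : Type} [Group G] [Finite G] {V : Type} [AddCommGroup V] [Module ℂ V]
    [FiniteDimensional ℂ V] (ρ : Representation ℂ G V) (K : Subgroup G) :
    Marks ρ.character K ↔ ∃ v : V, v ≠ 0 ∧ ∀ g ∈ K, ρ g v = v := by
  classical
  have : Fintype K := Fintype.ofFinite K
  have hcard : (Nat.card K : ℂ) ≠ 0 := by
    exact_mod_cast (Nat.card_pos (α := K)).ne'
  have : Invertible (Nat.card K : ℂ) := invertibleOfNonzero hcard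
  let σ : Representation ℂ K V := ρ.comp K.subtype
  have h1 : innerOne ρ.character K = (Module.finrank ℂ (Representation.invariants σ) : ℂ) := by
    rw [← Representation.card_inv_mul_sum_char_eq_finrank σ]
    unfold innerOne
    rw [finsum_eq_sum_of_fintype]
    rfl
  unfold Marks
  rw [h1]
  constructor
  · intro h
    have h2 : Module.finrank ℂ (Representation.invariants σ) ≠ 0 := by exact_mod_cast h
    have h3 : Representation.invariants σ ≠ ⊥ := by
      intro h4
      apply h2
      rw [h4]
      exact finrank_bot ℂ V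
    obtain ⟨v, hv, hv0⟩ := Submodule.exists_mem_ne_zero_of_ne_bot h3
    refine ⟨v, hv0, fun g hg => ?_⟩
    exact (Representation.mem_invariants σ v).1 hv ⟨g, hg⟩
  · rintro ⟨v, hv0, hv⟩ h
    have h2 : Module.finrank ℂ (Representation.invariants σ) = 0 := by exact_mod_cast h
    have h3 : Representation.invariants σ = ⊥ := Submodule.finrank_eq_zero.1 h2
    have h4 : v ∈ Representation.invariants σ := by
      rw [Representation.mem_invariants]
      intro g
      exact hv g g.2
    rw [h3] at h4
    exact hv0 ((Submodule.mem_bot ℂ).1 h4)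

theorem BAS_fix {G : Type} [Group G] [Finite G] {V : Type} [AddCommGroup V] [Module ℂ V]
    [FiniteDimensional ℂ V] (ρ : Representation ℂ G V) (hρ : ρ.IsIrreducible)
    (h1 : ρ.character ≠ 1) (v : V) (hv : ∀ g, ρ g v = v) : v = 0 := by
  by_contra hv0
  apply h1
  let S : Subrepresentation ρ :=
    { toSubmodule := Submodule.span ℂ {v}
      apply_mem_toSubmodule := by
        intro g w hw
        rw [Submodule.mem_span_singleton] at hw ⊢
        obtain ⟨a, rfl⟩ := hw
        exact ⟨a, by rw [map_smul, hv]⟩ }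
  have hS : S ≠ ⊥ := by
    intro h
    have h2 : v ∈ S.toSubmodule := Submodule.mem_span_singleton_self v
    rw [h] at h2
    exact hv0 ((Submodule.mem_bot ℂ).1 h2)
  have hT : S = ⊤ := (hρ.eq_bot_or_eq_top S).resolve_left hS
  have hT' : Submodule.span ℂ {v} = ⊤ := congrArg Subrepresentation.toSubmodule hT
  have hid : ∀ g, ρ g = 1 := by
    intro g
    apply LinearMap.ext
    intro w
    have hw : w ∈ Submodule.span ℂ {v} := by rw [hT']; trivial
    rw [Submodule.mem_span_singleton] at hw
    obtain ⟨a, rfl⟩ := hw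
    rw [map_smul, hv]
    rfl
  funext g
  change LinearMap.trace ℂ V (ρ g) = 1
  rw [hid, LinearMap.trace_one]
  have h3 : Module.finrank ℂ V = 1 := by
    rw [← finrank_top ℂ V, ← hT']
    exact finrank_span_singleton hv0
  rw [h3, Nat.cast_one]

theorem BAS_one {G : Type} [Group G] [Finite G] {V : Type} [AddCommGroup V] [Module ℂ V]
    [FiniteDimensional ℂ V] (ρ : Representation ℂ G V)
    (h : ∀ v, (∀ g, ρ g v = v) → v = 0) : ρ.character ≠ 1 := by
  intro h1
  have h2 : Marks ρ.character (⊤ : Subgroup G) := by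
    unfold Marks innerOne
    rw [h1]
    have : Fintype (⊤ : Subgroup G) := Fintype.ofFinite _
    rw [finsum_eq_sum_of_fintype]
    simp only [Pi.one_apply, Finset.sum_const, Finset.card_univ, nsmul_eq_mul, mul_one]
    rw [Nat.card_eq_fintype_card]
    have : (Fintype.card (⊤ : Subgroup G) : ℂ) ≠ 0 := by
      exact_mod_cast Fintype.card_ne_zero
    exact mul_ne_zero (inv_ne_zero this) this
  obtain ⟨v, hv0, hv⟩ := (BAS_marks ρ ⊤).1 h2
  exact hv0 (h v (fun g => hv g (Subgroup.mem_top g)))

end MARK
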