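import Pool.Agent.MARK.Defs

namespace MARK

open Equiv
open scoped Pointwise

theorem SYM_main {n : ℕ} {C : Type} [DecidableEq C] (c c' : Fin n → C)
    (h : ∀ k, (Finset.univ.filter (fun x => c x = k)).card =
      (Finset.univ.filter (fun x => c' x = k)).card) :
    ∃ σ : Perm (Fin n), ∀ x, c' (σ x) = c x := by
  have he : ∀ k, Nonempty ({x // c x = k} ≃ {x // c' x = k}) := by
    intro k
    refine ⟨Fintype.equivOfCardEq ?_⟩
    rw [Fintype.card_subtype, Fintype.card_subtype]
    exact h k
  let e : ∀ k, {x // c x = k} ≃ {x // c' x = k} := fun k => (he k).some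
  refine ⟨(Equiv.sigmaFiberEquiv c).symm.trans
    ((Equiv.sigmaCongrRight e).trans (Equiv.sigmaFiberEquiv c')), fun x => ?_⟩
  exact (e (c x) ⟨x, rfl⟩).2

theorem SYM_gen {n : ℕ} (F A s s' : Finset (Fin n)) (hs : s.card = s'.card)
    (hF : ∀ x ∈ F, (x ∈ s ↔ x ∈ s')) (h : (s ∩ A).card = (s' ∩ A).card) :
    ∃ σ : Perm (Fin n), (∀ x ∈ F, σ x = x) ∧ σ • A = A ∧ σ • s = s' := by
  classical
  obtain ⟨σ, hσ⟩ := SYM_main
    (fun x : Fin n => ((if x ∈ F then some x else none : Option (Fin n)),
      decide (x ∈ A), decide (x ∈ s)))
    (fun x : Fin n => ((if x ∈ F then some x else none : Option (Fin n)),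
      decide (x ∈ A), decide (x ∈ s'))) (by
    rintro ⟨o, r, t⟩
    have hP : (s \ F).card = (s' \ F).card := by
      have h1 := Finset.card_sdiff_add_card_inter s F
      have h2 := Finset.card_sdiff_add_card_inter s' F
      have h3 : s ∩ F = s' ∩ F := by
        ext x
        simp only [Finset.mem_inter]
        constructor
        · rintro ⟨hx, hxF⟩; exact ⟨(hF x hxF).1 hx, hxF⟩
        · rintro ⟨hx, hxF⟩; exact ⟨(hF x hxF).2 hx, hxF⟩
      rw [h3] at h1
      omega
    have hPQ : ((s ∩ A) \ F).card = ((s' ∩ A) \ F).card := by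
      have h1 := Finset.card_sdiff_add_card_inter (s ∩ A) F
      have h2 := Finset.card_sdiff_add_card_inter (s' ∩ A) F
      have h3 : (s ∩ A) ∩ F = (s' ∩ A) ∩ F := by
        ext x
        simp only [Finset.mem_inter]
        constructor
        · rintro ⟨⟨hx, hA⟩, hxF⟩; exact ⟨⟨(hF x hxF).1 hx, hA⟩, hxF⟩
        · rintro ⟨⟨hx, hA⟩, hxF⟩; exact ⟨⟨(hF x hxF).2 hx, hA⟩, hxF⟩
      rw [h3] at h1
      omega
    cases o with
    | some y =>
      congr 1
      ext x
      simp only [Finset.mem_filter, Finset.mem_univ, true_and, Prod.mk.injEq]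
      by_cases hx : x ∈ F
      · simp only [hx, if_true, Option.some.injEq]
        have := hF x hx
        constructor
        · rintro ⟨h1, h2, h3⟩
          refine ⟨h1, h2, ?_⟩
          rw [← h3]
          exact decide_eq_decide.2 this.symm
        · rintro ⟨h1, h2, h3⟩
          refine ⟨h1, h2, ?_⟩
          rw [← h3]
          exact decide_eq_decide.2 this
      · simp [hx]
    | none =>
      have hgen : ∀ w : Finset (Fin n), ∀ r t : Bool,
          (Finset.univ.filter (fun x : Fin n =>
            ((if x ∈ F then some x else none : Option (Fin n)),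
            decide (x ∈ A), decide (x ∈ w)) = (none, r, t))) =
          Finset.univ.filter (fun x : Fin n => x ∉ F ∧ decide (x ∈ A) = r ∧ decide (x ∈ w) = t) := by
        intro w r t
        ext x
        simp only [Finset.mem_filter, Finset.mem_univ, true_and, Prod.mk.injEq]
        by_cases hx : x ∈ F <;> simp [hx]
      rw [hgen s r t, hgen s' r t]
      have htt : ∀ w : Finset (Fin n),
          Finset.univ.filter (fun x : Fin n => x ∉ F ∧ decide (x ∈ A) = true ∧
            decide (x ∈ w) = true) = (w ∩ A) \ F := by
        intro w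
        ext x
        simp only [Finset.mem_filter, Finset.mem_univ, true_and, decide_eq_true_eq,
          Finset.mem_sdiff, Finset.mem_inter]
        tauto
      have htf : ∀ w : Finset (Fin n),
          (Finset.univ.filter (fun x : Fin n => x ∉ F ∧ decide (x ∈ A) = true ∧
            decide (x ∈ w) = false)).card + ((w ∩ A) \ F).card = (A \ F).card := by
        intro w
        rw [← Finset.card_union_of_disjoint]
        · congr 1
          ext x
          simp only [Finset.mem_filter, Finset.mem_univ, true_and, decide_eq_true_eq,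
            decide_eq_false_iff_not, Finset.mem_sdiff, Finset.mem_inter, Finset.mem_union]
          tauto
        · rw [Finset.disjoint_left]
          intro x hx hx'
          simp only [Finset.mem_filter, Finset.mem_univ, true_and, decide_eq_true_eq,
            decide_eq_false_iff_not, Finset.mem_sdiff, Finset.mem_inter] at hx hx'
          tauto
      have hft : ∀ w : Finset (Fin n),
          (Finset.univ.filter (fun x : Fin n => x ∉ F ∧ decide (x ∈ A) = false ∧
            decide (x ∈ w) = true)).card + ((w ∩ A) \ F).card = (w \ F).card := by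
        intro w
        rw [← Finset.card_union_of_disjoint]
        · congr 1
          ext x
          simp only [Finset.mem_filter, Finset.mem_univ, true_and, decide_eq_true_eq,
            decide_eq_false_iff_not, Finset.mem_sdiff, Finset.mem_inter, Finset.mem_union]
          tauto
        · rw [Finset.disjoint_left]
          intro x hx hx'
          simp only [Finset.mem_filter, Finset.mem_univ, true_and, decide_eq_true_eq,
            decide_eq_false_iff_not, Finset.mem_sdiff, Finset.mem_inter] at hx hx'
          tauto
      have hff : ∀ w : Finset (Fin n),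
          (Finset.univ.filter (fun x : Fin n => x ∉ F ∧ decide (x ∈ A) = false ∧
            decide (x ∈ w) = false)).card + ((Finset.univ.filter (fun x : Fin n => x ∉ F ∧
            decide (x ∈ A) = false ∧ decide (x ∈ w) = true)).card + (A \ F).card) =
            (Finset.univ \ F).card := by
        intro w
        rw [← Finset.card_union_of_disjoint, ← Finset.card_union_of_disjoint]
        · congr 1
          ext x
          simp only [Finset.mem_filter, Finset.mem_univ, true_and, decide_eq_true_eq,
            decide_eq_false_iff_not, Finset.mem_sdiff, Finset.mem_union]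
          tauto
        · rw [Finset.disjoint_left]
          intro x hx hx'
          simp only [Finset.mem_filter, Finset.mem_univ, true_and, decide_eq_true_eq,
            decide_eq_false_iff_not, Finset.mem_sdiff, Finset.mem_union] at hx hx'
          tauto
        · rw [Finset.disjoint_left]
          intro x hx hx'
          simp only [Finset.mem_filter, Finset.mem_univ, true_and, decide_eq_true_eq,
            decide_eq_false_iff_not, Finset.mem_sdiff] at hx hx'
          tauto
      cases r <;> cases t
      · have h1 := hff s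
        have h2 := hff s'
        have h3 := hft s
        have h4 := hft s'
        omega
      · have h3 := hft s
        have h4 := hft s'
        omega
      · have h3 := htf s
        have h4 := htf s'
        omega
      · rw [htt s, htt s']
        exact hPQ)
  refine ⟨σ, ?_, ?_, ?_⟩
  · intro x hx
    have h1 := congrArg Prod.fst (hσ x)
    simp only [hx, if_true] at h1
    by_cases h2 : σ x ∈ F
    · simpa [h2] using h1
    · simp [h2] at h1
  · ext x
    rw [← Finset.inv_smul_mem_iff, Perm.smul_def]
    have h1 := congrArg (fun q => q.2.1) (hσ (σ⁻¹ x))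
    have hx : σ (σ⁻¹ x) = x := by simp
    have h2 := (decide_eq_decide.1 h1).symm
    rw [hx] at h2
    exact h2
  · ext x
    rw [← Finset.inv_smul_mem_iff, Perm.smul_def]
    have h1 := congrArg (fun q => q.2.2) (hσ (σ⁻¹ x))
    have hx : σ (σ⁻¹ x) = x := by simp
    have h2 := (decide_eq_decide.1 h1).symm
    rw [hx] at h2
    exact h2

theorem SYM_two {n : ℕ} (A s s' : Finset (Fin n)) (hs : s.card = s'.card)
    (h : (s ∩ A).card = (s' ∩ A).card) :
    ∃ σ : Perm (Fin n), σ • A = A ∧ σ • s = s' := by
  obtain ⟨σ, -, h1, h2⟩ := SYM_gen ∅ A s s' hs (by simp) h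
  exact ⟨σ, h1, h2⟩

theorem SYM_three {n : ℕ} (a : Fin n) (A s s' : Finset (Fin n)) (ha : a ∉ A)
    (hs : s.card = s'.card) (h0 : a ∈ s ↔ a ∈ s') (h : (s ∩ A).card = (s' ∩ A).card) :
    ∃ σ : Perm (Fin n), σ a = a ∧ σ • A = A ∧ σ • s = s' := by
  obtain ⟨σ, h3, h1, h2⟩ := SYM_gen {a} A s s' hs (by
    intro x hx
    rw [Finset.mem_singleton] at hx
    rw [hx]
    exact h0) h
  exact ⟨σ, h3 a (by simp), h1, h2⟩

theorem SYM_four {n : ℕ} (a b : Fin n) (A s s' : Finset (Fin n)) (ha : a ∉ A) (hab : a ≠ b)
    (hs : s.card = s'.card) (h0 : a ∈ s ↔ a ∈ s') (h1 : b ∈ s ↔ b ∈ s')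
    (h : (s ∩ A).card = (s' ∩ A).card) :
    ∃ σ : Perm (Fin n), σ a = a ∧ σ b = b ∧ σ • A = A ∧ σ • s = s' := by
  obtain ⟨σ, h3, h4, h2⟩ := SYM_gen {a, b} A s s' hs (by
    intro x hx
    rw [Finset.mem_insert, Finset.mem_singleton] at hx
    rcases hx with hx | hx
    · rw [hx]; exact h0
    · rw [hx]; exact h1) h
  exact ⟨σ, h3 a (by simp), h3 b (by simp), h4, h2⟩

end MARK
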