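import Pool.Agent.MARK.Defs
import Pool.Agent.MARK.SYM

namespace MARK

open Equiv
open scoped Pointwise

theorem BI_cardBX : Fintype.card BX = 10 := by
  decide +kernel

theorem BI_cardSX : Fintype.card SX = 2 := by
  decide +kernel

theorem BI_smul_coe (g : Perm (Fin 6)) (a : BX) : (g • a).1 = nrm (g • a.1) := rfl

/-- Any pair of distinct points of `BX` can be moved to a fixed pair. -/
theorem BI_twoBX (a b c d : BX) (hab : a ≠ b) (hcd : c ≠ d) :
    ∃ g : Perm (Fin 6), g • a = c ∧ g • b = d := by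
  have hcard : ∀ x y : BX, x ≠ y → (x.1 ∩ y.1).card = 2 ∨ (x.1 ∩ y.1ᶜ).card = 2 := by
    decide +kernel
  have hN : ∀ x : BX, ∃ s, (s = x.1 ∨ s = x.1ᶜ) ∧ s.card = 3 ∧ nrm s = x.1 := by
    intro x
    exact ⟨x.1, Or.inl rfl, x.2.1, by simp [nrm, x.2.2]⟩
  -- representatives `s`, `t` of the second points meeting the first ones in two elements
  have hrep : ∀ x y : BX, x ≠ y → ∃ t : Finset (Fin 6), t.card = 3 ∧ nrm t = y.1 ∧
      (t ∩ x.1).card = 2 := by
    intro x y hxy
    rcases hcard x y hxy with h | h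
    · exact ⟨y.1, y.2.1, by simp [nrm, y.2.2], by rw [Finset.inter_comm]; exact h⟩
    · refine ⟨y.1ᶜ, ?_, ?_, by rw [Finset.inter_comm]; exact h⟩
      · rw [Finset.card_compl, y.2.1]; rfl
      · rw [nrm_compl]; simp [nrm, y.2.2]
  obtain ⟨s, hs, hsn, hsi⟩ := hrep a b hab
  obtain ⟨t, ht, htn, hti⟩ := hrep c d hcd
  -- first move `a` to `c`
  obtain ⟨σ, -, hσ⟩ := SYM_two (∅ : Finset (Fin 6)) a.1 c.1 (by rw [a.2.1, c.2.1]) (by simp)
  obtain ⟨τ, hτ1, hτ2⟩ := SYM_two c.1 (σ • s) t (by rw [Finset.card_smul_finset, hs, ht])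
    (by rw [hti, ← hσ, ← Finset.smul_finset_inter, Finset.card_smul_finset, hsi])
  refine ⟨τ * σ, ?_, ?_⟩
  · apply Subtype.ext
    rw [BI_smul_coe, mul_smul, hσ, hτ1]
    simp [nrm, c.2.2]
  · apply Subtype.ext
    rw [BI_smul_coe, ← hsn, nrm_smul_nrm, mul_smul, hτ2, htn]

theorem BI_twoSX (a b c d : SX) (hab : a ≠ b) (hcd : c ≠ d) :
    ∃ g : Perm (Fin 6), g • a = c ∧ g • b = d := by
  have key : ∀ a b c d : ℤˣ, a ≠ b → c ≠ d → (c = a ∧ d = b) ∨ (c = -1 * a ∧ d = -1 * b) := by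
    decide
  rcases key a b c d hab hcd with h | h
  · exact ⟨1, by rw [one_smul]; exact h.1.symm, by rw [one_smul]; exact h.2.symm⟩
  · have hs : Perm.sign (swap (0 : Fin 6) 1) = -1 := Perm.sign_swap (by decide)
    refine ⟨swap 0 1, ?_, ?_⟩
    · change Perm.sign (swap (0 : Fin 6) 1) * (show ℤˣ from a) = c
      rw [hs]; exact h.1.symm
    · change Perm.sign (swap (0 : Fin 6) 1) * (show ℤˣ from b) = d
      rw [hs]; exact h.2.symm

theorem BI_twoFin (a b c d : Fin 6) (hab : a ≠ b) (hcd : c ≠ d) :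
    ∃ g : Perm (Fin 6), g • a = c ∧ g • b = d := by
  refine ⟨swap (swap a c b) d * swap a c, ?_, ?_⟩
  · change swap (swap a c b) d (swap a c a) = c
    rw [swap_apply_left]
    apply swap_apply_of_ne_of_ne
    · intro h
      have h1 : swap a c b = swap a c a := by rw [swap_apply_left]; exact h.symm
      exact hab ((swap a c).injective h1).symm
    · exact hcd
  · change swap (swap a c b) d (swap a c b) = d
    rw [swap_apply_left]

end MARK
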