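import Mathlib

/-!
MP_b6e19e_al: the maximum of the marking numbers of the symmetric groups is 4.
Definitions for the project MARK.
-/

namespace MARK

open Equiv

/-- The set of characters of the irreducible finite-dimensional complex representations of `G`. -/
def Irr (G : Type) [Group G] : Set (G → ℂ) :=
  {χ | ∃ (V : Type) (_ : AddCommGroup V) (_ : Module ℂ V) (_ : FiniteDimensional ℂ V)
    (ρ : Representation ℂ G V), ρ.IsIrreducible ∧ ρ.character = χ}

/-- The inner product of the restriction of `χ` to the subgroup `K` with the trivial character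
of `K`. -/
noncomputable def innerOne {G : Type} [Group G] (χ : G → ℂ) (K : Subgroup G) : ℂ :=
  (Nat.card K : ℂ)⁻¹ * ∑ᶠ g : K, χ (g : G)

/-- `χ` marks the subgroup `K`. -/
def Marks {G : Type} [Group G] (χ : G → ℂ) (K : Subgroup G) : Prop :=
  innerOne χ K ≠ 0

/-- The cardinalities of the finite sets of nontrivial irreducible characters of `G` that mark
every proper subgroup of `G`. The marking number of `G` is the least element of this set. -/
def markingSizes (G : Type) [Group G] : Set ℕ :=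
  {c | ∃ C : Finset (G → ℂ), (∀ χ ∈ C, χ ∈ Irr G ∧ χ ≠ 1) ∧
    (∀ K : Subgroup G, K ≠ ⊤ → ∃ χ ∈ C, Marks χ K) ∧ C.card = c}

/-- `V` is a `G`-invariant subspace of the space of functions on the `G`-set `X`. -/
def InvSub (G : Type) {X : Type} [Group G] [MulAction G X] (V : Submodule ℂ (X → ℂ)) : Prop :=
  ∀ (g : G), ∀ f ∈ V, (fun x => f (g • x)) ∈ V

/-- `V` is nonzero and its only `G`-invariant subspaces are zero and `V`. -/
def IrrSub (G : Type) {X : Type} [Group G] [MulAction G X] (V : Submodule ℂ (X → ℂ)) : Prop :=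
  V ≠ ⊥ ∧ ∀ N : Submodule ℂ (X → ℂ), N ≤ V → InvSub G N → N = ⊥ ∨ N = V

open scoped Pointwise

/-- Functions on the finite subsets of `Fin n`, supported on the `k`-element subsets, whose sum
over the `k`-sets containing a given `(k-1)`-set is always zero
(the Specht module for the partition `(n-k,k)` when `2k ≤ n`). -/
def VW (n k : ℕ) : Submodule ℂ (Finset (Fin n) → ℂ) where
  carrier := {f | (∀ s, s.card ≠ k → f s = 0) ∧
    ∀ t : Finset (Fin n), t.card + 1 = k → ∑ x ∈ tᶜ, f (insert x t) = 0}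
  add_mem' := by
    rintro f g ⟨hf1, hf2⟩ ⟨hg1, hg2⟩
    refine ⟨fun s hs => by simp [hf1 s hs, hg1 s hs], fun t ht => ?_⟩
    simp only [Pi.add_apply, Finset.sum_add_distrib]
    rw [hf2 t ht, hg2 t ht, add_zero]
  zero_mem' := ⟨fun s _ => rfl, fun t _ => by simp⟩
  smul_mem' := by
    rintro c f ⟨hf1, hf2⟩
    refine ⟨fun s hs => by simp [hf1 s hs], fun t ht => ?_⟩
    simp only [Pi.smul_apply, smul_eq_mul, ← Finset.mul_sum]
    rw [hf2 t ht, mul_zero]

/-- The space of functions on pairs (point, finite set) of `Fin (2m+1)` used for `n = 2m+1`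
(the Specht module for the partition `(m,m,1)`). -/
def VY (m : ℕ) : Submodule ℂ (Fin (2 * m + 1) × Finset (Fin (2 * m + 1)) → ℂ) where
  carrier := {f | (∀ x s, (s.card ≠ m ∨ x ∈ s) → f (x, s) = 0) ∧
    (∀ x t, x ∉ t → t.card + 1 = m → ∑ y ∈ (insert x t)ᶜ, f (x, insert y t) = 0) ∧
    (∀ s : Finset (Fin (2 * m + 1)), s.card = m → ∑ x ∈ sᶜ, f (x, s) = 0)}
  add_mem' := by
    rintro f g ⟨hf1, hf2, hf3⟩ ⟨hg1, hg2, hg3⟩
    refine ⟨fun x s hs => by simp [hf1 x s hs, hg1 x s hs], fun x t hx ht => ?_, fun s hs => ?_⟩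
    · simp only [Pi.add_apply, Finset.sum_add_distrib]
      rw [hf2 x t hx ht, hg2 x t hx ht, add_zero]
    · simp only [Pi.add_apply, Finset.sum_add_distrib]
      rw [hf3 s hs, hg3 s hs, add_zero]
  zero_mem' := ⟨fun x s _ => rfl, fun x t _ _ => by simp, fun s _ => by simp⟩
  smul_mem' := by
    rintro c f ⟨hf1, hf2, hf3⟩
    refine ⟨fun x s hs => by simp [hf1 x s hs], fun x t hx ht => ?_, fun s hs => ?_⟩
    · simp only [Pi.smul_apply, smul_eq_mul, ← Finset.mul_sum]
      rw [hf2 x t hx ht, mul_zero]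
    · simp only [Pi.smul_apply, smul_eq_mul, ← Finset.mul_sum]
      rw [hf3 s hs, mul_zero]

/-- The ten blocks of the 2-(6,3,2) design. -/
def D6 : Finset (Finset (Fin 6)) :=
  {{5, 0, 1}, {5, 1, 2}, {5, 2, 3}, {5, 3, 4}, {5, 4, 0},
    {1, 3, 4}, {0, 2, 4}, {0, 1, 3}, {1, 2, 4}, {0, 2, 3}}

/-- `1` on the blocks of `D6`, `-1` on the other 3-subsets, `0` on all other subsets. -/
def u6 (s : Finset (Fin 6)) : ℤ := if s ∈ D6 then 1 else if s.card = 3 then -1 else 0

/-- `g` multiplies `u6` by the sign of `g`. -/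
def Q6 (g : Perm (Fin 6)) : Prop :=
  ∀ s : Finset (Fin 6), u6 (g • s) = ((Perm.sign g : ℤˣ) : ℤ) * u6 s

/-- The subgroup of all `g` with `Q6 g` (it is PGL(2,5) acting on the projective line). -/
def P6 : Subgroup (Perm (Fin 6)) where
  carrier := {g | Q6 g}
  mul_mem' := by
    intro g h hg hh s
    rw [mul_smul, hg, hh, map_mul, Units.val_mul, mul_assoc]
  one_mem' := by
    intro s
    simp
  inv_mem' := by
    intro g hg s
    have h := hg (g⁻¹ • s)
    rw [smul_inv_smul] at h
    have h1 : ((Perm.sign g : ℤˣ) : ℤ) * ((Perm.sign g : ℤˣ) : ℤ) = 1 := by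
      rw [← Units.val_mul, Int.units_mul_self, Units.val_one]
    rw [Perm.sign_inv, h, ← mul_assoc, h1, one_mul]

/-- The 5-cycle (0 1 2 3 4) of `Fin 6`. -/
def c6 : Perm (Fin 6) := ⟨![1, 2, 3, 4, 0, 5], ![4, 0, 1, 2, 3, 5], by decide, by decide⟩

/-- The 5-cycle (0 1 2 3 4) of `Fin 7`. -/
def c7 : Perm (Fin 7) := ⟨![1, 2, 3, 4, 0, 5, 6], ![4, 0, 1, 2, 3, 5, 6], by decide, by decide⟩

/-- The 3-subsets of `Fin 6` containing `0`; they represent the ten partitions of `Fin 6` into two
3-subsets. -/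
def BX : Type := {s : Finset (Fin 6) // s.card = 3 ∧ 0 ∈ s}

instance : DecidableEq BX := inferInstanceAs (DecidableEq {s : Finset (Fin 6) // s.card = 3 ∧ 0 ∈ s})
instance : Fintype BX := inferInstanceAs (Fintype {s : Finset (Fin 6) // s.card = 3 ∧ 0 ∈ s})

/-- Replace a 3-subset of `Fin 6` not containing `0` by its complement. -/
def nrm (s : Finset (Fin 6)) : Finset (Fin 6) := if 0 ∈ s then s else sᶜ

theorem nrm_compl (s : Finset (Fin 6)) : nrm sᶜ = nrm s := by
  unfold nrm
  by_cases h : 0 ∈ s <;> simp [h]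

theorem smul_compl {n : ℕ} (g : Perm (Fin n)) (s : Finset (Fin n)) : g • sᶜ = (g • s)ᶜ := by
  ext x
  rw [Finset.mem_compl, ← Finset.inv_smul_mem_iff, ← Finset.inv_smul_mem_iff, Finset.mem_compl]

theorem nrm_smul_nrm (g : Perm (Fin 6)) (s : Finset (Fin 6)) : nrm (g • nrm s) = nrm (g • s) := by
  by_cases h : 0 ∈ s
  · simp [nrm, h]
  · have : nrm s = sᶜ := by simp [nrm, h]
    rw [this, smul_compl, nrm_compl]

/-- The action of the symmetric group on the ten partitions of `Fin 6` into two 3-subsets. -/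
instance : MulAction (Perm (Fin 6)) BX where
  smul g s := ⟨nrm (g • s.1), by
    have h : (g • s.1).card = 3 := by rw [Finset.card_smul_finset]; exact s.2.1
    unfold nrm
    by_cases h0 : 0 ∈ g • s.1
    · rw [if_pos h0]; exact ⟨h, h0⟩
    · rw [if_neg h0]
      refine ⟨?_, by simpa using h0⟩
      rw [Finset.card_compl, h]; rfl⟩
  one_smul s := by
    apply Subtype.ext
    change nrm ((1 : Perm (Fin 6)) • s.1) = s.1
    rw [one_smul]
    simp [nrm, s.2.2]
  mul_smul g h s := by
    apply Subtype.ext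
    change nrm ((g * h) • s.1) = nrm (g • nrm (h • s.1))
    rw [nrm_smul_nrm, mul_smul]

/-- The two-element set on which a permutation acts through its sign. -/
def SX : Type := ℤˣ

instance : DecidableEq SX := inferInstanceAs (DecidableEq ℤˣ)
instance : Fintype SX := inferInstanceAs (Fintype ℤˣ)

instance : MulAction (Perm (Fin 6)) SX where
  smul g u := ((Perm.sign g * (show ℤˣ from u) : ℤˣ))
  one_smul u := by
    change (Perm.sign 1 * (show ℤˣ from u) : ℤˣ) = u
    simp
  mul_smul g h u := by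
    change (Perm.sign (g * h) * (show ℤˣ from u) : ℤˣ) =
      Perm.sign g * (Perm.sign h * (show ℤˣ from u))
    rw [map_mul, mul_assoc]

end MARK
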