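import Pool.Agent.MARK.Defs
import Pool.Agent.MARK.BAS

namespace MARK

open Equiv
open scoped Pointwise

theorem MK_sq (u : ℤˣ) : (((u : ℤˣ) : ℤ) : ℂ) * (((u : ℤˣ) : ℤ) : ℂ) = 1 := by
  rcases Int.units_eq_one_or u with h | h <;> rw [h] <;> norm_num

/-- The twisted representation on an invariant function space. -/
noncomputable def MKrep {G X : Type} [Group G] [MulAction G X] (ε : G →* ℤˣ)
    (V : Submodule ℂ (X → ℂ)) (hV : InvSub G V) : Representation ℂ G V where
  toFun g :=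
    { toFun := fun f => ⟨fun x => (((ε g : ℤˣ) : ℤ) : ℂ) * f.1 (g⁻¹ • x),
        V.smul_mem _ (hV g⁻¹ f.1 f.2)⟩
      map_add' := by
        intro f h
        apply Subtype.ext
        funext x
        change _ * (f.1 (g⁻¹ • x) + h.1 (g⁻¹ • x)) = _ * _ + _ * _
        ring
      map_smul' := by
        intro c f
        apply Subtype.ext
        funext x
        change _ * (c * f.1 (g⁻¹ • x)) = c * (_ * _)
        ring }
  map_one' := by
    apply LinearMap.ext
    intro f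
    apply Subtype.ext
    funext x
    change (((ε 1 : ℤˣ) : ℤ) : ℂ) * f.1 ((1 : G)⁻¹ • x) = f.1 x
    simp
  map_mul' := by
    intro g h
    apply LinearMap.ext
    intro f
    apply Subtype.ext
    funext x
    change (((ε (g * h) : ℤˣ) : ℤ) : ℂ) * f.1 ((g * h)⁻¹ • x) =
      (((ε g : ℤˣ) : ℤ) : ℂ) * ((((ε h : ℤˣ) : ℤ) : ℂ) * f.1 (h⁻¹ • (g⁻¹ • x)))
    rw [map_mul, mul_inv_rev, mul_smul]
    push_cast
    ring

theorem MKrep_apply {G X : Type} [Group G] [MulAction G X] (ε : G →* ℤˣ)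
    (V : Submodule ℂ (X → ℂ)) (hV : InvSub G V) (g : G) (f : V) (x : X) :
    (MKrep ε V hV g f).1 x = (((ε g : ℤˣ) : ℤ) : ℂ) * f.1 (g⁻¹ • x) := rfl

theorem MK_fixed_iff {G X : Type} [Group G] [MulAction G X] (ε : G →* ℤˣ)
    (V : Submodule ℂ (X → ℂ)) (hV : InvSub G V) (g : G) (f : V) :
    MKrep ε V hV g f = f ↔ ∀ x, f.1 (g • x) = (((ε g : ℤˣ) : ℤ) : ℂ) * f.1 x := by
  constructor
  · intro h x
    have h1 := congrArg (fun w : V => w.1 (g • x)) h
    simp only [MKrep_apply, inv_smul_smul] at h1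
    exact h1.symm
  · intro h
    apply Subtype.ext
    funext x
    rw [MKrep_apply]
    have h1 := h (g⁻¹ • x)
    rw [smul_inv_smul] at h1
    exact h1.symm

theorem MK_irr {G X : Type} [Group G] [MulAction G X] (ε : G →* ℤˣ)
    (V : Submodule ℂ (X → ℂ)) (hV : InvSub G V) (hI : IrrSub G V) :
    (MKrep ε V hV).IsIrreducible := by
  have key : ∀ S : Subrepresentation (MKrep ε V hV), S = ⊥ ∨ S = ⊤ := by
    intro S
    have hinv : InvSub G (S.toSubmodule.map V.subtype) := by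
      intro g f hf
      rw [Submodule.mem_map] at hf ⊢
      obtain ⟨w, hw, rfl⟩ := hf
      have h1 := S.apply_mem_toSubmodule g⁻¹ hw
      refine ⟨(((ε g⁻¹ : ℤˣ) : ℤ) : ℂ) • MKrep ε V hV g⁻¹ w, S.toSubmodule.smul_mem _ h1, ?_⟩
      funext x
      change (((ε g⁻¹ : ℤˣ) : ℤ) : ℂ) * ((((ε g⁻¹ : ℤˣ) : ℤ) : ℂ) * w.1 ((g⁻¹)⁻¹ • x)) =
        w.1 (g • x)
      rw [← mul_assoc, MK_sq, one_mul, inv_inv]
    rcases hI.2 (S.toSubmodule.map V.subtype) (Submodule.map_subtype_le V _) hinv with h | h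
    · left
      apply Subrepresentation.toSubmodule_injective
      change S.toSubmodule = ⊥
      rw [Submodule.eq_bot_iff]
      intro w hw
      have h1 : V.subtype w ∈ S.toSubmodule.map V.subtype := Submodule.mem_map_of_mem hw
      rw [h] at h1
      exact Subtype.ext ((Submodule.mem_bot ℂ).1 h1)
    · right
      apply Subrepresentation.toSubmodule_injective
      change S.toSubmodule = ⊤
      rw [Submodule.eq_top_iff']
      intro w
      have hw : (w : X → ℂ) ∈ S.toSubmodule.map V.subtype := by rw [h]; exact w.2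
      obtain ⟨w', hw', he⟩ := Submodule.mem_map.1 hw
      have : w' = w := Subtype.ext he
      rw [← this]
      exact hw'
  have hnt : Nontrivial (Subrepresentation (MKrep ε V hV)) := by
    refine ⟨⊥, ⊤, fun h => ?_⟩
    apply hI.1
    have h1 : (⊥ : Submodule ℂ V) = ⊤ := congrArg Subrepresentation.toSubmodule h
    rw [Submodule.eq_bot_iff]
    intro f hf
    have h2 : (⟨f, hf⟩ : V) ∈ (⊥ : Submodule ℂ V) := by rw [h1]; trivial
    exact congrArg Subtype.val ((Submodule.mem_bot ℂ).1 h2)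
  exact ⟨key⟩

theorem MK_main {G X : Type} [Group G] [Finite G] [Finite X] [MulAction G X] (ε : G →* ℤˣ)
    (V : Submodule ℂ (X → ℂ)) (hV : InvSub G V) (hI : IrrSub G V)
    (hfix : ∀ f ∈ V, (∀ (g : G) (x : X), f (g • x) = (((ε g : ℤˣ) : ℤ) : ℂ) * f x) → f = 0) :
    ∃ χ ∈ Irr G, χ ≠ 1 ∧ ∀ K : Subgroup G,
      (∃ f ∈ V, f ≠ 0 ∧ ∀ g ∈ K, ∀ x, f (g • x) = (((ε g : ℤˣ) : ℤ) : ℂ) * f x) →
        Marks χ K := by
  have hfd : FiniteDimensional ℂ V := inferInstance
  refine ⟨(MKrep ε V hV).character, ⟨V, inferInstance, inferInstance, hfd, MKrep ε V hV,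
    MK_irr ε V hV hI, rfl⟩, ?_, ?_⟩
  · apply BAS_one
    intro f hf
    apply Subtype.ext
    exact hfix f.1 f.2 (fun g => (MK_fixed_iff ε V hV g f).1 (hf g))
  · rintro K ⟨f, hf, hf0, hfK⟩
    rw [BAS_marks]
    refine ⟨⟨f, hf⟩, fun h => hf0 (congrArg Subtype.val h), fun g hg => ?_⟩
    exact (MK_fixed_iff ε V hV g ⟨f, hf⟩).2 (hfK g hg)

end MARK
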