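import Pool.Agent.MARK.Defs

namespace MARK

open Equiv
open scoped Pointwise

theorem SPH_avg {G X : Type} [Group G] [Finite G] [Finite X] [MulAction G X]
    (N : Submodule ℂ (X → ℂ)) (hN : InvSub G N) (hne : N ≠ ⊥) (x0 : X)
    (htr : ∀ f ∈ N, f ≠ 0 → ∃ g : G, f (g • x0) ≠ 0) :
    ∃ F ∈ N, (∀ g : G, g • x0 = x0 → ∀ x, F (g • x) = F x) ∧ F x0 ≠ 0 := by
  classical
  obtain ⟨f, hf, hf0⟩ := (Submodule.ne_bot_iff N).1 hne
  obtain ⟨g, hg⟩ := htr f hf hf0
  have : Fintype (MulAction.stabilizer G x0) := Fintype.ofFinite _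
  refine ⟨∑ h : MulAction.stabilizer G x0, fun x => f (g • ((h : G) • x)), ?_, ?_, ?_⟩
  · refine Submodule.sum_mem _ fun h _ => ?_
    exact hN (h : G) (fun x => f (g • x)) (hN g f hf)
  · intro k hk x
    simp only [Finset.sum_apply]
    let k' : MulAction.stabilizer G x0 := ⟨k, hk⟩
    have := Equiv.sum_comp (Equiv.mulRight k')
      (fun h : MulAction.stabilizer G x0 => f (g • ((h : G) • x)))
    rw [← this]
    refine Finset.sum_congr rfl fun h _ => ?_
    simp [Equiv.coe_mulRight, k', mul_smul]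
  · simp only [Finset.sum_apply]
    have h1 : ∀ h : MulAction.stabilizer G x0, f (g • ((h : G) • x0)) = f (g • x0) := by
      intro h
      rw [show ((h : G) • x0) = x0 from h.2]
    simp only [h1, Finset.sum_const, nsmul_eq_mul, ne_eq, mul_eq_zero, not_or]
    refine ⟨?_, hg⟩
    rw [Finset.card_univ]
    exact_mod_cast Fintype.card_ne_zero

theorem SPH_perp {G X : Type} [Group G] [Finite G] [Fintype X] [MulAction G X]
    (V N : Submodule ℂ (X → ℂ)) (hV : InvSub G V) (hN : InvSub G N) (hNV : N ≤ V)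
    (hne : N ≠ V) :
    ∃ N' : Submodule ℂ (X → ℂ), N' ≤ V ∧ InvSub G N' ∧ N' ≠ ⊥ ∧
      ∀ f ∈ N', ∀ h ∈ N, ∑ x, f x * (starRingEnd ℂ) (h x) = 0 := by
  classical
  let N' : Submodule ℂ (X → ℂ) :=
    { carrier := {f | f ∈ V ∧ ∀ h ∈ N, ∑ x, f x * (starRingEnd ℂ) (h x) = 0}
      add_mem' := by
        rintro a b ⟨ha, ha'⟩ ⟨hb, hb'⟩
        refine ⟨V.add_mem ha hb, fun h hh => ?_⟩
        simp only [Pi.add_apply, add_mul, Finset.sum_add_distrib]
        rw [ha' h hh, hb' h hh, add_zero]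
      zero_mem' := ⟨V.zero_mem, fun h _ => by simp⟩
      smul_mem' := by
        rintro c a ⟨ha, ha'⟩
        refine ⟨V.smul_mem c ha, fun h hh => ?_⟩
        simp only [Pi.smul_apply, smul_eq_mul, mul_assoc, ← Finset.mul_sum]
        rw [ha' h hh, mul_zero] }
  refine ⟨N', fun f hf => hf.1, ?_, ?_, fun f hf => hf.2⟩
  · rintro g f ⟨hf, hf'⟩
    refine ⟨hV g f hf, fun h hh => ?_⟩
    have h1 := hf' (fun x => h (g⁻¹ • x)) (hN g⁻¹ h hh)
    rw [← Equiv.sum_comp (MulAction.toPerm g)] at h1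
    simpa using h1
  · have hlt : N < V := lt_of_le_of_ne hNV hne
    have hfin : Module.finrank ℂ N < Module.finrank ℂ V := Submodule.finrank_lt_finrank_of_lt hlt
    let b := Module.finBasis ℂ N
    let φ : V →ₗ[ℂ] (Fin (Module.finrank ℂ N) → ℂ) :=
      { toFun := fun f i => ∑ x, (f : X → ℂ) x * (starRingEnd ℂ) ((b i : X → ℂ) x)
        map_add' := by
          intro f f'
          ext i
          simp [add_mul, Finset.sum_add_distrib]
        map_smul' := by
          intro c f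
          ext i
          simp [mul_assoc, Finset.mul_sum] }
    have hker : LinearMap.ker φ ≠ ⊥ := by
      apply LinearMap.ker_ne_bot_of_finrank_lt
      simpa using hfin
    obtain ⟨f, hf, hf0⟩ := (Submodule.ne_bot_iff _).1 hker
    rw [Submodule.ne_bot_iff]
    refine ⟨(f : X → ℂ), ⟨f.2, ?_⟩, fun h => hf0 (Subtype.ext h)⟩
    intro h hh
    have h1 : ∀ i, ∑ x, (f : X → ℂ) x * (starRingEnd ℂ) ((b i : X → ℂ) x) = 0 := by
      intro i
      have := congrFun (LinearMap.mem_ker.1 hf) i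
      exact this
    have h2 : h = ∑ i, (b.repr ⟨h, hh⟩ i) • (b i : X → ℂ) := by
      have := congrArg (Submodule.subtype N) (b.sum_repr ⟨h, hh⟩)
      simp only [map_sum, map_smul, Submodule.subtype_apply] at this
      exact this.symm
    have h3 : ∀ x, h x = ∑ i, (b.repr ⟨h, hh⟩ i) * (b i : X → ℂ) x := by
      intro x
      conv_lhs => rw [h2]
      simp [Finset.sum_apply]
    simp only [h3, map_sum, map_mul, Finset.mul_sum]
    rw [Finset.sum_comm]
    refine Finset.sum_eq_zero fun i _ => ?_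
    have h4 : ∀ x, (f : X → ℂ) x * ((starRingEnd ℂ) (b.repr ⟨h, hh⟩ i) *
        (starRingEnd ℂ) ((b i : X → ℂ) x)) = (starRingEnd ℂ) (b.repr ⟨h, hh⟩ i) *
        ((f : X → ℂ) x * (starRingEnd ℂ) ((b i : X → ℂ) x)) := by
      intro x; ring
    simp only [h4, ← Finset.mul_sum]
    rw [h1 i, mul_zero]

theorem SPH_main {G X : Type} [Group G] [Finite G] [Finite X] [MulAction G X]
    (V : Submodule ℂ (X → ℂ)) (hV : InvSub G V) (hne : V ≠ ⊥) (x0 : X)
    (htr : ∀ f ∈ V, f ≠ 0 → ∃ g : G, f (g • x0) ≠ 0)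
    (hsph : ∀ f ∈ V, (∀ g : G, g • x0 = x0 → ∀ x, f (g • x) = f x) → f x0 = 0 → f = 0) :
    IrrSub G V := by
  classical
  have : Fintype X := Fintype.ofFinite _
  refine ⟨hne, fun N hNV hN => ?_⟩
  by_contra hcon
  push Not at hcon
  obtain ⟨hN0, hNne⟩ := hcon
  obtain ⟨N', hN'V, hN', hN'0, horth⟩ := SPH_perp V N hV hN hNV hNne
  obtain ⟨F, hF, hFi, hF0⟩ := SPH_avg N hN hN0 x0 (fun f hf => htr f (hNV hf))
  obtain ⟨F', hF', hFi', hF0'⟩ := SPH_avg N' hN' hN'0 x0 (fun f hf => htr f (hN'V hf))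
  have hD : F' x0 • F - F x0 • F' = 0 := by
    apply hsph
    · exact V.sub_mem (V.smul_mem _ (hNV hF)) (V.smul_mem _ (hN'V hF'))
    · intro g hg x
      simp [hFi g hg x, hFi' g hg x]
    · simp [mul_comm]
  have hD' : ∀ x, F' x0 * F x = F x0 * F' x := by
    intro x
    have := congrFun hD x
    simp only [Pi.sub_apply, Pi.smul_apply, smul_eq_mul, Pi.zero_apply] at this
    exact sub_eq_zero.1 this
  have h1 : F' x0 * ∑ x, F x * (starRingEnd ℂ) (F x) = 0 := by
    rw [Finset.mul_sum]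
    have : ∀ x, F' x0 * (F x * (starRingEnd ℂ) (F x)) = F x0 * (F' x * (starRingEnd ℂ) (F x)) := by
      intro x
      rw [← mul_assoc, hD', mul_assoc]
    simp only [this, ← Finset.mul_sum]
    rw [horth F' hF' F hF, mul_zero]
  have h2 : ∑ x, F x * (starRingEnd ℂ) (F x) = 0 := by
    rcases mul_eq_zero.1 h1 with h | h
    · exact absurd h hF0'
    · exact h
  have h3 : ∑ x, Complex.normSq (F x) = 0 := by
    have : ((∑ x, Complex.normSq (F x) : ℝ) : ℂ) = 0 := by
      rw [← h2]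
      push_cast
      refine Finset.sum_congr rfl fun x _ => ?_
      rw [Complex.mul_conj]
    exact_mod_cast this
  have h4 := (Finset.sum_eq_zero_iff_of_nonneg (fun x _ => Complex.normSq_nonneg (F x))).1 h3
    x0 (Finset.mem_univ _)
  exact hF0 (Complex.normSq_eq_zero.1 h4)

end MARK
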