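import Pool.Agent.MARK.Defs
import Pool.Agent.MARK.BAS
import Pool.Agent.MARK.SPH
import Pool.Agent.MARK.MK

namespace MARK

open Equiv
open scoped Pointwise

/-- The sum of the values, as a linear form. -/
noncomputable def TT_sum (X : Type) [Fintype X] : (X → ℂ) →ₗ[ℂ] ℂ where
  toFun f := ∑ x, f x
  map_add' f g := by simp [Finset.sum_add_distrib]
  map_smul' c f := by simp [Finset.mul_sum]

/-- The zero-sum functions. -/
noncomputable def TT_V (X : Type) [Fintype X] : Submodule ℂ (X → ℂ) := LinearMap.ker (TT_sum X)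

theorem TT_mem {X : Type} [Fintype X] (f : X → ℂ) : f ∈ TT_V X ↔ ∑ x, f x = 0 := by
  unfold TT_V
  rw [LinearMap.mem_ker]
  rfl

theorem TT_inv {G X : Type} [Group G] [Fintype X] [MulAction G X] : InvSub G (TT_V X) := by
  intro g f hf
  rw [TT_mem] at hf ⊢
  rw [← hf]
  exact Equiv.sum_comp (MulAction.toPerm g) f

theorem TT_const {X : Type} [Fintype X] (hc : 2 ≤ Fintype.card X) (f : X → ℂ) (hf : f ∈ TT_V X)
    (h : ∀ x y, f x = f y) : f = 0 := by
  rw [TT_mem] at hf
  funext x
  have h1 : ∑ y, f y = (Fintype.card X : ℂ) * f x := by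
    rw [Finset.sum_congr rfl (fun y _ => h y x)]
    simp
  rw [h1] at hf
  rcases mul_eq_zero.1 hf with h2 | h2
  · exfalso
    have : Fintype.card X = 0 := by exact_mod_cast h2
    omega
  · simpa using h2

theorem TT_pre {G X : Type} [Group G] [Fintype X] [MulAction G X]
    (h2 : ∀ a b c d : X, a ≠ b → c ≠ d → ∃ g : G, g • a = c ∧ g • b = d)
    (hc : 2 ≤ Fintype.card X) (a c : X) : ∃ g : G, g • a = c := by
  have : Nontrivial X := Fintype.one_lt_card_iff_nontrivial.1 (by omega)
  obtain ⟨b, hb⟩ := exists_ne a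
  obtain ⟨d, hd⟩ := exists_ne c
  obtain ⟨g, hg, _⟩ := h2 a b c d hb.symm hd.symm
  exact ⟨g, hg⟩

theorem TT_diff {X : Type} [Fintype X] [DecidableEq X] (x y : X) :
    (Pi.single x 1 - Pi.single y 1 : X → ℂ) ∈ TT_V X := by
  rw [TT_mem]
  simp [Finset.sum_sub_distrib]

theorem TT_irr {G X : Type} [Group G] [Finite G] [Fintype X] [MulAction G X]
    (h2 : ∀ a b c d : X, a ≠ b → c ≠ d → ∃ g : G, g • a = c ∧ g • b = d)
    (hc : 2 ≤ Fintype.card X) (x0 : X) : IrrSub G (TT_V X) := by
  classical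
  have hnt : Nontrivial X := Fintype.one_lt_card_iff_nontrivial.1 (by omega)
  apply SPH_main (TT_V X) TT_inv _ x0
  · intro f _ hf0
    obtain ⟨y, hy⟩ := Function.ne_iff.1 hf0
    obtain ⟨g, hg⟩ := TT_pre h2 hc x0 y
    exact ⟨g, by rw [hg]; exact hy⟩
  · intro f hf hfi hf0
    rw [TT_mem] at hf
    obtain ⟨y, hy⟩ := exists_ne x0
    have hcst : ∀ x, x ≠ x0 → f x = f y := by
      intro x hx
      obtain ⟨g, hg1, hg2⟩ := h2 x0 y x0 x hy.symm hx.symm
      rw [← hg2, hfi g hg1 y]
    rw [← Finset.add_sum_erase _ _ (Finset.mem_univ x0), hf0, zero_add,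
      Finset.sum_congr rfl (fun x hx => hcst x (Finset.ne_of_mem_erase hx)), Finset.sum_const,
      Finset.card_erase_of_mem (Finset.mem_univ _), Finset.card_univ, nsmul_eq_mul] at hf
    have hfy : f y = 0 := by
      rcases mul_eq_zero.1 hf with h | h
      · exfalso
        have : Fintype.card X - 1 = 0 := by exact_mod_cast h
        omega
      · exact h
    funext x
    by_cases hx : x = x0
    · rw [hx]; exact hf0
    · rw [hcst x hx, hfy]; rfl
  · rw [Submodule.ne_bot_iff]
    obtain ⟨y, hy⟩ := exists_ne x0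
    refine ⟨_, TT_diff x0 y, fun h => ?_⟩
    have := congrFun h x0
    simp [hy.symm] at this

theorem TT_finrank {X : Type} [Fintype X] (hc : 2 ≤ Fintype.card X) (x0 : X) :
    (Module.finrank ℂ (TT_V X) : ℂ) = (Fintype.card X : ℂ) - 1 := by
  classical
  have h1 := LinearMap.finrank_range_add_finrank_ker (TT_sum X)
  have h2 : LinearMap.range (TT_sum X) = ⊤ := by
    rw [LinearMap.range_eq_top]
    intro c
    refine ⟨Pi.single x0 c, ?_⟩
    change ∑ x, (Pi.single x0 c : X → ℂ) x = c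
    simp
  rw [h2, finrank_top, Module.finrank_self, Module.finrank_fintype_fun_eq_card] at h1
  have h3 : Module.finrank ℂ (TT_V X) = Fintype.card X - 1 := by
    change Module.finrank ℂ (LinearMap.ker (TT_sum X)) = _
    omega
  rw [h3, Nat.cast_sub (by omega)]
  simp

theorem TT_uniq {G X : Type} [Group G] [Finite G] [Fintype X] [MulAction G X]
    (h2 : ∀ a b c d : X, a ≠ b → c ≠ d → ∃ g : G, g • a = c ∧ g • b = d)
    (hc : 2 ≤ Fintype.card X) (x0 : X) {U : Type} [AddCommGroup U] [Module ℂ U]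
    [FiniteDimensional ℂ U] (σ : Representation ℂ G U) (hσ : σ.IsIrreducible)
    (h1 : σ.character ≠ 1) (u0 : U) (hu0 : u0 ≠ 0)
    (hu : ∀ g ∈ MulAction.stabilizer G x0, σ g u0 = u0) :
    σ.character = (MKrep 1 (TT_V X) (TT_inv (G := G))).character := by
  classical
  choose r hr using TT_pre h2 hc x0
  let w : X → U := fun x => σ (r x) u0
  have hw0 : w x0 = u0 := hu _ (hr x0)
  have hw : ∀ (g : G) (x : X), w (g • x) = σ g (w x) := by
    intro g x
    change σ (r (g • x)) u0 = σ g (σ (r x) u0)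
    have h3 : (r (g • x))⁻¹ * (g * r x) ∈ MulAction.stabilizer G x0 := by
      rw [MulAction.mem_stabilizer_iff, mul_smul, mul_smul, hr x, inv_smul_eq_iff, hr]
    have h4 := hu _ h3
    have h5 : σ (r (g • x)) (σ ((r (g • x))⁻¹ * (g * r x)) u0) = σ (r (g • x)) u0 := by rw [h4]
    rw [← h5, ← Module.End.mul_apply, ← map_mul, ← mul_assoc, mul_inv_cancel, one_mul, map_mul,
      Module.End.mul_apply]
  let T : TT_V X →ₗ[ℂ] U :=
    { toFun := fun f => ∑ x, f.1 x • w x
      map_add' := by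
        intro f f'
        simp [add_smul, Finset.sum_add_distrib]
      map_smul' := by
        intro c f
        simp [mul_smul, Finset.smul_sum] }
  have hT : ∀ (g : G) (f : TT_V X), T (MKrep 1 (TT_V X) (TT_inv (G := G)) g f) = σ g (T f) := by
    intro g f
    change ∑ x, (MKrep 1 (TT_V X) (TT_inv (G := G)) g f).1 x • w x = σ g (∑ x, f.1 x • w x)
    rw [map_sum, ← Equiv.sum_comp (MulAction.toPerm g)]
    refine Finset.sum_congr rfl fun x _ => ?_
    rw [MulAction.toPerm_apply, hw, MKrep_apply]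
    simp
  let F : Representation.IntertwiningMap (MKrep 1 (TT_V X) (TT_inv (G := G))) σ :=
    T.intertwiningMap_of_isIntertwiningMap _ _ hT
  have : (MKrep 1 (TT_V X) (TT_inv (G := G))).IsIrreducible :=
    MK_irr 1 _ _ (TT_irr h2 hc x0)
  rcases Representation.IsIrreducible.bijective_or_eq_zero F with hF | hF
  · exact (Representation.char_iso (F.ofBijective hF)).symm
  · exfalso
    have hT0 : ∀ f, T f = 0 := by
      intro f
      have : F f = T f := rfl
      rw [← this, hF]
      rfl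
    have hww : ∀ x y, w x = w y := by
      intro x y
      have h6 := hT0 ⟨_, TT_diff x y⟩
      change ∑ z, ((Pi.single x 1 - Pi.single y 1 : X → ℂ) z) • w z = 0 at h6
      simp only [Pi.sub_apply, sub_smul, Finset.sum_sub_distrib, Pi.single_apply, ite_smul,
        one_smul, zero_smul, Finset.sum_ite_eq', Finset.mem_univ, if_true] at h6
      exact sub_eq_zero.1 h6
    apply hu0
    apply BAS_fix σ hσ h1
    intro g
    rw [← hw0, ← hw]
    exact hww _ _

theorem TT_main {G X : Type} [Group G] [Finite G] [Fintype X] [MulAction G X]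
    (h2 : ∀ a b c d : X, a ≠ b → c ≠ d → ∃ g : G, g • a = c ∧ g • b = d)
    (hc : 2 ≤ Fintype.card X) (x0 : X) :
    ∃ χ ∈ Irr G, χ ≠ 1 ∧ χ 1 = (Fintype.card X : ℂ) - 1 ∧
      (∀ ψ ∈ Irr G, ψ ≠ 1 → Marks ψ (MulAction.stabilizer G x0) → ψ = χ) ∧
      (∀ P : Subgroup G, MulAction.IsPretransitive P X → ¬ Marks χ P) := by
  classical
  have hfd : FiniteDimensional ℂ (TT_V X) := inferInstance
  refine ⟨(MKrep 1 (TT_V X) (TT_inv (G := G))).character, ⟨TT_V X, inferInstance, inferInstance,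
    hfd, MKrep 1 (TT_V X) TT_inv, MK_irr 1 _ _ (TT_irr h2 hc x0), rfl⟩, ?_, ?_, ?_, ?_⟩
  · apply BAS_one
    intro f hf
    apply Subtype.ext
    apply TT_const hc f.1 f.2
    intro x y
    obtain ⟨g, hg⟩ := TT_pre h2 hc y x
    have := (MK_fixed_iff 1 _ _ g f).1 (hf g) y
    rw [hg] at this
    simpa using this
  · rw [Representation.char_one]
    exact TT_finrank hc x0
  · rintro ψ ⟨U, i1, i2, i3, σ, hσ, rfl⟩ h1 hm
    obtain ⟨u0, hu0, hu⟩ := (BAS_marks σ _).1 hm
    exact TT_uniq h2 hc x0 σ hσ h1 u0 hu0 hu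
  · intro P hP hm
    obtain ⟨f, hf0, hf⟩ := (BAS_marks _ _).1 hm
    apply hf0
    apply Subtype.ext
    apply TT_const hc f.1 f.2
    intro x y
    obtain ⟨g, hg⟩ := hP.exists_smul_eq y x
    have := (MK_fixed_iff 1 _ _ (g : G) f).1 (hf g g.2) y
    rw [show (g : G) • y = x from hg] at this
    simpa using this

end MARK
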