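import Pool.Agent.MARK.Defs
import Pool.Agent.MARK.TT
import Pool.Agent.MARK.BI
import Pool.Agent.MARK.P6F

namespace MARK

open Equiv
open scoped Pointwise

theorem LW_stab {X : Type} [MulAction (Perm (Fin 6)) X]
    (h2 : ∀ a b c d : X, a ≠ b → c ≠ d → ∃ g : Perm (Fin 6), g • a = c ∧ g • b = d)
    (x y : X) (hxy : x ≠ y) : MulAction.stabilizer (Perm (Fin 6)) x ≠ ⊤ := by
  intro h
  obtain ⟨g, hg, -⟩ := h2 x y y x hxy hxy.symm
  have h1 : g ∈ MulAction.stabilizer (Perm (Fin 6)) x := by rw [h]; trivial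
  rw [MulAction.mem_stabilizer_iff, hg] at h1
  exact hxy h1.symm

theorem LW_main (c : ℕ) (hc : c ∈ markingSizes (Perm (Fin 6))) : 4 ≤ c := by
  classical
  obtain ⟨C, hC, hm, rfl⟩ := hc
  -- the three two-transitive sets
  have cS := BI_cardSX
  have cB := BI_cardBX
  obtain ⟨x1, y1, hxy1⟩ := Fintype.exists_pair_of_one_lt_card (α := SX) (by rw [cS]; norm_num)
  obtain ⟨x3, y3, hxy3⟩ := Fintype.exists_pair_of_one_lt_card (α := BX) (by rw [cB]; norm_num)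
  obtain ⟨χ1, hχ1, hχ1', v1, u1, p1⟩ := TT_main (G := Perm (Fin 6)) BI_twoSX (by rw [cS]) x1
  obtain ⟨χ2, hχ2, hχ2', v2, u2, p2⟩ := TT_main (G := Perm (Fin 6)) BI_twoFin
    (by rw [Fintype.card_fin]; norm_num) (0 : Fin 6)
  obtain ⟨χ3, hχ3, hχ3', v3, u3, p3⟩ := TT_main (G := Perm (Fin 6)) BI_twoBX
    (by rw [cB]; norm_num) x3
  rw [cS] at v1
  rw [Fintype.card_fin] at v2
  rw [cB] at v3
  have m1 : χ1 ∈ C := by
    obtain ⟨ψ, hψ, hψm⟩ := hm _ (LW_stab BI_twoSX x1 y1 hxy1)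
    rw [← u1 ψ (hC ψ hψ).1 (hC ψ hψ).2 hψm]
    exact hψ
  have m2 : χ2 ∈ C := by
    obtain ⟨ψ, hψ, hψm⟩ := hm _ (LW_stab BI_twoFin (0 : Fin 6) 1 (by decide))
    rw [← u2 ψ (hC ψ hψ).1 (hC ψ hψ).2 hψm]
    exact hψ
  have m3 : χ3 ∈ C := by
    obtain ⟨ψ, hψ, hψm⟩ := hm _ (LW_stab BI_twoBX x3 y3 hxy3)
    rw [← u3 ψ (hC ψ hψ).1 (hC ψ hψ).2 hψm]
    exact hψ
  obtain ⟨χ4, m4, hχ4⟩ := hm P6 P6F_ne_top
  have n12 : χ1 ≠ χ2 := by
    intro h
    rw [h, v2] at v1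
    norm_num at v1
  have n13 : χ1 ≠ χ3 := by
    intro h
    rw [h, v3] at v1
    norm_num at v1
  have n23 : χ2 ≠ χ3 := by
    intro h
    rw [h, v3] at v2
    norm_num at v2
  have n41 : χ4 ≠ χ1 := by
    intro h
    rw [h] at hχ4
    exact p1 P6 P6F_transSX hχ4
  have n42 : χ4 ≠ χ2 := by
    intro h
    rw [h] at hχ4
    exact p2 P6 P6F_trans hχ4
  have n43 : χ4 ≠ χ3 := by
    intro h
    rw [h] at hχ4
    exact p3 P6 P6F_transBX hχ4
  have hsub : ({χ4, χ1, χ2, χ3} : Finset (Perm (Fin 6) → ℂ)) ⊆ C := by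
    intro ψ hψ
    simp only [Finset.mem_insert, Finset.mem_singleton] at hψ
    rcases hψ with rfl | rfl | rfl | rfl
    · exact m4
    · exact m1
    · exact m2
    · exact m3
  have hcard : ({χ4, χ1, χ2, χ3} : Finset (Perm (Fin 6) → ℂ)).card = 4 := by
    rw [Finset.card_insert_of_notMem, Finset.card_insert_of_notMem, Finset.card_pair n23]
    · simp [n12, n13]
    · simp [n41, n42, n43]
  rw [← hcard]
  exact Finset.card_le_card hsub

end MARK
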