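import Pool.Agent.MARK.Defs
import Pool.Agent.MARK.PC

namespace MARK

open Equiv
open scoped Pointwise

theorem J3_main (n : ℕ) (hn : n < 6) (K : Subgroup (Perm (Fin n)))
    (htr : MulAction.IsPretransitive K (Fin n)) (hd : 3 ∣ Nat.card K) :
    alternatingGroup (Fin n) ≤ K := by
  obtain ⟨g, hg, hc, hs⟩ := PC_cycle n 3 Nat.prime_three (by omega) K hd
  have hp := PC_prim n 3 Nat.prime_three (by omega) K htr g hg hc hs
  exact Perm.alternatingGroup_le_of_isPreprimitive_of_isThreeCycle_mem hp
    (card_support_eq_three_iff.1 hs) hg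

end MARK
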