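import Pool.Agent.MARK.Defs
import Pool.Agent.MARK.PC

namespace MARK

open Equiv
open scoped Pointwise

theorem JPA_mult (n p : ℕ) (hp : p.Prime) (h2 : n < 2 * p) (h1 : p + 1 ≤ n)
    (K : Subgroup (Perm (Fin n)))
    (htr : MulAction.IsPretransitive K (Fin n)) (g : Perm (Fin n)) (hg : g ∈ K)
    (hc : g.IsCycle) (hs : g.support.card = p) :
    MulAction.IsMultiplyPretransitive K (Fin n) (n - p + 1) := by
  classical
  have hG := PC_prim n p hp h2 K htr g hg hc hs
  have hp2 := hp.two_le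
  suffices h : MulAction.IsMultiplyPreprimitive K (Fin n) (n - p - 1 + 2) by
    have h3 : n - p + 1 = n - p - 1 + 2 := by omega
    rw [h3]
    exact MulAction.IsMultiplyPreprimitive.isMultiplyPretransitive ..
  apply hG.isMultiplyPreprimitive (s := ((g.support : Set (Fin n))ᶜ))
  · have h3 : Set.ncard ((g.support : Set (Fin n))) + Set.ncard ((g.support : Set (Fin n))ᶜ) =
        Nat.card (Fin n) := Set.ncard_add_ncard_compl _
    rw [Set.ncard_coe_finset, hs, Nat.card_eq_fintype_card, Fintype.card_fin] at h3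
    omega
  · rw [Nat.card_eq_fintype_card, Fintype.card_fin]
    omega
  have := Perm.isPretransitive_of_isCycle_mem hc hg
  apply MulAction.IsPreprimitive.of_prime_card
  have h4 : Nat.card (SubMulAction.ofFixingSubgroup K ((g.support : Set (Fin n))ᶜ)) = p := by
    rw [Nat.card_eq_fintype_card, Fintype.card_subtype, ← hs]
    apply congr_arg
    ext x
    simp [SubMulAction.mem_ofFixingSubgroup_iff]
  rw [h4]
  exact hp

theorem JPA_main (n p : ℕ) (hp : p.Prime) (h2 : n < 2 * p) (h1 : p + 1 ≤ n)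
    (K : Subgroup (Perm (Fin n)))
    (htr : MulAction.IsPretransitive K (Fin n)) (g : Perm (Fin n)) (hg : g ∈ K)
    (hc : g.IsCycle) (hs : g.support.card = p) (τ : Perm (Fin n))
    (hτ : ∀ x, g x ≠ x → τ x = x) : ∃ h ∈ K, ∀ x, g x = x → h x = τ x := by
  have hm := JPA_mult n p hp h2 h1 K htr g hg hc hs
  have hp2 := hp.two_le
  have hc1 : (g.supportᶜ).card = n - p := by
    rw [Finset.card_compl, Fintype.card_fin, hs]
  obtain ⟨T, hT1, -, hT2⟩ := Finset.exists_subsuperset_card_eq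
    (Finset.subset_univ (g.supportᶜ)) (n := n - p + 1) (by omega)
    (by rw [Finset.card_univ, Fintype.card_fin]; omega)
  let x : Fin (n - p + 1) ↪ Fin n :=
    (T.equivFinOfCardEq hT2).symm.toEmbedding.trans (Function.Embedding.subtype _)
  obtain ⟨h, hh⟩ := MulAction.exists_smul_eq K x (x.trans τ.toEmbedding)
  refine ⟨h, h.2, fun y hy => ?_⟩
  have hyT : y ∈ T := hT1 (by rw [Finset.mem_compl, Perm.mem_support]; exact not_not.mpr hy)
  have h5 := congrArg (fun e : Fin (n - p + 1) ↪ Fin n => e (T.equivFinOfCardEq hT2 ⟨y, hyT⟩)) hh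
  have h6 : x (T.equivFinOfCardEq hT2 ⟨y, hyT⟩) = y := by
    show (((T.equivFinOfCardEq hT2).symm (T.equivFinOfCardEq hT2 ⟨y, hyT⟩) : T) : Fin n) = y
    rw [Equiv.symm_apply_apply]
  have h7 : (h • x) (T.equivFinOfCardEq hT2 ⟨y, hyT⟩) =
      (h : Perm (Fin n)) (x (T.equivFinOfCardEq hT2 ⟨y, hyT⟩)) := rfl
  have h8 : (x.trans τ.toEmbedding) (T.equivFinOfCardEq hT2 ⟨y, hyT⟩) =
      τ (x (T.equivFinOfCardEq hT2 ⟨y, hyT⟩)) := rfl
  rw [h7, h8, h6] at h5
  exact h5

end MARK
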