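import Pool.Agent.MARK.Defs

namespace MARK

open Equiv
open scoped Pointwise

/-- the pointwise stabilizer in `K` of the fixed points of `g` -/
private def JPB_L {n : ℕ} (K : Subgroup (Perm (Fin n))) (g : Perm (Fin n)) :
    Subgroup (Perm (Fin n)) where
  carrier := {t | t ∈ K ∧ ∀ x, g x = x → t x = x}
  mul_mem' := by
    rintro a b ⟨ha, ha'⟩ ⟨hb, hb'⟩
    exact ⟨K.mul_mem ha hb, fun x hx => by rw [Perm.mul_apply, hb' x hx, ha' x hx]⟩
  one_mem' := ⟨K.one_mem, fun x _ => rfl⟩
  inv_mem' := by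
    rintro a ⟨ha, ha'⟩
    exact ⟨K.inv_mem ha, fun x hx => by rw [Perm.inv_eq_iff_eq, ha' x hx]⟩

private theorem JPB_card {n p : ℕ} (hp : p.Prime) (K : Subgroup (Perm (Fin n)))
    (g : Perm (Fin n)) (hs : g.support.card = p) : ¬ p ^ 2 ∣ Nat.card (JPB_L K g) := by
  intro h
  have h1 : JPB_L K g ≤ (Perm.ofSubtype (p := fun x => x ∈ g.support)).range := by
    rintro t ⟨-, ht⟩
    have h3 : ∀ x, t x ≠ x → x ∈ g.support := by
      intro x hx
      rw [Perm.mem_support]
      intro h4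
      exact hx (ht x h4)
    have h4 : ∀ x, t x ∈ g.support ↔ x ∈ g.support := by
      intro x
      rw [Perm.mem_support, Perm.mem_support]
      constructor
      · intro h5 h6
        rw [ht x h6] at h5
        exact h5 h6
      · intro h5 h6
        have h7 := t.injective (ht _ h6)
        rw [h7] at h6
        exact h5 h6
    exact ⟨Perm.subtypePerm t h4, Perm.ofSubtype_subtypePerm _ h3⟩
  have h2 := Subgroup.card_dvd_of_le h1
  have h3 : Nat.card (Perm.ofSubtype (p := fun x => x ∈ g.support)).range = p.factorial := by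
    rw [← Nat.card_congr (MonoidHom.ofInjective
      (Perm.ofSubtype_injective (p := fun x => x ∈ g.support))).toEquiv, Nat.card_perm,
      Nat.card_eq_fintype_card, Fintype.card_coe, hs]
  rw [h3] at h2
  have h4 := h.trans h2
  rw [← Nat.mul_factorial_pred hp.ne_zero, sq] at h4
  have h5 := Nat.dvd_of_mul_dvd_mul_left hp.pos h4
  rw [hp.dvd_factorial] at h5
  have := hp.pos
  omega

theorem JPB_main (n p : ℕ) (hp : p.Prime) (K : Subgroup (Perm (Fin n))) (g : Perm (Fin n))
    (hg : g ∈ K) (hc : g.IsCycle) (hs : g.support.card = p) (h : Perm (Fin n)) (hh : h ∈ K)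
    (hfix : ∀ x, g x = x → g (h x) = h x) :
    ∃ u ∈ K, (∀ x, g x = x → u x = h x) ∧ ∃ k : ℕ, u * g * u⁻¹ = g ^ k := by
  have : Fact p.Prime := ⟨hp⟩
  have hinv : ∀ x, g x = x → g (h⁻¹ x) = h⁻¹ x := by
    intro x hx
    have h1 : (Finset.univ.filter (fun x => g x = x)).image h ⊆
        Finset.univ.filter (fun x => g x = x) := by
      intro y hy
      obtain ⟨z, hz, rfl⟩ := Finset.mem_image.mp hy
      rw [Finset.mem_filter] at hz ⊢
      exact ⟨Finset.mem_univ _, hfix z hz.2⟩
    have h2 := Finset.eq_of_subset_of_card_le h1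
      (by rw [Finset.card_image_of_injective _ h.injective])
    have h3 : x ∈ (Finset.univ.filter (fun x => g x = x)).image h := by
      rw [h2, Finset.mem_filter]
      exact ⟨Finset.mem_univ _, hx⟩
    obtain ⟨y, hy, rfl⟩ := Finset.mem_image.mp h3
    have h4 : h⁻¹ (h y) = y := h.symm_apply_apply y
    rw [h4]
    exact (Finset.mem_filter.mp hy).2
  have hgL : g ∈ JPB_L K g := ⟨hg, fun x hx => hx⟩
  have hcL : h * g * h⁻¹ ∈ JPB_L K g := by
    refine ⟨K.mul_mem (K.mul_mem hh hg) (K.inv_mem hh), fun x hx => ?_⟩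
    rw [Perm.mul_apply, Perm.mul_apply, hinv x hx]
    exact h.apply_symm_apply x
  have hsyl : ∀ a : JPB_L K g, orderOf a = p → ¬ p ∣ (Subgroup.zpowers a).index := by
    intro a ha hd
    have h1 := Subgroup.card_mul_index (Subgroup.zpowers a)
    rw [Nat.card_zpowers, ha] at h1
    apply JPB_card hp K g hs
    rw [← h1, sq]
    exact mul_dvd_mul_left p hd
  have hpg : ∀ a : JPB_L K g, orderOf a = p → IsPGroup p (Subgroup.zpowers a) := by
    intro a ha
    exact IsPGroup.of_card (n := 1) (by rw [Nat.card_zpowers, ha, pow_one])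
  have hord1 : orderOf (⟨g, hgL⟩ : JPB_L K g) = p := by
    rw [Subgroup.orderOf_mk, hc.orderOf, hs]
  have hord2 : orderOf (⟨h * g * h⁻¹, hcL⟩ : JPB_L K g) = p := by
    rw [Subgroup.orderOf_mk]
    have h1 := MulEquiv.orderOf_eq (MulAut.conj h) g
    rw [MulAut.conj_apply] at h1
    rw [h1, hc.orderOf, hs]
  obtain ⟨t, ht⟩ := MulAction.exists_smul_eq (JPB_L K g)
    ((hpg _ hord2).toSylow (hsyl _ hord2)) ((hpg _ hord1).toSylow (hsyl _ hord1))
  have hmem : MulAut.conj t • (⟨h * g * h⁻¹, hcL⟩ : JPB_L K g) ∈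
      Subgroup.zpowers (⟨g, hgL⟩ : JPB_L K g) := by
    have h1 : MulAut.conj t • Subgroup.zpowers (⟨h * g * h⁻¹, hcL⟩ : JPB_L K g) =
        Subgroup.zpowers (⟨g, hgL⟩ : JPB_L K g) := by
      have h2 := congrArg (fun P : Sylow p (JPB_L K g) => (P : Subgroup (JPB_L K g))) ht
      exact h2
    rw [← h1]
    exact Subgroup.smul_mem_pointwise_smul _ _ _ (Subgroup.mem_zpowers _)
  rw [← mem_powers_iff_mem_zpowers] at hmem
  obtain ⟨k, hk⟩ := hmem
  refine ⟨(t : Perm (Fin n)) * h, K.mul_mem t.2.1 hh, fun x hx => ?_, k, ?_⟩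
  · rw [Perm.mul_apply]
    exact t.2.2 _ (hfix x hx)
  · have h1 := congrArg (fun a : JPB_L K g => (a : Perm (Fin n))) hk
    simp only [MulAut.smul_def, MulAut.conj_apply, Subgroup.coe_mul, Subgroup.coe_inv,
      SubmonoidClass.coe_pow] at h1
    rw [h1, mul_inv_rev]
    group

end MARK
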