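import Pool.Agent.MARK.Defs

namespace MARK

open Equiv
open scoped Pointwise

theorem JPC_inv {n : ℕ} (g u τ : Perm (Fin n)) (hτ : ∀ x, g x = x → g (τ x) = τ x)
    (hττ : ∀ x, τ (τ x) = x)
    (hu : ∀ x, g x = x → u x = τ x) (x : Fin n) (hx : g x = x) : u⁻¹ x = τ x := by
  rw [Perm.inv_eq_iff_eq, hu _ (hτ x hx), hττ]

theorem JPC_swapfix {n : ℕ} (g : Perm (Fin n)) (a b : Fin n) (ha : g a = a) (hb : g b = b)
    (x : Fin n) (hx : g x = x) : g (swap a b x) = swap a b x := by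
  by_cases h1 : x = a
  · subst h1; simpa using hb
  · by_cases h2 : x = b
    · subst h2; simpa using ha
    · rw [swap_apply_of_ne_of_ne h1 h2]; exact hx

theorem JPC_swapne {n : ℕ} (g : Perm (Fin n)) (a b : Fin n) (ha : g a = a) (hb : g b = b)
    (x : Fin n) (hx : g x ≠ x) : swap a b x = x := by
  apply swap_apply_of_ne_of_ne
  · rintro rfl; exact hx ha
  · rintro rfl; exact hx hb

theorem JPC_main (n p : ℕ) (hp : p.Prime) (hp5 : 5 ≤ p) (K : Subgroup (Perm (Fin n)))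
    (g : Perm (Fin n)) (hg : g ∈ K)
    (hc : g.IsCycle) (hs : g.support.card = p) (a b c : Fin n) (hab : a ≠ b) (hbc : b ≠ c)
    (hac : a ≠ c) (ha : g a = a) (hb : g b = b) (hc' : g c = c)
    (hl : ∀ τ : Perm (Fin n), (∀ x, g x ≠ x → τ x = x) →
      ∃ u ∈ K, (∀ x, g x = x → u x = τ x) ∧ ∃ k : ℕ, u * g * u⁻¹ = g ^ k) :
    ∃ t ∈ K, t.IsThreeCycle := by
  classical
  obtain ⟨n1, hn1, hf1, k1, hk1⟩ := hl (swap a b) (JPC_swapne g a b ha hb)
  obtain ⟨n2, hn2, hf2, k2, hk2⟩ := hl (swap b c) (JPC_swapne g b c hb hc')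
  set m : Perm (Fin n) := n1⁻¹ * n2⁻¹ * n1 * n2 with hm
  have hmK : m ∈ K := K.mul_mem (K.mul_mem (K.mul_mem (K.inv_mem hn1) (K.inv_mem hn2)) hn1) hn2
  -- conjugation of powers
  have hpow : ∀ (u : Perm (Fin n)) (k j : ℕ), u * g * u⁻¹ = g ^ k →
      u * g ^ j * u⁻¹ = g ^ (k * j) := by
    intro u k j h
    rw [pow_mul, ← h, conj_pow]
  have h12 : (n1 * n2) * g * (n1 * n2)⁻¹ = g ^ (k1 * k2) := by
    have : (n1 * n2) * g * (n1 * n2)⁻¹ = n1 * (n2 * g * n2⁻¹) * n1⁻¹ := by group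
    rw [this, hk2, hpow n1 k1 k2 hk1]
  have h21 : (n2 * n1) * g * (n2 * n1)⁻¹ = g ^ (k1 * k2) := by
    have : (n2 * n1) * g * (n2 * n1)⁻¹ = n2 * (n1 * g * n1⁻¹) * n2⁻¹ := by group
    rw [this, hk1, hpow n2 k2 k1 hk2, mul_comm k2 k1]
  have hcomm : m * g = g * m := by
    have e1 : (n1 * n2) * g = g ^ (k1 * k2) * (n1 * n2) := by
      rw [← h12]; group
    have e2 : (n2 * n1) * g = g ^ (k1 * k2) * (n2 * n1) := by
      rw [← h21]; group
    have e3 : m = (n2 * n1)⁻¹ * (n1 * n2) := by rw [hm]; group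
    rw [e3, mul_assoc, e1, ← mul_assoc, ← mul_assoc g]
    congr 1
    rw [inv_mul_eq_iff_eq_mul, ← h21]
    group
  have hcomm' : ∀ x, m (g x) = g (m x) := by
    intro x
    have := congrArg (fun z : Perm (Fin n) => z x) hcomm
    simpa using this
  -- the three-cycle
  set ρ : Perm (Fin n) := swap a b * swap b c with hρ
  have hρ3 : ρ.IsThreeCycle := by
    rw [hρ, swap_comm a b]
    exact Perm.isThreeCycle_swap_mul_swap_same hab.symm hbc hac
  have hρfix : ∀ x, g x = x → g (ρ x) = ρ x := by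
    intro x hx
    exact JPC_swapfix g a b ha hb _ (JPC_swapfix g b c hb hc' x hx)
  have hρne : ∀ x, g x ≠ x → ρ x = x := by
    intro x hx
    rw [hρ, Perm.mul_apply, JPC_swapne g b c hb hc' x hx, JPC_swapne g a b ha hb x hx]
  -- m on fixed points
  have hmfix : ∀ x, g x = x → m x = (ρ ^ 2) x := by
    intro x hx
    have h1 := JPC_swapfix g b c hb hc' x hx
    have h2 := JPC_swapfix g a b ha hb _ h1
    have h3 := JPC_swapfix g b c hb hc' _ h2
    rw [hm, Perm.mul_apply, Perm.mul_apply, Perm.mul_apply, hf2 x hx, hf1 _ h1,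
      JPC_inv g n2 (swap b c) (JPC_swapfix g b c hb hc') (fun x => swap_apply_self b c x) hf2 _ h2,
      JPC_inv g n1 (swap a b) (JPC_swapfix g a b ha hb) (fun x => swap_apply_self a b x) hf1 _ h3]
    rw [pow_two, hρ]
    rfl
  have hmpowfix : ∀ (j : ℕ) (x : Fin n), g x = x → (m ^ j) x = ((ρ ^ 2) ^ j) x ∧
      g (((ρ ^ 2) ^ j) x) = ((ρ ^ 2) ^ j) x := by
    intro j
    induction j with
    | zero => intro x hx; simpa using hx
    | succ j ih =>
      intro x hx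
      obtain ⟨i1, i2⟩ := ih x hx
      rw [pow_succ', Perm.mul_apply, i1, hmfix _ i2, pow_succ' (ρ ^ 2), Perm.mul_apply]
      refine ⟨rfl, ?_⟩
      rw [pow_two, Perm.mul_apply]
      exact hρfix _ (hρfix _ i2)
  -- m on the support
  obtain ⟨x0, hx0, hcyc⟩ := hc
  have hx0m : g (m x0) ≠ m x0 := by
    rw [← hcomm']
    intro h
    exact hx0 (m.injective h)
  obtain ⟨i, hi⟩ := hcyc hx0m
  have hcommz : ∀ (j : ℤ) (x : Fin n), m ((g ^ j) x) = (g ^ j) (m x) := by
    intro j x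
    have h1 : Commute m g := hcomm
    have h2 : m * g ^ j = g ^ j * m := h1.zpow_right j
    have := congrArg (fun z : Perm (Fin n) => z x) h2
    simpa using this
  have hmsup : ∀ x, g x ≠ x → m x = (g ^ i) x := by
    intro x hx
    obtain ⟨j, hj⟩ := hcyc hx
    rw [← hj, hcommz, ← hi, ← Perm.mul_apply, ← Perm.mul_apply, ← zpow_add, ← zpow_add, add_comm]
  have hcomg : ∀ x, g x ≠ x → g ((g ^ i) x) ≠ (g ^ i) x := by
    intro x hx h
    apply hx
    have : (g ^ i) (g x) = (g ^ i) x := by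
      rw [← Perm.mul_apply, ← zpow_add_one, add_comm, zpow_add, zpow_one, Perm.mul_apply, h]
    exact (g ^ i).injective this
  have hmpowsup : ∀ (j : ℕ) (x : Fin n), g x ≠ x → (m ^ j) x = ((g ^ i) ^ j) x ∧
      g (((g ^ i) ^ j) x) ≠ ((g ^ i) ^ j) x := by
    intro j
    induction j with
    | zero => intro x hx; simpa using hx
    | succ j ih =>
      intro x hx
      obtain ⟨i1, i2⟩ := ih x hx
      rw [pow_succ', Perm.mul_apply, i1, hmsup _ i2, pow_succ' (g ^ i), Perm.mul_apply]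
      exact ⟨rfl, hcomg _ i2⟩
  have hgp : g ^ p = 1 := by
    have h1 : g.IsCycle := ⟨x0, hx0, hcyc⟩
    rw [← hs, ← h1.orderOf]
    exact pow_orderOf_eq_one g
  have hgip : (g ^ i) ^ p = 1 := by
    rw [← zpow_natCast, ← zpow_mul, mul_comm, zpow_mul, zpow_natCast, hgp, one_zpow]
  have hρpow : ∀ (j : ℕ) (x : Fin n), g x ≠ x → (ρ ^ j) x = x := by
    intro j
    induction j with
    | zero => intro x _; simp
    | succ j ih =>
      intro x hx
      rw [pow_succ, Perm.mul_apply, hρne x hx, ih x hx]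
  have htρ : m ^ p = ρ ^ (2 * p) := by
    ext x
    congr 1
    by_cases hx : g x = x
    · rw [(hmpowfix p x hx).1, ← pow_mul]
    · rw [(hmpowsup p x hx).1, hgip, hρpow _ x hx, Perm.one_apply]
  refine ⟨m ^ p, K.pow_mem hmK p, ?_⟩
  rw [htρ]
  have ho : ρ ^ 3 = 1 := by
    rw [← hρ3.orderOf]
    exact pow_orderOf_eq_one ρ
  have hmod : ρ ^ (2 * p) = ρ ^ (2 * p % 3) := by
    conv_lhs => rw [← Nat.div_add_mod (2 * p) 3, pow_add, pow_mul, ho, one_pow, one_mul]
  rw [hmod]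
  have h3 : ¬ 3 ∣ p := by
    intro h
    have := (Nat.prime_dvd_prime_iff_eq Nat.prime_three hp).1 h
    omega
  have hcase : 2 * p % 3 = 1 ∨ 2 * p % 3 = 2 := by omega
  rcases hcase with h | h
  · rw [h, pow_one]; exact hρ3
  · rw [h, pow_two]; exact hρ3.isThreeCycle_sq
end MARK
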