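import Pool.Agent.MARK.Defs
import Pool.Agent.MARK.PC
import Pool.Agent.MARK.JPA
import Pool.Agent.MARK.JPB
import Pool.Agent.MARK.JPC

namespace MARK

open Equiv
open scoped Pointwise

theorem JP_main (n p : ℕ) (hp : p.Prime) (h3 : p + 3 ≤ n) (h2 : n < 2 * p)
    (K : Subgroup (Perm (Fin n))) (htr : MulAction.IsPretransitive K (Fin n))
    (hd : p ∣ Nat.card K) : alternatingGroup (Fin n) ≤ K := by
  classical
  obtain ⟨g, hg, hc, hs⟩ := PC_cycle n p hp h2 K hd
  have hpr := PC_prim n p hp h2 K htr g hg hc hs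
  have hp5 : 5 ≤ p := by
    by_contra hlt
    have : p = 4 := by omega
    subst this
    exact absurd hp (by decide)
  have hcard : 2 < (g.supportᶜ : Finset (Fin n)).card := by
    rw [Finset.card_compl, hs, Fintype.card_fin]; omega
  obtain ⟨a, b, c, ha, hb, hc', hab, hac, hbc⟩ := Finset.two_lt_card_iff.1 hcard
  have hfix : ∀ x, x ∈ (g.supportᶜ : Finset (Fin n)) → g x = x := by
    intro x hx
    have h1 := Finset.mem_compl.1 hx
    by_contra h4
    exact h1 (Perm.mem_support.2 h4)
  obtain ⟨t, ht, ht3⟩ := JPC_main n p hp hp5 K g hg hc hs a b c hab hbc hac (hfix a ha)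
    (hfix b hb) (hfix c hc') (by
      intro τ hτ
      obtain ⟨h, hh, hhx⟩ := JPA_main n p hp h2 (by omega) K htr g hg hc hs τ hτ
      obtain ⟨u, hu, hux, k, hk⟩ := JPB_main n p hp K g hg hc hs h hh (by
        intro x hx
        rw [hhx x hx]
        by_contra h5
        have h6 := hτ _ h5
        have h7 : τ x = x := τ.injective h6
        exact h5 (by rw [h7]; exact hx))
      exact ⟨u, hu, fun x hx => by rw [hux x hx, hhx x hx], k, hk⟩)
  exact Perm.alternatingGroup_le_of_isPreprimitive_of_isThreeCycle_mem hpr ht3 ht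

end MARK
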