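import Pool.Agent.MARK.Defs

namespace MARK

open Equiv
open scoped Pointwise

/-- the prime factors of the central binomial coefficient if there is no prime in the range -/
theorem PRA_fact (m : ℕ) (hm : 3 < m)
    (hno : ∀ p : ℕ, p.Prime → m + 2 ≤ p → ¬ p + 3 ≤ 2 * m) :
    Nat.centralBinom m ≤
      ((2 * m) ^ Nat.sqrt (2 * m) * 4 ^ (2 * m / 3)) * ((m + 1) * (2 * m - 1)) := by
  have n_pos : 0 < m := by omega
  have n2_pos : 1 ≤ 2 * m := by omega
  let f : ℕ → ℕ := fun x => x ^ (Nat.centralBinom m).factorization x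
  have h0 : ∏ p ∈ Finset.range (2 * m + 1), f p = Nat.centralBinom m :=
    m.prod_pow_factorization_centralBinom
  have hsub : Finset.range (2 * m / 3 + 1) ⊆ Finset.range (2 * m + 1) := by
    intro x hx
    rw [Finset.mem_range] at hx ⊢
    omega
  rw [← h0, ← Finset.prod_sdiff hsub, mul_comm]
  apply Nat.mul_le_mul
  · let S := {p ∈ Finset.range (2 * m / 3 + 1) | Nat.Prime p}
    have : ∏ x ∈ S, f x = ∏ x ∈ Finset.range (2 * m / 3 + 1), f x := by
      refine Finset.prod_filter_of_ne fun p _ h => ?_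
      contrapose h
      change p ^ (Nat.centralBinom m).factorization p = 1
      rw [Nat.factorization_eq_zero_of_not_prime m.centralBinom h, _root_.pow_zero]
    rw [← this, ← Finset.prod_filter_mul_prod_filter_not S (· ≤ Nat.sqrt (2 * m))]
    apply mul_le_mul'
    · refine (Finset.prod_le_prod' fun p _ => (?_ : f p ≤ 2 * m)).trans ?_
      · exact Nat.pow_factorization_choose_le (mul_pos two_pos n_pos)
      have : (Finset.Icc 1 (Nat.sqrt (2 * m))).card = Nat.sqrt (2 * m) := by
        rw [Nat.card_Icc, Nat.add_sub_cancel]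
      rw [Finset.prod_const]
      refine pow_right_mono₀ n2_pos ((Finset.card_le_card fun x hx => ?_).trans this.le)
      obtain ⟨h1, h2⟩ := Finset.mem_filter.1 hx
      exact Finset.mem_Icc.mpr ⟨(Finset.mem_filter.1 h1).2.one_lt.le, h2⟩
    · refine le_trans ?_ (primorial_le_four_pow (2 * m / 3))
      refine (Finset.prod_le_prod' fun p hp => (?_ : f p ≤ p)).trans ?_
      · obtain ⟨h1, h2⟩ := Finset.mem_filter.1 hp
        refine (pow_right_mono₀ (Finset.mem_filter.1 h1).2.one_lt.le ?_).trans (pow_one p).le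
        exact Nat.factorization_choose_le_one (Nat.sqrt_lt'.mp <| not_le.1 h2)
      refine Finset.prod_le_prod_of_subset_of_one_le' (Finset.filter_subset _ _) ?_
      exact fun p hp _ => (Finset.mem_filter.1 hp).2.one_lt.le
  · -- primes larger than two thirds
    have h1 : ∀ p ∈ Finset.range (2 * m + 1) \ Finset.range (2 * m / 3 + 1),
        p ∉ ({m + 1, 2 * m - 1} : Finset ℕ) → f p = 1 := by
      intro p hp hp2
      rw [Finset.mem_sdiff, Finset.mem_range, Finset.mem_range] at hp
      rw [Finset.mem_insert, Finset.mem_singleton, not_or] at hp2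
      change p ^ (Nat.centralBinom m).factorization p = 1
      by_cases hpr : p.Prime
      · rcases le_or_gt p m with hpm | hpm
        · rw [Nat.factorization_centralBinom_of_two_mul_self_lt_three_mul (by omega) hpm
            (by omega), Nat.pow_zero]
        · exfalso
          have h2 := hno p hpr (by omega)
          have h3 : p = 2 * m ∨ p = 2 * m - 2 := by omega
          have h4 : 2 ∣ p := by
            rcases h3 with h3 | h3 <;> omega
          have h5 := (Nat.prime_dvd_prime_iff_eq Nat.prime_two hpr).1 h4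
          omega
      · rw [Nat.factorization_eq_zero_of_not_prime m.centralBinom hpr, Nat.pow_zero]
    have h2 : ∏ p ∈ Finset.range (2 * m + 1) \ Finset.range (2 * m / 3 + 1), f p ≤
        ∏ p ∈ ({m + 1, 2 * m - 1} : Finset ℕ), p := by
      have h3 : ∏ p ∈ (Finset.range (2 * m + 1) \ Finset.range (2 * m / 3 + 1)).filter
          (fun p => p ∈ ({m + 1, 2 * m - 1} : Finset ℕ)), f p =
          ∏ p ∈ Finset.range (2 * m + 1) \ Finset.range (2 * m / 3 + 1), f p := by
        refine Finset.prod_filter_of_ne fun p hp h => ?_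
        by_contra hcon
        exact h (h1 p hp hcon)
      rw [← h3]
      refine (Finset.prod_le_prod' fun p hp => (?_ : f p ≤ p)).trans ?_
      · obtain ⟨-, h4⟩ := Finset.mem_filter.1 hp
        have h5 : m < p := by
          rw [Finset.mem_insert, Finset.mem_singleton] at h4
          omega
        refine (pow_right_mono₀ (by omega : 1 ≤ p) ?_).trans (pow_one p).le
        apply Nat.factorization_choose_le_one
        nlinarith
      · refine Finset.prod_le_prod_of_subset_of_one_le' (fun p hp => (Finset.mem_filter.1 hp).2) ?_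
        intro p hp _
        rw [Finset.mem_insert, Finset.mem_singleton] at hp
        omega
    refine h2.trans (le_of_eq ?_)
    rw [Finset.prod_pair (by omega)]

theorem PRA_pow (k : ℕ) (hk : 6 ≤ k) : 9 * k + 9 ≤ 2 ^ k := by
  induction k, hk using Nat.le_induction with
  | base => norm_num
  | succ k hk ih =>
    rw [pow_succ]
    omega

theorem PRA_main (m : ℕ) (h : 1500 ≤ m) : ∃ p : ℕ, p.Prime ∧ m + 2 ≤ p ∧ p + 3 ≤ 2 * m := by
  by_contra hcon
  push Not at hcon
  have h1 := PRA_fact m (by omega) (fun p hp h2 => by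
    have := hcon p hp h2
    omega)
  have h2 := Nat.four_pow_lt_mul_centralBinom m (by omega)
  set s := Nat.sqrt (2 * m) with hs
  have hs1 : s * s ≤ 2 * m := Nat.sqrt_le (2 * m)
  have hs2 : 2 * m < (s + 1) * (s + 1) := Nat.lt_succ_sqrt (2 * m)
  have hs3 : 54 ≤ s := Nat.le_sqrt.2 (by omega)
  -- the bound for `s + 1`
  set k := s / 9 with hk
  have hk1 : 9 * k ≤ s := by omega
  have hk2 : s + 1 ≤ 9 * k + 9 := by omega
  have hT : s + 1 ≤ 2 ^ k := hk2.trans (PRA_pow k (by omega))
  have h3 : (2 * m) ^ s ≤ (2 ^ k) ^ (2 * s) := by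
    calc (2 * m) ^ s ≤ ((s + 1) * (s + 1)) ^ s := Nat.pow_le_pow_left hs2.le s
      _ = (s + 1) ^ (2 * s) := by rw [← pow_two, ← pow_mul]
      _ ≤ (2 ^ k) ^ (2 * s) := Nat.pow_le_pow_left hT _
  have h4 : m * ((m + 1) * (2 * m - 1)) ≤ (2 ^ k) ^ 6 := by
    calc m * ((m + 1) * (2 * m - 1)) ≤ ((s + 1) * (s + 1)) * (((s + 1) * (s + 1)) *
          ((s + 1) * (s + 1))) := by
          apply Nat.mul_le_mul (by omega)
          apply Nat.mul_le_mul (by omega) (by omega)
      _ = (s + 1) ^ 6 := by ring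
      _ ≤ (2 ^ k) ^ 6 := Nat.pow_le_pow_left hT _
  have h5 : k * (2 * s + 6) ≤ 2 * (m - 2 * m / 3) := by
    have h6 : 9 * k * (2 * s + 6) ≤ s * (2 * s + 6) := Nat.mul_le_mul_right _ hk1
    have h7 : s * (2 * s + 6) ≤ 3 * (s * s) := by nlinarith
    have h8 : 9 * k * (2 * s + 6) = 9 * (k * (2 * s + 6)) := by ring
    omega
  have h6 : m * Nat.centralBinom m ≤ 4 ^ m := by
    calc m * Nat.centralBinom m ≤
        m * (((2 * m) ^ s * 4 ^ (2 * m / 3)) * ((m + 1) * (2 * m - 1))) :=
          Nat.mul_le_mul_left _ h1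
      _ = ((2 * m) ^ s * (m * ((m + 1) * (2 * m - 1)))) * 4 ^ (2 * m / 3) := by ring
      _ ≤ ((2 ^ k) ^ (2 * s) * (2 ^ k) ^ 6) * 4 ^ (2 * m / 3) :=
          Nat.mul_le_mul_right _ (Nat.mul_le_mul h3 h4)
      _ = 2 ^ (k * (2 * s + 6)) * 4 ^ (2 * m / 3) := by rw [← pow_add, ← pow_mul]
      _ ≤ 2 ^ (2 * (m - 2 * m / 3)) * 4 ^ (2 * m / 3) :=
          Nat.mul_le_mul_right _ (Nat.pow_le_pow_right (by norm_num) h5)
      _ = 4 ^ m := by
          have h9 : (2 : ℕ) ^ 2 = 4 := by norm_num
          rw [pow_mul, h9, ← pow_add]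
          congr 1
          omega
  omega

end MARK
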