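import Pool.Agent.MARK.Defs
import Pool.Agent.MARK.PRA

namespace MARK

open Equiv
open scoped Pointwise

theorem PR_main (n : ℕ) (h : 8 ≤ n) (h9 : n ≠ 9) (h13 : n ≠ 13) :
    ∃ p : ℕ, p.Prime ∧ n + 2 ≤ 2 * p ∧ p + 3 ≤ n := by
  rcases Nat.lt_or_ge n 3000 with h1 | h1
  · rcases Nat.lt_or_ge n 10 with h2 | h2
    · exact ⟨5, by norm_num, by omega, by omega⟩
    rcases Nat.lt_or_ge n 13 with h3 | h3
    · exact ⟨7, by norm_num, by omega, by omega⟩
    rcases Nat.lt_or_ge n 21 with h4 | h4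
    · exact ⟨11, by norm_num, by omega, by omega⟩
    rcases Nat.lt_or_ge n 33 with h5 | h5
    · exact ⟨17, by norm_num, by omega, by omega⟩
    rcases Nat.lt_or_ge n 57 with h6 | h6
    · exact ⟨29, by norm_num, by omega, by omega⟩
    rcases Nat.lt_or_ge n 105 with h7 | h7
    · exact ⟨53, by norm_num, by omega, by omega⟩
    rcases Nat.lt_or_ge n 201 with h8 | h8
    · exact ⟨101, by norm_num, by omega, by omega⟩
    rcases Nat.lt_or_ge n 393 with h10 | h10
    · exact ⟨197, by norm_num, by omega, by omega⟩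
    rcases Nat.lt_or_ge n 777 with h11 | h11
    · exact ⟨389, by norm_num, by omega, by omega⟩
    rcases Nat.lt_or_ge n 1545 with h12 | h12
    · exact ⟨773, by norm_num, by omega, by omega⟩
    exact ⟨1531, by norm_num, by omega, by omega⟩
  · obtain ⟨p, hp, h2, h3⟩ := PRA_main (n / 2) (by omega)
    exact ⟨p, hp, by omega, by omega⟩

end MARK
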