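import Pool.Agent.MARK.Defs

namespace MARK

open Equiv
open scoped Pointwise

/-- choice of a subset with prescribed intersection -/
theorem LEV_choose {n : ℕ} (Ω A : Finset (Fin n)) (hA : A ⊆ Ω) (i j : ℕ) (hi : i ≤ A.card)
    (hj : j ≤ (Ω \ A).card) :
    ∃ t : Finset (Fin n), t ⊆ Ω ∧ t.card = i + j ∧ (t ∩ A).card = i := by
  obtain ⟨u, hu, hui⟩ := Finset.exists_subset_card_eq hi
  obtain ⟨w, hw, hwj⟩ := Finset.exists_subset_card_eq hj
  refine ⟨u ∪ w, ?_, ?_, ?_⟩
  · exact Finset.union_subset (hu.trans hA) (hw.trans Finset.sdiff_subset)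
  · rw [Finset.card_union_of_disjoint, hui, hwj]
    rw [Finset.disjoint_left]
    intro x hx hx'
    exact (Finset.mem_sdiff.1 (hw hx')).2 (hu hx)
  · have : (u ∪ w) ∩ A = u := by
      ext x
      simp only [Finset.mem_inter, Finset.mem_union]
      constructor
      · rintro ⟨h1 | h1, h2⟩
        · exact h1
        · exact absurd h2 (Finset.mem_sdiff.1 (hw h1)).2
      · intro h
        exact ⟨Or.inl h, hu h⟩
    rw [this, hui]

theorem LEV_main (n k : ℕ) (Ω A : Finset (Fin n)) (hA : A ⊆ Ω) (hAk : A.card = k)
    (hΩ : 2 * k ≤ Ω.card) (f : Finset (Fin n) → ℂ)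
    (hf : ∀ t : Finset (Fin n), t ⊆ Ω → t.card + 1 = k → ∑ y ∈ Ω \ t, f (insert y t) = 0)
    (hdep : ∀ s s' : Finset (Fin n), s ⊆ Ω → s' ⊆ Ω → s.card = k → s'.card = k →
      (s ∩ A).card = (s' ∩ A).card → f s = f s')
    (h0 : f A = 0) (s : Finset (Fin n)) (hs : s ⊆ Ω) (hsk : s.card = k) : f s = 0 := by
  have hΩA : (Ω \ A).card = Ω.card - k := by
    rw [Finset.card_sdiff_of_subset hA, hAk]
  -- downward induction on the size of the intersection
  have key : ∀ d : ℕ, d ≤ k → ∀ s : Finset (Fin n), s ⊆ Ω → s.card = k →
      (s ∩ A).card = k - d → f s = 0 := by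
    intro d
    induction d with
    | zero =>
      intro _ s hs hsk hsA
      have h1 : f s = f A := by
        apply hdep s A hs hA hsk hAk
        rw [Finset.inter_self, hAk, hsA, Nat.sub_zero]
      rw [h1, h0]
    | succ d ih =>
      intro hd s hs hsk hsA
      -- i = k - (d+1)
      obtain ⟨t, htΩ, htc, htA⟩ := LEV_choose Ω A hA (k - (d + 1)) d (by omega) (by omega)
      have htk : t.card + 1 = k := by omega
      have hsum := hf t htΩ htk
      -- split the sum
      have hsplit : Ω \ t = (A \ t) ∪ ((Ω \ A) \ t) := by
        ext x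
        simp only [Finset.mem_sdiff, Finset.mem_union]
        constructor
        · rintro ⟨h1, h2⟩
          by_cases hx : x ∈ A
          · exact Or.inl ⟨hx, h2⟩
          · exact Or.inr ⟨⟨h1, hx⟩, h2⟩
        · rintro (⟨h1, h2⟩ | ⟨⟨h1, _⟩, h2⟩)
          · exact ⟨hA h1, h2⟩
          · exact ⟨h1, h2⟩
      have hdisj : Disjoint (A \ t) ((Ω \ A) \ t) := by
        rw [Finset.disjoint_left]
        intro x hx hx'
        simp only [Finset.mem_sdiff] at hx hx'
        exact hx'.1.2 hx.1
      rw [hsplit, Finset.sum_union hdisj] at hsum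
      have hA1 : ∀ y ∈ A \ t, f (insert y t) = 0 := by
        intro y hy
        rw [Finset.mem_sdiff] at hy
        apply ih (by omega)
        · intro x hx
          rcases Finset.mem_insert.1 hx with hx | hx
          · rw [hx]; exact hA hy.1
          · exact htΩ hx
        · rw [Finset.card_insert_of_notMem hy.2]; exact htk
        · rw [Finset.insert_inter_of_mem hy.1, Finset.card_insert_of_notMem, htA]
          · omega
          · intro h
            exact hy.2 (Finset.mem_inter.1 h).1
      have hA2 : ∀ y ∈ (Ω \ A) \ t, f (insert y t) = f s := by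
        intro y hy
        simp only [Finset.mem_sdiff] at hy
        apply hdep _ _ _ hs _ hsk
        · rw [Finset.insert_inter_of_notMem hy.1.2, htA, hsA]
        · intro x hx
          rcases Finset.mem_insert.1 hx with hx | hx
          · rw [hx]; exact hy.1.1
          · exact htΩ hx
        · rw [Finset.card_insert_of_notMem hy.2]; exact htk
      rw [Finset.sum_eq_zero hA1, zero_add, Finset.sum_congr rfl hA2, Finset.sum_const,
        nsmul_eq_mul] at hsum
      rcases mul_eq_zero.1 hsum with h1 | h1
      · exfalso
        have h2 : ((Ω \ A) \ t).card = 0 := by exact_mod_cast h1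
        have h3 := Finset.le_card_sdiff t (Ω \ A)
        have h4 : ((Ω \ A) \ t).card + ((Ω \ A) ∩ t).card = (Ω \ A).card :=
          Finset.card_sdiff_add_card_inter _ _
        have h5 : ((Ω \ A) ∩ t).card + (t ∩ A).card ≤ t.card := by
          rw [← Finset.card_union_of_disjoint]
          · apply Finset.card_le_card
            intro x hx
            simp only [Finset.mem_union, Finset.mem_inter, Finset.mem_sdiff] at hx
            rcases hx with hx | hx
            · exact hx.2
            · exact hx.1
          · rw [Finset.disjoint_left]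
            intro x hx hx'
            simp only [Finset.mem_inter, Finset.mem_sdiff] at hx hx'
            exact hx.1.2 hx'.2
        omega
      · exact h1
  have hle : (s ∩ A).card ≤ k := by
    rw [← hsk]
    exact Finset.card_le_card Finset.inter_subset_left
  exact key (k - (s ∩ A).card) (by omega) s hs hsk (by omega)

end MARK
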