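import Pool.Agent.MARK.Defs

namespace MARK

open Equiv
open scoped Pointwise

private theorem WV_insert {n : ℕ} (g : Perm (Fin n)) (x : Fin n) (t : Finset (Fin n)) :
    g • insert x t = insert (g x) (g • t) := by
  rw [Finset.smul_finset_insert]
  rfl

theorem WV_inv (n k : ℕ) : InvSub (Perm (Fin n)) (VW n k) := by
  rintro g f ⟨hf1, hf2⟩
  refine ⟨fun s hs => hf1 _ (by rwa [Finset.card_smul_finset]), fun t ht => ?_⟩
  have h1 := hf2 (g • t) (by rwa [Finset.card_smul_finset])
  rw [← h1, ← smul_compl]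
  have h2 : g • tᶜ = tᶜ.image (fun x => g x) := rfl
  rw [h2, Finset.sum_image (fun x _ y _ h => g.injective h)]
  refine Finset.sum_congr rfl fun x _ => ?_
  beta_reduce
  rw [WV_insert]

theorem WV_tr (n k : ℕ) (s0 : Finset (Fin n)) (h0 : s0.card = k) (f : Finset (Fin n) → ℂ)
    (hf : f ∈ VW n k) (hne : f ≠ 0) : ∃ g : Perm (Fin n), f (g • s0) ≠ 0 := by
  obtain ⟨s, hs⟩ : ∃ s, f s ≠ 0 := by
    by_contra hcon
    push Not at hcon
    exact hne (funext hcon)
  have hsk : s.card = k := by
    by_contra h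
    exact hs (hf.1 s h)
  let e : s0 ≃ s := Finset.equivOfCardEq (by rw [h0, hsk])
  refine ⟨Equiv.extendSubtype (p := fun x => x ∈ s0) (q := fun x => x ∈ s) e, ?_⟩
  have h1 : Equiv.extendSubtype (p := fun x => x ∈ s0) (q := fun x => x ∈ s) e • s0 = s := by
    apply Finset.eq_of_subset_of_card_le
    · intro y hy
      rw [Finset.mem_smul_finset] at hy
      obtain ⟨x, hx, rfl⟩ := hy
      exact Equiv.extendSubtype_mem e x hx
    · rw [Finset.card_smul_finset, h0, hsk]
  rw [h1]
  exact hs

/-- the explicit values -/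
private def WV_val (n k i : ℕ) : ℤ :=
  (-1) ^ i * (∏ j ∈ Finset.range i, ((n - 2 * k + 1 + j : ℕ) : ℤ)) * ((k - i).factorial : ℤ)

private theorem WV_rec (n k i : ℕ) (hi : i < k) :
    ((k - i : ℕ) : ℤ) * WV_val n k (i + 1) + ((n - 2 * k + 1 + i : ℕ) : ℤ) * WV_val n k i = 0 := by
  unfold WV_val
  rw [Finset.prod_range_succ]
  have h1 : k - i = (k - (i + 1)) + 1 := by omega
  rw [h1, Nat.factorial_succ]
  push_cast
  ring

private theorem WV_mod (n k p : ℕ) (h : 2 * k ≤ n) (hn : n + 1 = p + k) (i : ℕ) (hi : i ≤ k) :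
    (p : ℤ) ∣ WV_val n k i - (k.factorial : ℤ) := by
  have key : ∀ i ≤ k, ((-1 : ℤ) ^ i * (∏ j ∈ Finset.range i, ((n - 2 * k + 1 + j : ℕ) : ℤ)) *
      ((k - i).factorial : ℤ)) ≡ (k.factorial : ℤ) [ZMOD (p : ℤ)] := by
    intro i
    induction i with
    | zero =>
      intro _
      simp
    | succ i ih =>
      intro hi
      have h1 := ih (by omega)
      have h2 : ((n - 2 * k + 1 + i : ℕ) : ℤ) = (p : ℤ) - ((k - i : ℕ) : ℤ) := by omega
      have h3 : k - i = (k - (i + 1)) + 1 := by omega
      have h4 : (-1 : ℤ) ^ (i + 1) * (∏ j ∈ Finset.range (i + 1),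
          ((n - 2 * k + 1 + j : ℕ) : ℤ)) * ((k - (i + 1)).factorial : ℤ) =
          (-1 : ℤ) ^ i * (∏ j ∈ Finset.range i, ((n - 2 * k + 1 + j : ℕ) : ℤ)) *
            ((k - i).factorial : ℤ) - (p : ℤ) * ((-1 : ℤ) ^ i *
              (∏ j ∈ Finset.range i, ((n - 2 * k + 1 + j : ℕ) : ℤ)) *
                ((k - (i + 1)).factorial : ℤ)) := by
        rw [Finset.prod_range_succ, h2, h3, Nat.factorial_succ]
        push_cast
        ring
      rw [h4]
      have h5 : (p : ℤ) * ((-1 : ℤ) ^ i *
              (∏ j ∈ Finset.range i, ((n - 2 * k + 1 + j : ℕ) : ℤ)) *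
                ((k - (i + 1)).factorial : ℤ)) ≡ 0 [ZMOD (p : ℤ)] :=
        (Int.modEq_zero_iff_dvd).mpr (dvd_mul_right _ _)
      have h6 := h1.sub h5
      rw [sub_zero] at h6
      exact h6
  exact (key i hi).symm.dvd

theorem WV_vec (n k : ℕ) (h : 2 * k ≤ n) :
    ∃ v : Finset (Fin n) → ℤ, (fun s => ((v s : ℤ) : ℂ)) ∈ VW n k ∧
      (∃ s0 : Finset (Fin n), s0.card = k ∧ v s0 ≠ 0) ∧
      ∀ p : ℕ, p.Prime → n + 1 = p + k → ∀ s : Finset (Fin n), s.card = k →
        (p : ℤ) ∣ v s - (k.factorial : ℤ) := by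
  obtain ⟨A, -, hA⟩ := Finset.exists_subset_card_eq (s := (Finset.univ : Finset (Fin n)))
    (n := k) (by rw [Finset.card_univ, Fintype.card_fin]; omega)
  refine ⟨fun s => if s.card = k then WV_val n k (s ∩ A).card else 0, ⟨?_, ?_⟩, ⟨A, hA, ?_⟩, ?_⟩
  · intro s hs
    simp [hs]
  · intro t ht
    have hmain : ∀ x ∈ tᶜ, (if (insert x t).card = k then WV_val n k (insert x t ∩ A).card else 0) =
        if x ∈ A then WV_val n k ((t ∩ A).card + 1) else WV_val n k (t ∩ A).card := by
      intro x hx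
      rw [Finset.mem_compl] at hx
      rw [Finset.card_insert_of_notMem hx, if_pos ht]
      by_cases hxA : x ∈ A
      · rw [if_pos hxA, Finset.insert_inter_of_mem hxA, Finset.card_insert_of_notMem]
        exact fun h' => hx (Finset.mem_inter.mp h').1
      · rw [if_neg hxA, Finset.insert_inter_of_notMem hxA]
    have h1 : ∑ x ∈ tᶜ, (((if (insert x t).card = k then
        WV_val n k (insert x t ∩ A).card else 0 : ℤ)) : ℂ) =
        ((∑ x ∈ tᶜ, if x ∈ A then WV_val n k ((t ∩ A).card + 1)
          else WV_val n k (t ∩ A).card : ℤ) : ℂ) := by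
      rw [Int.cast_sum]
      exact Finset.sum_congr rfl fun x hx => by rw [hmain x hx]
    have h2 : ∑ x ∈ tᶜ, (if x ∈ A then WV_val n k ((t ∩ A).card + 1)
        else WV_val n k (t ∩ A).card) = 0 := by
      rw [Finset.sum_ite, Finset.sum_const, Finset.sum_const, nsmul_eq_mul, nsmul_eq_mul]
      set i := (t ∩ A).card with hi
      have c1 : (tᶜ.filter (fun x => x ∈ A)).card = k - i := by
        have e1 : tᶜ.filter (fun x => x ∈ A) = A \ t := by
          ext x
          simp [and_comm]
        rw [e1, Finset.card_sdiff, hA]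
      have c2 : (tᶜ.filter (fun x => x ∉ A)).card = n - 2 * k + 1 + i := by
        have e1 := Finset.card_filter_add_card_filter_not (s := tᶜ) (fun x => x ∈ A)
        rw [c1, Finset.card_compl, Fintype.card_fin] at e1
        have e2 : i ≤ k := by
          rw [← hA]
          exact Finset.card_le_card Finset.inter_subset_right
        omega
      rw [c1, c2]
      have hik : i < k := by
        have e2 : i ≤ t.card := Finset.card_le_card Finset.inter_subset_left
        omega
      exact WV_rec n k i hik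
    rw [h2, Int.cast_zero] at h1
    exact h1
  · beta_reduce
    rw [if_pos hA, Finset.inter_self, hA]
    unfold WV_val
    apply mul_ne_zero
    · apply mul_ne_zero
      · exact pow_ne_zero _ (by norm_num)
      · rw [Finset.prod_ne_zero_iff]
        intro j _
        have : 0 < n - 2 * k + 1 + j := by omega
        exact_mod_cast this.ne'
    · exact_mod_cast (Nat.factorial_pos _).ne'
  · intro p _ hn s hs
    simp only [if_pos hs]
    exact WV_mod n k p h hn _ (by
      rw [← hs]
      exact Finset.card_le_card Finset.inter_subset_left)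

end MARK
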