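import Pool.Agent.MARK.Defs
import Pool.Agent.MARK.SPH
import Pool.Agent.MARK.SYM
import Pool.Agent.MARK.LEV
import Pool.Agent.MARK.WV

namespace MARK

open Equiv
open scoped Pointwise

theorem WS_exists_card (n k : ℕ) (h : k ≤ n) : ∃ A : Finset (Fin n), A.card = k := by
  obtain ⟨A, -, hA⟩ := Finset.exists_subset_card_eq
    (s := (Finset.univ : Finset (Fin n))) (n := k) (by rw [Finset.card_univ, Fintype.card_fin]; exact h)
  exact ⟨A, hA⟩

theorem WS_irr (n k : ℕ) (h : 2 * k ≤ n) : IrrSub (Perm (Fin n)) (VW n k) := by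
  obtain ⟨A, hA⟩ := WS_exists_card n k (by omega)
  refine SPH_main (VW n k) (WV_inv n k) ?_ A (fun f hf hne => WV_tr n k A hA f hf hne) ?_
  · intro hbot
    obtain ⟨v, hv, ⟨s0, -, hs0⟩, -⟩ := WV_vec n k h
    rw [hbot, Submodule.mem_bot] at hv
    have h1 := congrFun hv s0
    simp only [Pi.zero_apply, Int.cast_eq_zero] at h1
    exact hs0 h1
  · intro f hf hfix h0
    funext s
    by_cases hs : s.card = k
    · refine LEV_main n k Finset.univ A (Finset.subset_univ A) hA
        (by rw [Finset.card_univ, Fintype.card_fin]; exact h) f ?_ ?_ h0 s (Finset.subset_univ s) hs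
      · intro t _ ht
        rw [← Finset.compl_eq_univ_sdiff]
        exact hf.2 t ht
      · intro s s' _ _ hs hs' hss
        obtain ⟨σ, hσA, hσs⟩ := SYM_two A s s' (hs.trans hs'.symm) hss
        rw [← hσs, hfix σ hσA s]
    · exact hf.1 s hs

theorem WS_nofix (n k : ℕ) (h1 : 1 ≤ k) (h : 2 * k ≤ n) (f : Finset (Fin n) → ℂ)
    (hf : f ∈ VW n k) (hfix : ∀ (g : Perm (Fin n)) (s : Finset (Fin n)), f (g • s) = f s) :
    f = 0 := by
  funext s
  by_cases hs : s.card = k
  · obtain ⟨t, ht⟩ := WS_exists_card n (k - 1) (by omega)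
    have hsum := hf.2 t (by omega)
    have heq : ∀ x ∈ tᶜ, f (insert x t) = f s := by
      intro x hx
      have hxt : x ∉ t := Finset.mem_compl.mp hx
      obtain ⟨σ, -, hσ⟩ := SYM_two (∅ : Finset (Fin n)) s (insert x t)
        (by rw [Finset.card_insert_of_notMem hxt]; omega) (by simp)
      rw [← hσ, hfix]
    rw [Finset.sum_congr rfl heq, Finset.sum_const, nsmul_eq_mul, mul_eq_zero] at hsum
    rcases hsum with hc | hc
    · exfalso
      have hc' : (tᶜ).card = 0 := by exact_mod_cast hc
      rw [Finset.card_compl, Fintype.card_fin] at hc'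
      omega
    · exact hc
  · exact hf.1 s hs

end MARK
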