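import Pool.Agent.MARK.Defs
import Pool.Agent.MARK.MK
import Pool.Agent.MARK.WV
import Pool.Agent.MARK.WS
import Pool.Agent.MARK.B6

namespace MARK

open Equiv
open scoped Pointwise

theorem S6_u6 : (fun s => ((u6 s : ℤ) : ℂ)) ∈ VW 6 3 := by
  refine ⟨?_, ?_⟩
  · intro s hs
    have key : ∀ s : Finset (Fin 6), s.card ≠ 3 → u6 s = 0 := by decide +kernel
    change ((u6 s : ℤ) : ℂ) = 0
    rw [key s hs]
    simp
  · intro t ht
    have key : ∀ t : Finset (Fin 6), t.card + 1 = 3 → ∑ x ∈ tᶜ, u6 (insert x t) = 0 := by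
      decide +kernel
    have := key t ht
    change ∑ x ∈ tᶜ, ((u6 (insert x t) : ℤ) : ℂ) = 0
    rw [← Int.cast_sum, this]
    simp

theorem S6_nofix (f : Finset (Fin 6) → ℂ) (hf : f ∈ VW 6 3)
    (hfix : ∀ (g : Perm (Fin 6)) s, f (g • s) = (((Perm.sign g : ℤˣ) : ℤ) : ℂ) * f s) :
    f = 0 := by
  classical
  funext s
  by_cases hs : s.card = 3
  · obtain ⟨x, hx, y, hy, hxy⟩ := Finset.one_lt_card.1 (by rw [hs]; norm_num : 1 < s.card)
    have h1 := hfix (swap x y) s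
    have h2 : swap x y • s = s := by
      ext z
      rw [← Finset.inv_smul_mem_iff, swap_inv]
      change swap x y z ∈ s ↔ z ∈ s
      by_cases hzx : z = x
      · rw [hzx, swap_apply_left]; simp [hx, hy]
      by_cases hzy : z = y
      · rw [hzy, swap_apply_right]; simp [hx, hy]
      rw [swap_apply_of_ne_of_ne hzx hzy]
    rw [h2, Perm.sign_swap hxy] at h1
    have h4 : (2 : ℂ) * f s = 0 := by
      simp only [Units.val_neg, Units.val_one, Int.cast_neg, Int.cast_one] at h1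
      linear_combination h1
    simpa using h4
  · exact hf.1 s hs

theorem S6_main : ∃ χ ∈ Irr (Perm (Fin 6)), χ ≠ 1 ∧ ∀ K : Subgroup (Perm (Fin 6)),
    MulAction.IsPretransitive K (Fin 6) → 5 ∣ Nat.card K →
      ¬ alternatingGroup (Fin 6) ≤ K → Marks χ K := by
  obtain ⟨χ, hχ, hχ1, hχm⟩ := MK_main (Perm.sign (α := Fin 6)) (VW 6 3) (WV_inv 6 3)
    (WS_irr 6 3 (by norm_num)) S6_nofix
  refine ⟨χ, hχ, hχ1, fun K ht hd hA => hχm K ?_⟩
  obtain ⟨σ, hσ⟩ := B6_main K ht hd hA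
  refine ⟨fun s => ((u6 (σ • s) : ℤ) : ℂ), ?_, ?_, ?_⟩
  · exact WV_inv 6 3 σ _ S6_u6
  · intro h
    have h1 := congrFun h (σ⁻¹ • ({5, 0, 1} : Finset (Fin 6)))
    change ((u6 (σ • σ⁻¹ • ({5, 0, 1} : Finset (Fin 6))) : ℤ) : ℂ) = 0 at h1
    rw [smul_inv_smul] at h1
    have h2 : u6 ({5, 0, 1} : Finset (Fin 6)) = 1 := by decide
    rw [h2] at h1
    simp at h1
  · intro g hg s
    have h1 := hσ g hg (σ • s)
    have h2 : (σ * g * σ⁻¹) • σ • s = σ • g • s := by
      rw [← mul_smul, inv_mul_cancel_right, mul_smul]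
    rw [h2] at h1
    have h3 : Perm.sign (σ * g * σ⁻¹) = Perm.sign g := by
      rw [map_mul, map_mul, map_inv, mul_comm (Perm.sign σ), mul_assoc, mul_inv_cancel, mul_one]
    rw [h3] at h1
    change ((u6 (σ • g • s) : ℤ) : ℂ) = _
    rw [h1]
    push_cast
    rfl

end MARK
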