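import Pool.Agent.MARK.Defs

namespace MARK

open Equiv
open scoped Pointwise

/-- Words; `true` stands for the function `f` and `false` for the 5-cycle. -/
private def S7A_W : List (List Bool) :=
  [[true],
   [true, true],
   [true, true, true, true],
   [true, false, true, true, false, false, true, false, false, false],
   [true, false, false, true, true, false, true, false, false, false],
   [true, false, true, false, false, true, true, false, false, false, false],
   [true, true, false, true, false, false, true, true, false, false, false],
   [true, true, false, false, true, false, true, true, false, false, false],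
   [true, true, false, false, true, false, true, false, false, false, false],
   [true, false, true, true, false, false, false, true, false, false, false, false],
   [true, false, false, false, true, true, false, true, false, false, false, false]]

private def S7A_ev (f : Fin 7 → Fin 7) : List Bool → Fin 7 → Fin 7
  | [], x => x
  | true :: w, x => f (S7A_ev f w x)
  | false :: w, x => (![1, 2, 3, 4, 0, 5, 6] : Fin 7 → Fin 7) (S7A_ev f w x)

private theorem S7A_dec : ∀ a b c d : Fin 7, [0, 5, 6, a, b, c, d].Nodup →
    ∃ w ∈ S7A_W, (Finset.univ.filter
      (fun x => S7A_ev ![6, a, b, c, d, 0, 5] w x ≠ x)).card = 3 := by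
  decide +kernel

private theorem S7A_prod (h : Perm (Fin 7)) (w : List Bool) (x : Fin 7) :
    (w.map (fun b => if b then h else c7)).prod x = S7A_ev (fun x => h x) w x := by
  induction w generalizing x with
  | nil => rfl
  | cons b w ih =>
    rw [List.map_cons, List.prod_cons, Perm.mul_apply, ih]
    cases b <;> rfl

theorem S7A_main (h : Perm (Fin 7)) (h0 : h 0 = 6) (h5 : h 5 = 0) (h6 : h 6 = 5) :
    ∃ w ∈ Subgroup.closure ({c7, h} : Set (Perm (Fin 7))), w.support.card = 3 := by
  have hf : (fun x => h x) = ![6, h 1, h 2, h 3, h 4, 0, 5] := by
    funext x
    fin_cases x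
    · exact h0
    · rfl
    · rfl
    · rfl
    · rfl
    · exact h5
    · exact h6
  have hnd : [0, 5, 6, h 1, h 2, h 3, h 4].Nodup := by
    have h1 : ([5, 6, 0, 1, 2, 3, 4] : List (Fin 7)).map h = [0, 5, 6, h 1, h 2, h 3, h 4] := by
      simp only [List.map_cons, List.map_nil, h0, h5, h6]
    rw [← h1]
    exact (List.nodup_map_iff h.injective).mpr (by decide)
  obtain ⟨w, -, hcard⟩ := S7A_dec (h 1) (h 2) (h 3) (h 4) hnd
  refine ⟨(w.map (fun b => if b then h else c7)).prod, ?_, ?_⟩
  · apply Subgroup.list_prod_mem
    intro x hx
    obtain ⟨b, -, rfl⟩ := List.mem_map.mp hx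
    cases b
    · exact Subgroup.subset_closure (Or.inl rfl)
    · exact Subgroup.subset_closure (Or.inr rfl)
  · rw [← hcard]
    congr 1
    ext x
    rw [Perm.mem_support, Finset.mem_filter, S7A_prod, hf]
    simp

end MARK
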