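import Pool.Agent.MARK.Defs
import Pool.Agent.MARK.PC
import Pool.Agent.MARK.JPA
import Pool.Agent.MARK.S7A

namespace MARK

open Equiv
open scoped Pointwise

theorem S7_c : c7.IsCycle ∧ c7.support.card = 5 := by
  constructor
  · refine ⟨0, by decide, fun y hy => ?_⟩
    have h : ∀ y : Fin 7, c7 y ≠ y → ∃ i : Fin 5, (c7 ^ (i : ℕ)) 0 = y := by decide +kernel
    obtain ⟨i, hi⟩ := h y hy
    exact ⟨(i : ℕ), by simpa using hi⟩
  · decide +kernel

def S7_e1 : Fin 3 ↪ Fin 7 := ⟨![0, 5, 6], by decide⟩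

def S7_e2 : Fin 3 ↪ Fin 7 := ⟨![6, 0, 5], by decide⟩

theorem S7_main (K : Subgroup (Perm (Fin 7))) (htr : MulAction.IsPretransitive K (Fin 7))
    (hd : 5 ∣ Nat.card K) : alternatingGroup (Fin 7) ≤ K := by
  obtain ⟨g, hg, hc, hs⟩ := PC_cycle 7 5 (by norm_num) (by norm_num) K hd
  have hp := PC_prim 7 5 (by norm_num) (by norm_num) K htr g hg hc hs
  have hm := JPA_mult 7 5 (by norm_num) (by norm_num) (by norm_num) K htr g hg hc hs
  have hconj : IsConj g c7 := (Perm.IsCycle.isConj_iff hc S7_c.1).2 (by rw [hs, S7_c.2])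
  obtain ⟨σ, hσ⟩ := isConj_iff.1 hconj
  have hm3 : MulAction.IsPretransitive K (Fin 3 ↪ Fin 7) := hm
  obtain ⟨⟨k, hk⟩, hx⟩ := hm3.exists_smul_eq (S7_e1.trans (σ⁻¹).toEmbedding)
    (S7_e2.trans (σ⁻¹).toEmbedding)
  have hval : ∀ i : Fin 3, (σ * k * σ⁻¹) (S7_e1 i) = S7_e2 i := by
    intro i
    have h1 := congrArg (fun e : Fin 3 ↪ Fin 7 => e i) hx
    have h2 : k (σ⁻¹ (S7_e1 i)) = σ⁻¹ (S7_e2 i) := h1
    rw [Perm.mul_apply, Perm.mul_apply, h2]
    simp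
  obtain ⟨w, hw, hw3⟩ := S7A_main (σ * k * σ⁻¹) (hval 0) (hval 1) (hval 2)
  have hw' : w ∈ K.map (MulAut.conj σ).toMonoidHom := by
    refine (Subgroup.closure_le _).2 ?_ hw
    rintro x (rfl | rfl)
    · exact ⟨g, hg, hσ⟩
    · exact ⟨k, hk, rfl⟩
  obtain ⟨v, hv, rfl⟩ := hw'
  have h4 : v.support.card = 3 := by
    rw [← hw3]
    change _ = (σ * v * σ⁻¹).support.card
    rw [Perm.card_support_conj]
  exact Perm.alternatingGroup_le_of_isPreprimitive_of_isThreeCycle_mem hp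
    (card_support_eq_three_iff.1 h4) hv

end MARK
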