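import Pool.Agent.MARK.Defs
import Pool.Agent.MARK.MK

namespace MARK

open Equiv
open scoped Pointwise

theorem SG_irr (G : Type) [Group G] [MulAction G PUnit] :
    IrrSub G (⊤ : Submodule ℂ (PUnit → ℂ)) := by
  refine ⟨?_, ?_⟩
  · intro h
    have h1 : (fun _ => 1 : PUnit → ℂ) ∈ (⊥ : Submodule ℂ (PUnit → ℂ)) := by
      rw [← h]; trivial
    rw [Submodule.mem_bot] at h1
    exact one_ne_zero (congrFun h1 PUnit.unit)
  · intro N _ _
    by_cases hN : N = ⊥
    · exact Or.inl hN
    · right
      obtain ⟨f, hf, hf0⟩ := Submodule.exists_mem_ne_zero_of_ne_bot hN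
      have hfu : f PUnit.unit ≠ 0 := by
        intro h
        apply hf0
        funext x
        cases x
        exact h
      rw [Submodule.eq_top_iff']
      intro w
      have : w = (w PUnit.unit / f PUnit.unit) • f := by
        funext x
        cases x
        rw [Pi.smul_apply, smul_eq_mul, div_mul_cancel₀ _ hfu]
      rw [this]
      exact N.smul_mem _ hf

theorem SG_main (n : ℕ) (h : 2 ≤ n) :
    ∃ χ ∈ Irr (Perm (Fin n)), χ ≠ 1 ∧ ∀ K : Subgroup (Perm (Fin n)),
      K ≤ alternatingGroup (Fin n) → Marks χ K := by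
  obtain ⟨χ, hχ, hne, hK⟩ := MK_main (G := Perm (Fin n)) (X := PUnit) Perm.sign
    (⊤ : Submodule ℂ (PUnit → ℂ)) (fun _ _ _ => trivial) (SG_irr _) (by
      intro f _ hfix
      funext x
      have h01 : (⟨0, by omega⟩ : Fin n) ≠ ⟨1, by omega⟩ := by
        intro h
        have := congrArg Fin.val h
        simp at this
      have h1 := hfix (swap (⟨0, by omega⟩ : Fin n) ⟨1, by omega⟩) x
      rw [Perm.sign_swap h01] at h1
      have h2 : f ((swap (⟨0, by omega⟩ : Fin n) ⟨1, by omega⟩) • x) = f x := by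
        cases x; rfl
      rw [h2] at h1
      simp only [Units.val_neg, Units.val_one, Int.cast_neg, Int.cast_one, neg_mul,
        one_mul] at h1
      rw [Pi.zero_apply]
      exact self_eq_neg.mp h1)
  refine ⟨χ, hχ, hne, fun K hle => hK K ⟨fun _ => 1, trivial, ?_, ?_⟩⟩
  · intro h
    exact one_ne_zero (congrFun h PUnit.unit)
  · intro g hg x
    rw [Perm.mem_alternatingGroup.mp (hle hg)]
    simp

end MARK
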