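import Pool.Agent.MARK.Defs
import Pool.Agent.MARK.MK
import Pool.Agent.MARK.WV
import Pool.Agent.MARK.WS

namespace MARK

open Equiv
open scoped Pointwise

theorem W1_main (n : ℕ) (h : 2 ≤ n) :
    ∃ χ ∈ Irr (Perm (Fin n)), χ ≠ 1 ∧ ∀ K : Subgroup (Perm (Fin n)),
      ¬ MulAction.IsPretransitive K (Fin n) → Marks χ K := by
  classical
  obtain ⟨χ, hχ, hne, hK⟩ := MK_main (1 : Perm (Fin n) →* ℤˣ) (VW n 1) (WV_inv n 1)
    (WS_irr n 1 (by omega)) (by
      intro f hf hfix
      refine WS_nofix n 1 le_rfl (by omega) f hf (fun g s => ?_)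
      rw [hfix g s]
      simp)
  refine ⟨χ, hχ, hne, fun K hcard => hK K ?_⟩
  have h1 : ∃ a b : Fin n, ∀ g : K, g • a ≠ b := by
    by_contra hcon
    push Not at hcon
    exact hcard ⟨hcon⟩
  obtain ⟨a, b, hab⟩ := h1
  set O : Finset (Fin n) := Finset.univ.filter (fun x => ∃ g : K, g • a = x) with hO
  have hmem : ∀ x, x ∈ O ↔ ∃ g : K, g • a = x := by
    intro x
    rw [hO, Finset.mem_filter]
    simp
  have haO : a ∈ O := (hmem a).mpr ⟨1, one_smul _ _⟩
  have hbO : b ∉ O := fun hb => by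
    obtain ⟨g, hg⟩ := (hmem b).mp hb
    exact hab g hg
  have hinv : ∀ g ∈ K, ∀ x, g • x ∈ O ↔ x ∈ O := by
    intro g hg x
    rw [hmem, hmem]
    constructor
    · rintro ⟨k, hk⟩
      refine ⟨(⟨g, hg⟩ : K)⁻¹ * k, ?_⟩
      rw [mul_smul, hk, inv_smul_eq_iff]
      rfl
    · rintro ⟨k, hk⟩
      refine ⟨(⟨g, hg⟩ : K) * k, ?_⟩
      rw [mul_smul, hk]
      rfl
  set f : Finset (Fin n) → ℂ := fun s =>
    if s.card = 1 then ((n : ℂ) * (if ∃ x ∈ s, x ∈ O then 1 else 0) - O.card) else 0 with hf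
  have hf1 : ∀ x : Fin n, f {x} = (n : ℂ) * (if x ∈ O then 1 else 0) - O.card := by
    intro x
    rw [hf]
    simp
  refine ⟨f, ⟨?_, ?_⟩, ?_, ?_⟩
  · intro s hs
    rw [hf]
    simp only [if_neg hs]
  · intro t ht
    have ht0 : t = ∅ := Finset.card_eq_zero.mp (by omega)
    subst ht0
    rw [Finset.compl_empty]
    have : ∀ x ∈ (Finset.univ : Finset (Fin n)), f (insert x ∅) =
        (n : ℂ) * (if x ∈ O then 1 else 0) - O.card := by
      intro x _
      exact hf1 x
    rw [Finset.sum_congr rfl this, Finset.sum_sub_distrib, ← Finset.mul_sum, Finset.sum_boole,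
      Finset.sum_const, Finset.card_univ, Fintype.card_fin, nsmul_eq_mul]
    have : (Finset.univ.filter (fun x => x ∈ O)) = O := by
      ext x; simp
    rw [this]
    ring
  · intro h0
    have h2 := congrFun h0 {a}
    rw [hf1 a, if_pos haO, Pi.zero_apply, mul_one, sub_eq_zero] at h2
    have h3 : n = O.card := by exact_mod_cast h2
    have h4 : O = Finset.univ := by
      rw [← Finset.card_eq_iff_eq_univ, Fintype.card_fin]
      exact h3.symm
    exact hbO (h4 ▸ Finset.mem_univ b)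
  · intro g hg s
    have hex : (∃ x ∈ g • s, x ∈ O) ↔ (∃ x ∈ s, x ∈ O) := by
      constructor
      · rintro ⟨x, hx, hxO⟩
        obtain ⟨y, hy, rfl⟩ := Finset.mem_smul_finset.mp hx
        exact ⟨y, hy, (hinv g hg y).mp hxO⟩
      · rintro ⟨x, hx, hxO⟩
        exact ⟨g • x, Finset.smul_mem_smul_finset hx, (hinv g hg x).mpr hxO⟩
    rw [hf]
    simp only [Finset.card_smul_finset, hex]
    simp

end MARK
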