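import Pool.Agent.MARK.Defs
import Pool.Agent.MARK.MK
import Pool.Agent.MARK.AVG
import Pool.Agent.MARK.WV
import Pool.Agent.MARK.WS

namespace MARK

open Equiv
open scoped Pointwise

theorem WM_main (n k p : ℕ) (hp : p.Prime) (h1 : n + 1 = p + k) (h2 : 2 * k ≤ n)
    (h3 : 1 ≤ k) :
    ∃ χ ∈ Irr (Perm (Fin n)), χ ≠ 1 ∧ ∀ K : Subgroup (Perm (Fin n)),
      ¬ p ∣ Nat.card K → Marks χ K := by
  obtain ⟨χ, hχ, hne, hK⟩ := MK_main (1 : Perm (Fin n) →* ℤˣ) (VW n k) (WV_inv n k)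
    (WS_irr n k h2) (by
      intro f hf hfix
      refine WS_nofix n k h3 h2 f hf (fun g s => ?_)
      rw [hfix g s]
      simp)
  refine ⟨χ, hχ, hne, fun K hcard => hK K ?_⟩
  obtain ⟨v, hv, -, hmod⟩ := WV_vec n k h2
  obtain ⟨A, hA⟩ := WS_exists_card n k (by omega)
  obtain ⟨f, hf, hf0, hfK⟩ := AVG_main (VW n k) (WV_inv n k) v hv p hp (k.factorial : ℤ)
    (by
      rw [Int.natCast_dvd_natCast, hp.dvd_factorial]
      omega) A
    (fun g => hmod p hp h1 (g • A) (by rw [Finset.card_smul_finset]; exact hA)) K hcard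
  refine ⟨f, hf, hf0, fun g hg x => ?_⟩
  rw [hfK g hg x]
  simp

end MARK
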