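import Pool.Agent.MARK.Defs
import Pool.Agent.MARK.SYM

namespace MARK

open Equiv
open scoped Pointwise

theorem YI_inv (m : ℕ) : InvSub (Perm (Fin (2 * m + 1))) (VY m) := by
  intro g f hf
  obtain ⟨h1, h2, h3⟩ := hf
  refine ⟨?_, ?_, ?_⟩
  · intro x s hs
    change f (g • x, g • s) = 0
    apply h1
    rcases hs with hs | hs
    · left; rw [Finset.card_smul_finset]; exact hs
    · right; exact Finset.smul_mem_smul_finset hs
  · intro x t hx ht
    change ∑ y ∈ (insert x t)ᶜ, f (g • x, g • insert y t) = 0
    have hx' : g • x ∉ g • t := by rwa [Finset.smul_mem_smul_finset_iff]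
    have ht' : (g • t).card + 1 = m := by rw [Finset.card_smul_finset]; exact ht
    rw [← h2 (g • x) (g • t) hx' ht']
    refine Finset.sum_equiv g ?_ ?_
    · intro y
      rw [Finset.mem_compl, Finset.mem_compl, ← Finset.smul_finset_insert]
      change _ ↔ g • y ∉ _
      rw [Finset.smul_mem_smul_finset_iff]
    · intro y _
      rw [Finset.smul_finset_insert]
      rfl
  · intro s hs
    change ∑ x ∈ sᶜ, f (g • x, g • s) = 0
    have hs' : (g • s).card = m := by rw [Finset.card_smul_finset]; exact hs
    rw [← h3 (g • s) hs']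
    refine Finset.sum_equiv g ?_ ?_
    · intro y
      rw [Finset.mem_compl, Finset.mem_compl]
      change _ ↔ g • y ∉ _
      rw [Finset.smul_mem_smul_finset_iff]
    · intro y _
      rfl

theorem YI_tr (m : ℕ) (a : Fin (2 * m + 1)) (A : Finset (Fin (2 * m + 1))) (hA : A.card = m)
    (ha : a ∉ A) (f : Fin (2 * m + 1) × Finset (Fin (2 * m + 1)) → ℂ) (hf : f ∈ VY m)
    (hne : f ≠ 0) : ∃ g : Perm (Fin (2 * m + 1)), f (g • (a, A)) ≠ 0 := by
  obtain ⟨⟨x, s⟩, hxs⟩ := Function.ne_iff.1 hne
  have hxs' : f (x, s) ≠ 0 := hxs
  have hs : s.card = m := by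
    by_contra h
    exact hxs' (hf.1 x s (Or.inl h))
  have hx : x ∉ s := by
    intro h
    exact hxs' (hf.1 x s (Or.inr h))
  have key : ∀ (b : Fin (2 * m + 1)) (B : Finset (Fin (2 * m + 1))), b ∉ B → B.card = m →
      ∀ k : Fin 3, (Finset.univ.filter
        (fun y => (if y = b then (0 : Fin 3) else if y ∈ B then 1 else 2) = k)).card =
        if k = 0 then 1 else m := by
    intro b B hb hB k
    have e0 : Finset.univ.filter
        (fun y => (if y = b then (0 : Fin 3) else if y ∈ B then 1 else 2) = 0) = {b} := by
      ext y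
      simp only [Finset.mem_filter, Finset.mem_univ, true_and, Finset.mem_singleton]
      by_cases h1 : y = b
      · simp [h1]
      · by_cases h2 : y ∈ B <;> simp [h1, h2]
    have e1 : Finset.univ.filter
        (fun y => (if y = b then (0 : Fin 3) else if y ∈ B then 1 else 2) = 1) = B := by
      ext y
      simp only [Finset.mem_filter, Finset.mem_univ, true_and]
      by_cases h1 : y = b
      · subst h1; simp [hb]
      · by_cases h2 : y ∈ B <;> simp [h1, h2]
    have e2 : Finset.univ.filter
        (fun y => (if y = b then (0 : Fin 3) else if y ∈ B then 1 else 2) = 2) = (insert b B)ᶜ := by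
      ext y
      simp only [Finset.mem_filter, Finset.mem_univ, true_and, Finset.mem_compl, Finset.mem_insert]
      by_cases h1 : y = b
      · simp [h1]
      · by_cases h2 : y ∈ B <;> simp [h1, h2]
    fin_cases k
    · change (Finset.univ.filter
        (fun y => (if y = b then (0 : Fin 3) else if y ∈ B then 1 else 2) = 0)).card = 1
      rw [e0]; simp
    · change (Finset.univ.filter
        (fun y => (if y = b then (0 : Fin 3) else if y ∈ B then 1 else 2) = 1)).card = m
      rw [e1]; exact hB
    · change (Finset.univ.filter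
        (fun y => (if y = b then (0 : Fin 3) else if y ∈ B then 1 else 2) = 2)).card = m
      rw [e2, Finset.card_compl, Finset.card_insert_of_notMem hb, hB, Fintype.card_fin]
      omega
  obtain ⟨σ, hσ⟩ := SYM_main
    (fun y => if y = a then (0 : Fin 3) else if y ∈ A then 1 else 2)
    (fun y => if y = x then (0 : Fin 3) else if y ∈ s then 1 else 2)
    (fun k => by rw [key a A ha hA k, key x s hx hs k])
  refine ⟨σ, ?_⟩
  have h1 : σ • a = x := by
    have h := hσ a
    simp only [if_true] at h
    by_contra hne'
    change ¬ (σ a = x) at hne'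
    rw [if_neg hne'] at h
    by_cases h2 : σ a ∈ s
    · rw [if_pos h2] at h; exact absurd h (by decide)
    · rw [if_neg h2] at h; exact absurd h (by decide)
  have h2 : σ • A = s := by
    apply Finset.eq_of_subset_of_card_le
    · intro y hy
      obtain ⟨z, hz, rfl⟩ := Finset.mem_smul_finset.1 hy
      have h := hσ z
      have hza : z ≠ a := by rintro rfl; exact ha hz
      simp only [if_neg hza, if_pos hz] at h
      by_contra hne'
      change ¬ (σ z ∈ s) at hne'
      by_cases h3 : σ z = x
      · rw [if_pos h3] at h; exact absurd h (by decide)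
      · rw [if_neg h3, if_neg hne'] at h; exact absurd h (by decide)
    · rw [Finset.card_smul_finset, hs, hA]
  change f (σ • a, σ • A) ≠ 0
  rw [h1, h2]
  exact hxs'

end MARK
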