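import Pool.Agent.MARK.Defs
import Pool.Agent.MARK.LEV

namespace MARK

open Equiv
open scoped Pointwise

theorem LEW_sum {n : ℕ} (Ω A : Finset (Fin n)) (a : Fin n) (hA : A ⊆ Ω)
    (haA : a ∉ A) (t : Finset (Fin n)) (F : Fin n → ℂ) :
    ∑ y ∈ (Ω.erase a) \ t, F y = ∑ y ∈ A \ t, F y + ∑ y ∈ ((Ω.erase a) \ A) \ t, F y := by
  rw [← Finset.sum_union]
  · apply Finset.sum_congr _ (fun _ _ => rfl)
    ext x
    simp only [Finset.mem_sdiff, Finset.mem_union, Finset.mem_erase]
    constructor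
    · rintro ⟨⟨h0, h1⟩, h2⟩
      by_cases hx : x ∈ A
      · exact Or.inl ⟨hx, h2⟩
      · exact Or.inr ⟨⟨⟨h0, h1⟩, hx⟩, h2⟩
    · rintro (⟨h1, h2⟩ | ⟨⟨h1, _⟩, h2⟩)
      · refine ⟨⟨?_, hA h1⟩, h2⟩
        rintro rfl
        exact haA h1
      · exact ⟨h1, h2⟩
  · rw [Finset.disjoint_left]
    intro x hx hx'
    simp only [Finset.mem_sdiff] at hx hx'
    exact hx'.1.2 hx.1

theorem LEW_main (n m : ℕ) (hm : 1 ≤ m) (Ω A : Finset (Fin n)) (a : Fin n) (hA : A ⊆ Ω)
    (haΩ : a ∈ Ω) (haA : a ∉ A) (hAk : A.card + 1 = m) (hΩ : Ω.card = 2 * m)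
    (f : Finset (Fin n) → ℂ)
    (hf : ∀ t : Finset (Fin n), t ⊆ Ω → t.card + 1 = m → ∑ y ∈ Ω \ t, f (insert y t) = 0)
    (hdep : ∀ s s' : Finset (Fin n), s ⊆ Ω → s' ⊆ Ω → s.card = m → s'.card = m →
      (a ∈ s ↔ a ∈ s') → (s ∩ A).card = (s' ∩ A).card → f s = f s')
    (h0 : f ((Ω \ A).erase a) = 0) (s : Finset (Fin n)) (hs : s ⊆ Ω) (hsk : s.card = m) :
    f s = 0 := by
  classical
  obtain ⟨Ω', hΩ'⟩ : ∃ Ω', Ω' = Ω.erase a := ⟨_, rfl⟩
  have hΩ'c : Ω'.card + 1 = 2 * m := by
    rw [hΩ', Finset.card_erase_of_mem haΩ, hΩ]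
    omega
  have hAΩ' : A ⊆ Ω' := by
    intro x hx
    rw [hΩ', Finset.mem_erase]
    refine ⟨?_, hA hx⟩
    rintro rfl
    exact haA hx
  have haΩ' : a ∉ Ω' := by rw [hΩ']; simp
  have hΩ'Ω : Ω' ⊆ Ω := by rw [hΩ']; exact Finset.erase_subset _ _
  have hB : (Ω' \ A).card = m := by
    rw [Finset.card_sdiff_of_subset hAΩ']
    omega
  -- representatives
  have hrep : ∀ (e : Prop) [Decidable e], ∃ g : ℕ → ℂ, ∀ s : Finset (Fin n), s ⊆ Ω → s.card = m →
      (a ∈ s ↔ e) → f s = g (s ∩ A).card := by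
    intro e _
    refine ⟨fun i => if h : ∃ s : Finset (Fin n), s ⊆ Ω ∧ s.card = m ∧ (a ∈ s ↔ e) ∧
      (s ∩ A).card = i then f h.choose else 0, fun s hs hsk hse => ?_⟩
    have h : ∃ s' : Finset (Fin n), s' ⊆ Ω ∧ s'.card = m ∧ (a ∈ s' ↔ e) ∧
      (s' ∩ A).card = (s ∩ A).card := ⟨s, hs, hsk, hse, rfl⟩
    beta_reduce
    rw [dif_pos h]
    exact hdep _ _ hs h.choose_spec.1 hsk h.choose_spec.2.1
      (hse.trans h.choose_spec.2.2.1.symm) h.choose_spec.2.2.2.symm
  obtain ⟨g1, hg1⟩ := hrep True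
  obtain ⟨g0, hg0⟩ := hrep False
  simp only [iff_true] at hg1
  simp only [iff_false] at hg0
  -- value at B
  have hg00 : g0 0 = 0 := by
    have hBeq : (Ω \ A).erase a = Ω' \ A := by
      rw [hΩ']
      ext x
      simp only [Finset.mem_sdiff, Finset.mem_erase]
      tauto
    rw [hBeq] at h0
    have h1 := hg0 (Ω' \ A) (Finset.sdiff_subset.trans hΩ'Ω) hB
      (fun h => haΩ' (Finset.mem_sdiff.1 h).1)
    have h2 : (Ω' \ A) ∩ A = ∅ := by
      ext x
      simp
    rw [h2, Finset.card_empty, h0] at h1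
    exact h1.symm
  -- equations of the first kind
  have hE1 : ∀ i, i + 1 ≤ m →
      g1 i + ((m : ℂ) - 1 - i) * g0 (i + 1) + ((i : ℂ) + 1) * g0 i = 0 := by
    intro i hi
    obtain ⟨t, htΩ, htc, htA⟩ := LEV_choose Ω' A hAΩ' i (m - 1 - i) (by omega) (by omega)
    have htk : t.card + 1 = m := by omega
    have hta : a ∉ t := fun h => haΩ' (htΩ h)
    have hsum := hf t (htΩ.trans hΩ'Ω) htk
    have hsplit : Ω \ t = insert a (Ω' \ t) := by
      rw [hΩ']
      ext x
      simp only [Finset.mem_sdiff, Finset.mem_insert, Finset.mem_erase]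
      constructor
      · rintro ⟨h1, h2⟩
        by_cases hx : x = a
        · exact Or.inl hx
        · exact Or.inr ⟨⟨hx, h1⟩, h2⟩
      · rintro (h1 | ⟨⟨_, h1⟩, h2⟩)
        · rw [h1]; exact ⟨haΩ, hta⟩
        · exact ⟨h1, h2⟩
    have hna : a ∉ Ω' \ t := fun h => haΩ' (Finset.mem_sdiff.1 h).1
    rw [hsplit, Finset.sum_insert hna, hΩ', LEW_sum Ω A a hA haA t, ← hΩ'] at hsum
    have hc : ∀ y ∈ Ω, y ∉ t → insert y t ⊆ Ω ∧ (insert y t).card = m := by
      intro y hy hyt
      refine ⟨?_, ?_⟩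
      · intro x hx
        rcases Finset.mem_insert.1 hx with hx | hx
        · rw [hx]; exact hy
        · exact hΩ'Ω (htΩ hx)
      · rw [Finset.card_insert_of_notMem hyt]; exact htk
    have h1 : f (insert a t) = g1 i := by
      rw [hg1 _ (hc a haΩ hta).1 (hc a haΩ hta).2 (Finset.mem_insert_self _ _),
        Finset.insert_inter_of_notMem haA, htA]
    have h2 : ∀ y ∈ A \ t, f (insert y t) = g0 (i + 1) := by
      intro y hy
      rw [Finset.mem_sdiff] at hy
      have hya : y ≠ a := by rintro rfl; exact haA hy.1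
      rw [hg0 _ (hc y (hA hy.1) hy.2).1 (hc y (hA hy.1) hy.2).2,
        Finset.insert_inter_of_mem hy.1, Finset.card_insert_of_notMem, htA]
      · intro h
        exact hy.2 (Finset.mem_inter.1 h).1
      · rw [Finset.mem_insert]
        rintro (h | h)
        · exact hya h.symm
        · exact hta h
    have h3 : ∀ y ∈ (Ω' \ A) \ t, f (insert y t) = g0 i := by
      intro y hy
      simp only [Finset.mem_sdiff] at hy
      have hya : y ≠ a := by rintro rfl; exact haΩ' hy.1.1
      rw [hg0 _ (hc y (hΩ'Ω hy.1.1) hy.2).1 (hc y (hΩ'Ω hy.1.1) hy.2).2,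
        Finset.insert_inter_of_notMem hy.1.2, htA]
      rw [Finset.mem_insert]
      rintro (h | h)
      · exact hya h.symm
      · exact hta h
    have hcA : ((A \ t).card : ℂ) = (m : ℂ) - 1 - i := by
      have h4 := Finset.card_sdiff_add_card_inter A t
      rw [Finset.inter_comm, htA] at h4
      have h5 : (A \ t).card + i + 1 = m := by omega
      have h6 : (((A \ t).card + i + 1 : ℕ) : ℂ) = (m : ℂ) := by rw [h5]
      push_cast at h6
      linear_combination h6
    have hcB : (((Ω' \ A) \ t).card : ℂ) = (i : ℂ) + 1 := by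
      have h4 := Finset.card_sdiff_add_card_inter (Ω' \ A) t
      have h5 : (Ω' \ A) ∩ t = t \ A := by
        ext x
        simp only [Finset.mem_inter, Finset.mem_sdiff]
        constructor
        · rintro ⟨⟨_, h6⟩, h7⟩; exact ⟨h7, h6⟩
        · rintro ⟨h6, h7⟩; exact ⟨⟨htΩ h6, h7⟩, h6⟩
      have h6 := Finset.card_sdiff_add_card_inter t A
      rw [h5] at h4
      have h7 : ((Ω' \ A) \ t).card = i + 1 := by omega
      rw [h7]
      push_cast
      ring
    rw [h1, Finset.sum_congr rfl h2, Finset.sum_congr rfl h3, Finset.sum_const, Finset.sum_const,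
      nsmul_eq_mul, nsmul_eq_mul, hcA, hcB] at hsum
    linear_combination hsum
  -- equations of the second kind
  have hE2 : ∀ i, i + 2 ≤ m →
      ((m : ℂ) - 1 - i) * g1 (i + 1) + ((i : ℂ) + 2) * g1 i = 0 := by
    intro i hi
    obtain ⟨t', htΩ, htc, htA⟩ := LEV_choose Ω' A hAΩ' i (m - 2 - i) (by omega) (by omega)
    have hta' : a ∉ t' := fun h => haΩ' (htΩ h)
    obtain ⟨t, ht⟩ : ∃ t, t = insert a t' := ⟨_, rfl⟩
    have hta : a ∈ t := by rw [ht]; exact Finset.mem_insert_self _ _
    have htk : t.card + 1 = m := by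
      rw [ht, Finset.card_insert_of_notMem hta']
      omega
    have htΩ2 : t ⊆ Ω := by
      rw [ht]
      intro x hx
      rcases Finset.mem_insert.1 hx with hx | hx
      · rw [hx]; exact haΩ
      · exact hΩ'Ω (htΩ hx)
    have htA2 : (t ∩ A).card = i := by
      rw [ht, Finset.insert_inter_of_notMem haA, htA]
    have hsum := hf t htΩ2 htk
    have hsplit : Ω \ t = Ω.erase a \ t := by
      ext x
      simp only [Finset.mem_sdiff, Finset.mem_erase]
      constructor
      · rintro ⟨h1, h2⟩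
        refine ⟨⟨?_, h1⟩, h2⟩
        rintro rfl
        exact h2 hta
      · rintro ⟨⟨_, h1⟩, h2⟩
        exact ⟨h1, h2⟩
    rw [hsplit, LEW_sum Ω A a hA haA t, ← hΩ'] at hsum
    have hc : ∀ y ∈ Ω, y ∉ t → insert y t ⊆ Ω ∧ (insert y t).card = m := by
      intro y hy hyt
      refine ⟨?_, ?_⟩
      · intro x hx
        rcases Finset.mem_insert.1 hx with hx | hx
        · rw [hx]; exact hy
        · exact htΩ2 hx
      · rw [Finset.card_insert_of_notMem hyt]; exact htk
    have h2 : ∀ y ∈ A \ t, f (insert y t) = g1 (i + 1) := by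
      intro y hy
      rw [Finset.mem_sdiff] at hy
      rw [hg1 _ (hc y (hA hy.1) hy.2).1 (hc y (hA hy.1) hy.2).2
        (Finset.mem_insert_of_mem hta),
        Finset.insert_inter_of_mem hy.1, Finset.card_insert_of_notMem, htA2]
      intro h
      exact hy.2 (Finset.mem_inter.1 h).1
    have h3 : ∀ y ∈ (Ω' \ A) \ t, f (insert y t) = g1 i := by
      intro y hy
      simp only [Finset.mem_sdiff] at hy
      rw [hg1 _ (hc y (hΩ'Ω hy.1.1) hy.2).1 (hc y (hΩ'Ω hy.1.1) hy.2).2
        (Finset.mem_insert_of_mem hta),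
        Finset.insert_inter_of_notMem hy.1.2, htA2]
    have hcA : ((A \ t).card : ℂ) = (m : ℂ) - 1 - i := by
      have h4 := Finset.card_sdiff_add_card_inter A t
      rw [Finset.inter_comm, htA2] at h4
      have h5 : (A \ t).card + i + 1 = m := by omega
      have h6 : (((A \ t).card + i + 1 : ℕ) : ℂ) = (m : ℂ) := by rw [h5]
      push_cast at h6
      linear_combination h6
    have hcB : (((Ω' \ A) \ t).card : ℂ) = (i : ℂ) + 2 := by
      have h4 := Finset.card_sdiff_add_card_inter (Ω' \ A) t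
      have h5 : (Ω' \ A) ∩ t = t' \ A := by
        rw [ht]
        ext x
        simp only [Finset.mem_inter, Finset.mem_sdiff, Finset.mem_insert]
        constructor
        · rintro ⟨⟨h5, h6⟩, h7 | h7⟩
          · rw [h7] at h5
            exact absurd h5 haΩ'
          · exact ⟨h7, h6⟩
        · rintro ⟨h6, h7⟩; exact ⟨⟨htΩ h6, h7⟩, Or.inr h6⟩
      have h6 := Finset.card_sdiff_add_card_inter t' A
      rw [h5] at h4
      have h7 : ((Ω' \ A) \ t).card = i + 2 := by omega
      rw [h7]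
      push_cast
      ring
    rw [Finset.sum_congr rfl h2, Finset.sum_congr rfl h3, Finset.sum_const, Finset.sum_const,
      nsmul_eq_mul, nsmul_eq_mul, hcA, hcB] at hsum
    linear_combination hsum
  -- the invariant
  have hinv : ∀ i, i + 1 ≤ m → ((i : ℂ) + 1) * g0 i = (i : ℂ) * g1 i := by
    intro i
    induction i with
    | zero =>
      intro _
      rw [hg00]
      simp
    | succ i ih =>
      intro hi
      have h1 := ih (by omega)
      have h2 := hE1 i (by omega)
      have h3 := hE2 i (by omega)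
      have hne : ((m : ℂ) - 1 - i) ≠ 0 := by
        intro h
        have h4 : (m : ℂ) = ((i + 1 : ℕ) : ℂ) := by push_cast; linear_combination h
        have h5 : m = i + 1 := by exact_mod_cast h4
        omega
      apply mul_left_cancel₀ hne
      push_cast
      linear_combination ((i : ℂ) + 2) * h2 - ((i : ℂ) + 1) * h3 - ((i : ℂ) + 2) * h1
  have hlast : g1 (m - 1) = 0 := by
    have h1 := hE1 (m - 1) (by omega)
    have h2 := hinv (m - 1) (by omega)
    have h3 : ((m - 1 : ℕ) : ℂ) = (m : ℂ) - 1 := by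
      rw [Nat.cast_sub hm]; simp
    rw [h3] at h1 h2
    have hm0 : (m : ℂ) ≠ 0 := by
      have : m ≠ 0 := by omega
      exact_mod_cast this
    apply mul_left_cancel₀ hm0
    linear_combination h1 - h2
  have hall1 : ∀ d, d + 1 ≤ m → g1 (m - 1 - d) = 0 := by
    intro d
    induction d with
    | zero =>
      intro _
      simpa using hlast
    | succ d ih =>
      intro hd
      have h1 := ih (by omega)
      have h2 := hE2 (m - 1 - (d + 1)) (by omega)
      have h3 : m - 1 - (d + 1) + 1 = m - 1 - d := by omega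
      rw [h3, h1, mul_zero, zero_add] at h2
      rcases mul_eq_zero.1 h2 with h4 | h4
      · exfalso
        have h5 : ((m - 1 - (d + 1) + 2 : ℕ) : ℂ) = 0 := by
          push_cast
          exact h4
        have h6 : m - 1 - (d + 1) + 2 = 0 := by exact_mod_cast h5
        omega
      · exact h4
  have hall1' : ∀ i, i + 1 ≤ m → g1 i = 0 := by
    intro i hi
    have h1 := hall1 (m - 1 - i) (by omega)
    have h2 : m - 1 - (m - 1 - i) = i := by omega
    rwa [h2] at h1
  have hall0 : ∀ i, i + 1 ≤ m → g0 i = 0 := by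
    intro i hi
    have h1 := hinv i hi
    rw [hall1' i hi, mul_zero] at h1
    rcases mul_eq_zero.1 h1 with h4 | h4
    · exfalso
      have h5 : ((i + 1 : ℕ) : ℂ) = 0 := by
        push_cast
        exact h4
      have h6 : i + 1 = 0 := by exact_mod_cast h5
      omega
    · exact h4
  have hle : (s ∩ A).card + 1 ≤ m := by
    have := Finset.card_le_card (Finset.inter_subset_right : s ∩ A ⊆ A)
    omega
  by_cases has : a ∈ s
  · rw [hg1 s hs hsk has]
    exact hall1' _ hle
  · rw [hg0 s hs hsk has]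
    exact hall0 _ hle

end MARK
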