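import Pool.Agent.MARK.Defs
import Pool.Agent.MARK.SYM
import Pool.Agent.MARK.LEV
import Pool.Agent.MARK.LEW

namespace MARK

open Equiv
open scoped Pointwise

theorem YS_compl {m : ℕ} (x : Fin (2 * m + 1)) (t : Finset (Fin (2 * m + 1))) :
    (Finset.univ.erase x) \ t = (insert x t)ᶜ := by
  ext y
  simp only [Finset.mem_sdiff, Finset.mem_erase, Finset.mem_univ, and_true, Finset.mem_compl,
    Finset.mem_insert]
  tauto

theorem YS_step (m : ℕ) (hm : 1 ≤ m) (a : Fin (2 * m + 1)) (A B : Finset (Fin (2 * m + 1)))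
    (hA : A.card = m) (ha : a ∉ A) (hAB : ∀ x, (x ∈ B ↔ x ≠ a ∧ x ∉ A))
    (f : Fin (2 * m + 1) × Finset (Fin (2 * m + 1)) → ℂ) (hf : f ∈ VY m)
    (hinv : ∀ σ : Perm (Fin (2 * m + 1)), σ a = a → σ • A = A → σ • B = B →
      ∀ x s, f (σ x, σ • s) = f (x, s))
    (h0 : f (a, B) = 0) (x : Fin (2 * m + 1)) (hx : x ∈ A) (s : Finset (Fin (2 * m + 1))) :
    f (x, s) = 0 := by
  obtain ⟨hf1, hf2, hf3⟩ := hf
  have hB : B.card = m := by
    have h1 : B = (insert a A)ᶜ := by
      ext y
      rw [hAB y]
      simp only [Finset.mem_compl, Finset.mem_insert]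
      tauto
    rw [h1, Finset.card_compl, Finset.card_insert_of_notMem ha, Fintype.card_fin, hA]
    omega
  have hσB : ∀ σ : Perm (Fin (2 * m + 1)), σ a = a → σ • A = A → σ • B = B := by
    intro σ h1 h2
    ext y
    rw [← Finset.inv_smul_mem_iff, Perm.smul_def, hAB, hAB]
    have h3 : σ⁻¹ y ∈ A ↔ y ∈ A := by
      conv_rhs => rw [← h2]
      rw [← Finset.inv_smul_mem_iff, Perm.smul_def]
    have h4 : σ⁻¹ y = a ↔ y = a := by
      rw [Perm.inv_eq_iff_eq, h1]
    rw [h3, Ne, h4]
  have hinv' : ∀ σ : Perm (Fin (2 * m + 1)), σ a = a → σ • A = A →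
      ∀ x s, f (σ x, σ • s) = f (x, s) := fun σ h1 h2 => hinv σ h1 h2 (hσB σ h1 h2)
  -- the values at B
  have hxB : f (x, B) = 0 := by
    have hBc : Bᶜ = insert a A := by
      ext y
      simp only [Finset.mem_compl, Finset.mem_insert, hAB y]
      tauto
    have h1 := hf3 B hB
    rw [hBc, Finset.sum_insert ha, h0, zero_add] at h1
    have h2 : ∀ y ∈ A, f (y, B) = f (x, B) := by
      intro y hy
      obtain ⟨σ, h3, h4, h5⟩ := SYM_three a A {x} {y} ha (by simp) (by
        simp only [Finset.mem_singleton]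
        constructor
        · rintro rfl; exact absurd hx ha
        · rintro rfl; exact absurd hy ha) (by
        rw [Finset.singleton_inter_of_mem hx, Finset.singleton_inter_of_mem hy]
        simp)
      have h6 := hinv' σ h3 h4 x B
      have h7 : σ x = y := by
        have h8 : σ • x ∈ σ • ({x} : Finset (Fin (2 * m + 1))) :=
          Finset.smul_mem_smul_finset (Finset.mem_singleton_self x)
        rw [h5, Finset.mem_singleton] at h8
        exact h8
      rw [h7, hσB σ h3 h4] at h6
      exact h6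
    rw [Finset.sum_congr rfl h2, Finset.sum_const, nsmul_eq_mul, hA] at h1
    rcases mul_eq_zero.1 h1 with h3 | h3
    · exfalso
      have h4 : m = 0 := by exact_mod_cast h3
      omega
    · exact h3
  by_cases hs : s.card = m ∧ x ∉ s
  · obtain ⟨hs1, hs2⟩ := hs
    have hax : a ≠ x := by rintro rfl; exact ha hx
    refine LEW_main (2 * m + 1) m hm (Finset.univ.erase x) (A.erase x) a
      (Finset.erase_subset_erase x (Finset.subset_univ A))
      (Finset.mem_erase.2 ⟨hax, Finset.mem_univ _⟩)
      (fun h => ha (Finset.mem_of_mem_erase h)) ?_ ?_ (fun s => f (x, s)) ?_ ?_ ?_ s ?_ hs1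
    · rw [Finset.card_erase_add_one hx, hA]
    · rw [Finset.card_erase_of_mem (Finset.mem_univ _), Finset.card_univ, Fintype.card_fin]
      omega
    · intro t ht htm
      rw [YS_compl]
      exact hf2 x t (fun h => by simpa using ht h) htm
    · intro s s' hs hs' hsm hsm' hass hcard
      have hxs : x ∉ s := fun h => by simpa using hs h
      have hxs' : x ∉ s' := fun h => by simpa using hs' h
      have hin : ∀ w : Finset (Fin (2 * m + 1)), x ∉ w → w ∩ (A.erase x) = w ∩ A := by
        intro w hw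
        ext y
        simp only [Finset.mem_inter, Finset.mem_erase]
        constructor
        · rintro ⟨h1, _, h2⟩; exact ⟨h1, h2⟩
        · rintro ⟨h1, h2⟩
          refine ⟨h1, ?_, h2⟩
          rintro rfl
          exact hw h1
      rw [hin s hxs, hin s' hxs'] at hcard
      obtain ⟨σ, h1, h2, h3, h4⟩ := SYM_four a x A s s' ha hax (hsm.trans hsm'.symm) hass
        ⟨fun h => absurd h hxs, fun h => absurd h hxs'⟩ hcard
      have h5 := hinv' σ h1 h3 x s
      rw [h2, h4] at h5
      exact h5.symm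
    · have h1 : (Finset.univ.erase x \ A.erase x).erase a = B := by
        ext y
        rw [hAB y]
        simp only [Finset.mem_erase, Finset.mem_sdiff, Finset.mem_univ, and_true]
        constructor
        · rintro ⟨h1, h2, h3⟩
          exact ⟨h1, fun h4 => h3 ⟨h2, h4⟩⟩
        · rintro ⟨h1, h2⟩
          refine ⟨h1, ?_, fun h3 => h2 h3.2⟩
          rintro rfl
          exact h2 hx
      rw [h1]
      exact hxB
    · intro y hy
      rw [Finset.mem_erase]
      refine ⟨?_, Finset.mem_univ _⟩
      rintro rfl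
      exact hs2 hy
  · apply hf1
    by_cases h1 : s.card = m
    · right
      by_contra h2
      exact hs ⟨h1, h2⟩
    · left
      exact h1

theorem YS_sph (m : ℕ) (hm : 1 ≤ m) (a : Fin (2 * m + 1)) (A : Finset (Fin (2 * m + 1)))
    (hA : A.card = m) (ha : a ∉ A) (f : Fin (2 * m + 1) × Finset (Fin (2 * m + 1)) → ℂ)
    (hf : f ∈ VY m)
    (hinv : ∀ g : Perm (Fin (2 * m + 1)), g • (a, A) = (a, A) → ∀ x, f (g • x) = f x)
    (hz : f (a, A) = 0) : f = 0 := by
  have hf' := hf
  obtain ⟨hf1, hf2, hf3⟩ := hf'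
  have hinv' : ∀ σ : Perm (Fin (2 * m + 1)), σ a = a → σ • A = A →
      ∀ x s, f (σ x, σ • s) = f (x, s) := by
    intro σ h1 h2 x s
    have h3 : σ • (a, A) = (a, A) := by
      rw [Prod.smul_mk, h2, Perm.smul_def, h1]
    have h4 := hinv σ h3 (x, s)
    rw [Prod.smul_mk, Perm.smul_def] at h4
    exact h4
  obtain ⟨B, hBdef⟩ : ∃ B, B = (insert a A)ᶜ := ⟨_, rfl⟩
  have hAB : ∀ x, (x ∈ B ↔ x ≠ a ∧ x ∉ A) := by
    intro x
    rw [hBdef]
    simp only [Finset.mem_compl, Finset.mem_insert]
    tauto
  have hB : B.card = m := by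
    rw [hBdef, Finset.card_compl, Finset.card_insert_of_notMem ha, Fintype.card_fin, hA]
    omega
  have haB : a ∉ B := fun h => ((hAB a).1 h).1 rfl
  have hBA : ∀ x, (x ∈ A ↔ x ≠ a ∧ x ∉ B) := by
    intro x
    rw [hAB x]
    constructor
    · intro h
      refine ⟨?_, fun h1 => h1.2 h⟩
      rintro rfl
      exact ha h
    · rintro ⟨h1, h2⟩
      by_contra h3
      exact h2 ⟨h1, h3⟩
  -- first step
  have hstep1 : ∀ s, f (a, s) = 0 := by
    intro s
    by_cases hs : s.card = m ∧ a ∉ s
    · obtain ⟨hs1, hs2⟩ := hs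
      refine LEV_main (2 * m + 1) m (Finset.univ.erase a) A ?_ hA ?_ (fun s => f (a, s)) ?_ ?_ hz
        s ?_ hs1
      · intro y hy
        rw [Finset.mem_erase]
        refine ⟨?_, Finset.mem_univ _⟩
        rintro rfl
        exact ha hy
      · rw [Finset.card_erase_of_mem (Finset.mem_univ _), Finset.card_univ, Fintype.card_fin]
        omega
      · intro t ht htm
        rw [YS_compl]
        exact hf2 a t (fun h => by simpa using ht h) htm
      · intro s s' hs hs' hsm hsm' hcard
        have hxs : a ∉ s := fun h => by simpa using hs h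
        have hxs' : a ∉ s' := fun h => by simpa using hs' h
        obtain ⟨σ, h1, h2, h3⟩ := SYM_three a A s s' ha (hsm.trans hsm'.symm)
          ⟨fun h => absurd h hxs, fun h => absurd h hxs'⟩ hcard
        have h4 := hinv' σ h1 h2 a s
        rw [h1, h3] at h4
        exact h4.symm
      · intro y hy
        rw [Finset.mem_erase]
        refine ⟨?_, Finset.mem_univ _⟩
        rintro rfl
        exact hs2 hy
    · apply hf1
      by_cases h1 : s.card = m
      · right
        by_contra h2
        exact hs ⟨h1, h2⟩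
      · left
        exact h1
  have hstep2 : ∀ x ∈ A, ∀ s, f (x, s) = 0 := by
    intro x hx s
    exact YS_step m hm a A B hA ha hAB f hf (fun σ h1 h2 _ => hinv' σ h1 h2) (hstep1 B) x hx s
  have hstep3 : ∀ x ∈ B, ∀ s, f (x, s) = 0 := by
    intro x hx s
    exact YS_step m hm a B A hB haB hBA f hf (fun σ h1 _ h2 => hinv' σ h1 h2) (hstep1 A) x hx s
  funext q
  obtain ⟨x, s⟩ := q
  rw [Pi.zero_apply]
  by_cases hx : x = a
  · rw [hx]; exact hstep1 s
  · by_cases hxA : x ∈ A
    · exact hstep2 x hxA s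
    · exact hstep3 x ((hAB x).2 ⟨hx, hxA⟩) s

end MARK
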