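import Pool.Agent.MARK.Defs

namespace MARK

open Equiv
open scoped Pointwise

/-- the numbers `(-1)^i i! (m-i)!` -/
def YV_W (m i : ℕ) : ℤ := (-1) ^ i * ((i.factorial : ℤ) * ((m - i).factorial : ℤ))

/-- the numbers `(-1)^i (i+1)! (m-1-i)!` -/
def YV_Z (m i : ℕ) : ℤ := (-1) ^ i * (((i + 1).factorial : ℤ) * ((m - 1 - i).factorial : ℤ))

theorem YV_Wrec {m i j : ℕ} (h : m = i + j + 1) :
    ((j : ℤ) + 1) * YV_W m (i + 1) + ((i : ℤ) + 1) * YV_W m i = 0 := by
  have h1 : m - (i + 1) = j := by omega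
  have h2 : m - i = j + 1 := by omega
  unfold YV_W
  rw [h1, h2, Nat.factorial_succ i, Nat.factorial_succ j]
  push_cast
  ring

theorem YV_Zrec {m i j : ℕ} (h : m = i + j + 2) :
    ((j : ℤ) + 1) * YV_Z m (i + 1) + ((i : ℤ) + 2) * YV_Z m i = 0 := by
  have h1 : m - 1 - (i + 1) = j := by omega
  have h2 : m - 1 - i = j + 1 := by omega
  unfold YV_Z
  rw [h1, h2, Nat.factorial_succ (i + 1), Nat.factorial_succ j]
  push_cast
  ring

theorem YV_par {i j : ℕ} (h : Even (i + j + 1)) : (-1 : ℤ) ^ j = -(-1) ^ i := by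
  have h1 : (-1 : ℤ) ^ (i + j + 1) = 1 := h.neg_one_pow
  have h2 : (-1 : ℤ) ^ i * (-1) ^ i = 1 := by
    rw [← pow_add]
    exact (Even.add_self i).neg_one_pow
  rw [pow_succ, pow_add] at h1
  calc (-1 : ℤ) ^ j = ((-1) ^ i * (-1) ^ i) * (-1) ^ j := by rw [h2, one_mul]
    _ = -((-1) ^ i * ((-1) ^ i * (-1) ^ j * -1)) := by ring
    _ = -(-1) ^ i := by rw [h1, mul_one]

theorem YV_par' {i j : ℕ} (h : Even (i + j)) : (-1 : ℤ) ^ j = (-1) ^ i := by
  have h1 := YV_par (i := i + 1) (j := j) (by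
    have : i + 1 + j + 1 = (i + j) + 2 := by ring
    rw [this]
    exact h.add even_two)
  rw [h1, pow_succ]
  ring

theorem YV_Zsym {m i j : ℕ} (h : m = i + j + 1) (hm : Even m) :
    YV_Z m i + (j : ℤ) * YV_Z m (m - 1 - (i + 1)) + ((i : ℤ) + 1) * YV_Z m (m - 1 - i) = 0 := by
  have hp := YV_par (i := i) (j := j) (h ▸ hm)
  have h2 : m - 1 - i = j := by omega
  have h3 : m - 1 - j = i := by omega
  rcases Nat.eq_zero_or_pos j with hj | hj
  · subst hj
    unfold YV_Z
    rw [h2, h3]
    rw [hp]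
    simp only [Nat.factorial_zero, Nat.factorial_succ]
    push_cast
    ring
  · obtain ⟨j', rfl⟩ : ∃ j', j = j' + 1 := ⟨j - 1, by omega⟩
    have h4 : m - 1 - (i + 1) = j' := by omega
    have h5 : m - 1 - j' = i + 1 := by omega
    have hp' : (-1 : ℤ) ^ j' = (-1) ^ i := by
      rw [pow_succ] at hp
      linarith
    unfold YV_Z
    rw [h4, h2, h3, h5, hp, hp']
    rw [Nat.factorial_succ (j' + 1), Nat.factorial_succ i]
    push_cast
    ring

theorem YV_S1 {m j k : ℕ} (h : m = j + k + 1) (hm : Even m) :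
    ((k : ℤ) + 1) * YV_Z m j + ((j : ℤ) + 1) * YV_Z m k = 0 := by
  have hp := YV_par (i := j) (j := k) (h ▸ hm)
  have h2 : m - 1 - j = k := by omega
  have h3 : m - 1 - k = j := by omega
  unfold YV_Z
  rw [h2, h3, hp, Nat.factorial_succ j, Nat.factorial_succ k]
  push_cast
  ring

theorem YV_S2 {m j k : ℕ} (h : m = j + k) (hm : Even m) :
    (m : ℤ) * YV_W m j + (k : ℤ) * YV_Z m (m - 1 - j) + (j : ℤ) * YV_Z m (m - 1 - k) = 0 := by
  have hp := YV_par' (i := j) (j := k) (h ▸ hm)
  have h1 : m - j = k := by omega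
  have hm' : (m : ℤ) = j + k := by exact_mod_cast h
  have hj : (j : ℤ) * YV_Z m (m - 1 - k) =
      -((j : ℤ) * ((-1) ^ j * ((j.factorial : ℤ) * (k.factorial : ℤ)))) := by
    rcases Nat.eq_zero_or_pos j with hj | hj
    · subst hj
      simp
    · obtain ⟨j', rfl⟩ : ∃ j', j = j' + 1 := ⟨j - 1, by omega⟩
      have h4 : m - 1 - k = j' := by omega
      have h5 : m - 1 - j' = k := by omega
      unfold YV_Z
      rw [h4, h5]
      rw [pow_succ]
      ring
  have hk : (k : ℤ) * YV_Z m (m - 1 - j) =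
      -((k : ℤ) * ((-1) ^ k * ((k.factorial : ℤ) * (j.factorial : ℤ)))) := by
    rcases Nat.eq_zero_or_pos k with hk | hk
    · subst hk
      simp
    · obtain ⟨k', rfl⟩ : ∃ k', k = k' + 1 := ⟨k - 1, by omega⟩
      have h4 : m - 1 - j = k' := by omega
      have h5 : m - 1 - k' = j := by omega
      unfold YV_Z
      rw [h4, h5]
      rw [pow_succ]
      ring
  rw [hj, hk, hp]
  unfold YV_W
  rw [h1, hm']
  ring

/-- Wilson type congruence -/
theorem YV_wilson {p : ℕ} [Fact p.Prime] (i : ℕ) (hi : i + 1 ≤ p) :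
    ((i.factorial : ℕ) : ZMod p) * (((p - 1 - i).factorial : ℕ) : ZMod p) = (-1) ^ (i + 1) := by
  induction i with
  | zero =>
    have := ZMod.wilsons_lemma p
    simpa using this
  | succ i ih =>
    have h1 := ih (by omega)
    obtain ⟨j, hj⟩ : ∃ j, p = i + j + 2 := ⟨p - i - 2, by omega⟩
    have h2 : p - 1 - i = j + 1 := by omega
    have h3 : p - 1 - (i + 1) = j := by omega
    rw [h2, Nat.factorial_succ j] at h1
    rw [h3, Nat.factorial_succ i]
    have h4 : ((j : ZMod p) + 1) = -((i : ZMod p) + 1) := by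
      have h5 : ((i + j + 2 : ℕ) : ZMod p) = 0 := by
        rw [← hj]
        exact ZMod.natCast_self p
      push_cast at h5
      linear_combination h5
    push_cast at h1 ⊢
    rw [h4] at h1
    rw [pow_succ, ← h1]
    ring

theorem YV_mod {p : ℕ} (hp : p.Prime) (i : ℕ) (hi : i + 1 ≤ p) :
    (p : ℤ) ∣ (i.factorial : ℤ) * ((p - 1 - i).factorial : ℤ) - (-1) ^ (i + 1) := by
  have : Fact p.Prime := ⟨hp⟩
  rw [← ZMod.intCast_zmod_eq_zero_iff_dvd]
  push_cast
  rw [YV_wilson i hi, sub_self]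

section comb

variable {N : Type} [DecidableEq N] [Fintype N]

theorem YV_split {a : N} {A B : Finset N} (haA : a ∉ A) (haB : a ∉ B) (hAB : Disjoint A B)
    (hcov : ∀ x, x = a ∨ x ∈ A ∨ x ∈ B) (S : Finset N) (g : N → ℤ) :
    ∑ y ∈ Sᶜ, g y = (if a ∈ S then 0 else g a) + ∑ y ∈ A \ S, g y + ∑ y ∈ B \ S, g y := by
  have h1 : Sᶜ = Finset.univ.filter (fun y => y ∉ S) := by
    ext y
    simp
  have h2 : (Finset.univ : Finset N) = insert a (A ∪ B) := by
    ext y
    simp only [Finset.mem_univ, Finset.mem_insert, Finset.mem_union, true_iff]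
    exact hcov y
  have h3 : a ∉ A ∪ B := by
    rw [Finset.mem_union, not_or]
    exact ⟨haA, haB⟩
  rw [h1, Finset.sum_filter, h2, Finset.sum_insert h3, Finset.sum_union hAB,
    Finset.sdiff_eq_filter A, Finset.sdiff_eq_filter B, Finset.sum_filter, Finset.sum_filter]
  rw [add_assoc]
  congr 1
  by_cases h : a ∈ S <;> simp [h]

theorem YV_card {a : N} {A B : Finset N} (haA : a ∉ A) (haB : a ∉ B) (hAB : Disjoint A B)
    (hcov : ∀ x, x = a ∨ x ∈ A ∨ x ∈ B) (t : Finset N) :
    t.card = (if a ∈ t then 1 else 0) + (t ∩ A).card + (t ∩ B).card := by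
  have h1 : t = (t.filter (fun y => y = a)) ∪ ((t ∩ A) ∪ (t ∩ B)) := by
    ext y
    simp only [Finset.mem_union, Finset.mem_filter, Finset.mem_inter]
    constructor
    · intro hy
      rcases hcov y with h | h | h
      · exact Or.inl ⟨hy, h⟩
      · exact Or.inr (Or.inl ⟨hy, h⟩)
      · exact Or.inr (Or.inr ⟨hy, h⟩)
    · rintro (h | h | h) <;> exact h.1
  have h2 : Disjoint (t ∩ A) (t ∩ B) := by
    rw [Finset.disjoint_left]
    intro y hy hy'
    exact Finset.disjoint_left.1 hAB (Finset.mem_inter.1 hy).2 (Finset.mem_inter.1 hy').2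
  have h3 : Disjoint (t.filter (fun y => y = a)) ((t ∩ A) ∪ (t ∩ B)) := by
    rw [Finset.disjoint_left]
    intro y hy hy'
    have h4 := (Finset.mem_filter.1 hy).2
    subst h4
    rcases Finset.mem_union.1 hy' with h | h
    · exact haA (Finset.mem_inter.1 h).2
    · exact haB (Finset.mem_inter.1 h).2
  have h4 : (t.filter (fun y => y = a)).card = if a ∈ t then 1 else 0 := by
    rw [Finset.filter_eq']
    split_ifs <;> simp
  calc t.card = ((t.filter (fun y => y = a)) ∪ ((t ∩ A) ∪ (t ∩ B))).card := by rw [← h1]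
    _ = _ := by
      rw [Finset.card_union_of_disjoint h3, Finset.card_union_of_disjoint h2, h4, add_assoc]

theorem YV_const (T : Finset N) (g : N → ℤ) (c : ℤ) (h : ∀ y ∈ T, g y = c) :
    ∑ y ∈ T, g y = (T.card : ℤ) * c := by
  rw [Finset.sum_congr rfl h, Finset.sum_const, nsmul_eq_mul]

/-- values for a point of the class `C` -/
def YV_c (m : ℕ) (a : N) (C : Finset N) (s : Finset N) : ℤ :=
  if a ∈ s then YV_Z m (s ∩ C).card else YV_Z m (m - 1 - (s ∩ C).card)

/-- the condition for fixed `x ∈ C` -/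
theorem YV_fixC {m : ℕ} (hm : Even m) {a : N} {A B : Finset N} (haA : a ∉ A) (haB : a ∉ B)
    (hAB : Disjoint A B) (hcov : ∀ x, x = a ∨ x ∈ A ∨ x ∈ B) (hA : A.card = m) (hB : B.card = m)
    {x : N} (hx : x ∈ A) {t : Finset N} (hxt : x ∉ t) (ht : t.card + 1 = m) :
    ∑ y ∈ (insert x t)ᶜ, YV_c m a A (insert y t) = 0 := by
  have hax : a ≠ x := fun h => haA (h ▸ hx)
  have hxB : x ∉ B := fun h => Finset.disjoint_left.1 hAB hx h
  have hc := YV_card haA haB hAB hcov t
  rw [YV_split haA haB hAB hcov]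
  have hi : (A \ insert x t).card + (t ∩ A).card + 1 = m := by
    have h1 := Finset.card_sdiff_add_card_inter A (insert x t)
    have h2 : A ∩ insert x t = insert x (t ∩ A) := by
      rw [Finset.inter_comm, Finset.insert_inter_of_mem hx]
    rw [h2, Finset.card_insert_of_notMem (fun h => hxt (Finset.mem_inter.1 h).1), hA] at h1
    omega
  have hB' : (B \ insert x t).card + (t ∩ B).card = m := by
    have h1 := Finset.card_sdiff_add_card_inter B (insert x t)
    have h2 : B ∩ insert x t = t ∩ B := by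
      rw [Finset.inter_comm, Finset.insert_inter_of_notMem hxB]
    rw [h2, hB] at h1
    exact h1
  have hsA : ∀ y ∈ A \ insert x t, ((insert y t) ∩ A).card = (t ∩ A).card + 1 := by
    intro y hy
    obtain ⟨h1, h2⟩ := Finset.mem_sdiff.1 hy
    rw [Finset.insert_inter_of_mem h1, Finset.card_insert_of_notMem]
    exact fun h => h2 (Finset.mem_insert_of_mem (Finset.mem_inter.1 h).1)
  have hsB : ∀ y ∈ B \ insert x t, ((insert y t) ∩ A).card = (t ∩ A).card := by
    intro y hy
    obtain ⟨h1, h2⟩ := Finset.mem_sdiff.1 hy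
    rw [Finset.insert_inter_of_notMem (fun h => Finset.disjoint_left.1 hAB h h1)]
  have hya : ∀ y ∈ A \ insert x t, a ∈ insert y t ↔ a ∈ t := by
    intro y hy
    have h1 : a ≠ y := fun h => haA (h ▸ (Finset.mem_sdiff.1 hy).1)
    rw [Finset.mem_insert]
    exact ⟨fun h => h.resolve_left h1, Or.inr⟩
  have hyb : ∀ y ∈ B \ insert x t, a ∈ insert y t ↔ a ∈ t := by
    intro y hy
    have h1 : a ≠ y := fun h => haB (h ▸ (Finset.mem_sdiff.1 hy).1)
    rw [Finset.mem_insert]
    exact ⟨fun h => h.resolve_left h1, Or.inr⟩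
  set i := (t ∩ A).card with hidef
  by_cases hat : a ∈ t
  · rw [if_pos hat] at hc
    rw [if_pos (Finset.mem_insert_of_mem hat), zero_add,
      YV_const _ _ (YV_Z m (i + 1)) (fun y hy => by
        unfold YV_c
        rw [if_pos ((hya y hy).2 hat), hsA y hy]),
      YV_const _ _ (YV_Z m i) (fun y hy => by
        unfold YV_c
        rw [if_pos ((hyb y hy).2 hat), hsB y hy])]
    obtain ⟨j, hj⟩ : ∃ j, m = i + j + 2 := ⟨m - i - 2, by omega⟩
    have h1 : (A \ insert x t).card = j + 1 := by omega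
    have h2 : (B \ insert x t).card = i + 2 := by omega
    rw [h1, h2]
    have h3 := YV_Zrec hj
    push_cast
    exact h3
  · rw [if_neg hat] at hc
    have haxt : a ∉ insert x t := by
      rw [Finset.mem_insert, not_or]
      exact ⟨hax, hat⟩
    rw [if_neg haxt,
      YV_const _ _ (YV_Z m (m - 1 - (i + 1))) (fun y hy => by
        unfold YV_c
        rw [if_neg (fun h => hat ((hya y hy).1 h)), hsA y hy]),
      YV_const _ _ (YV_Z m (m - 1 - i)) (fun y hy => by
        unfold YV_c
        rw [if_neg (fun h => hat ((hyb y hy).1 h)), hsB y hy])]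
    have h0 : YV_c m a A (insert a t) = YV_Z m i := by
      unfold YV_c
      rw [if_pos (Finset.mem_insert_self _ _), Finset.insert_inter_of_notMem haA]
    rw [h0]
    obtain ⟨j, hj⟩ : ∃ j, m = i + j + 1 := ⟨m - i - 1, by omega⟩
    have h1 : (A \ insert x t).card = j := by omega
    have h2 : (B \ insert x t).card = i + 1 := by omega
    rw [h1, h2]
    have h3 := YV_Zsym hj hm
    push_cast
    exact h3

/-- the condition for `x = a` -/
theorem YV_fixa {m : ℕ} {a : N} {A B : Finset N} (haA : a ∉ A) (haB : a ∉ B)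
    (hAB : Disjoint A B) (hcov : ∀ x, x = a ∨ x ∈ A ∨ x ∈ B) (hA : A.card = m) (hB : B.card = m)
    {t : Finset N} (hat : a ∉ t) (ht : t.card + 1 = m) :
    ∑ y ∈ (insert a t)ᶜ, (m : ℤ) * YV_W m ((insert y t) ∩ A).card = 0 := by
  have hc := YV_card haA haB hAB hcov t
  rw [if_neg hat] at hc
  rw [YV_split haA haB hAB hcov, if_pos (Finset.mem_insert_self _ _), zero_add]
  have hi : (A \ insert a t).card + (t ∩ A).card = m := by
    have h1 := Finset.card_sdiff_add_card_inter A (insert a t)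
    have h2 : A ∩ insert a t = t ∩ A := by
      rw [Finset.inter_comm, Finset.insert_inter_of_notMem haA]
    rw [h2, hA] at h1
    exact h1
  have hB' : (B \ insert a t).card + (t ∩ B).card = m := by
    have h1 := Finset.card_sdiff_add_card_inter B (insert a t)
    have h2 : B ∩ insert a t = t ∩ B := by
      rw [Finset.inter_comm, Finset.insert_inter_of_notMem haB]
    rw [h2, hB] at h1
    exact h1
  rw [YV_const _ _ ((m : ℤ) * YV_W m ((t ∩ A).card + 1)) (fun y hy => by
        obtain ⟨h1, h2⟩ := Finset.mem_sdiff.1 hy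
        rw [Finset.insert_inter_of_mem h1, Finset.card_insert_of_notMem
          (fun h => h2 (Finset.mem_insert_of_mem (Finset.mem_inter.1 h).1))]),
    YV_const _ _ ((m : ℤ) * YV_W m (t ∩ A).card) (fun y hy => by
        obtain ⟨h1, h2⟩ := Finset.mem_sdiff.1 hy
        rw [Finset.insert_inter_of_notMem (fun h => Finset.disjoint_left.1 hAB h h1)])]
  set i := (t ∩ A).card with hidef
  obtain ⟨j, hj⟩ : ∃ j, m = i + j + 1 := ⟨m - i - 1, by omega⟩
  have h1 : (A \ insert a t).card = j + 1 := by omega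
  have h2 : (B \ insert a t).card = i + 1 := by omega
  rw [h1, h2]
  have h3 := YV_Wrec hj
  push_cast
  calc ((j : ℤ) + 1) * ((m : ℤ) * YV_W m (i + 1)) + ((i : ℤ) + 1) * ((m : ℤ) * YV_W m i) =
      (m : ℤ) * (((j : ℤ) + 1) * YV_W m (i + 1) + ((i : ℤ) + 1) * YV_W m i) := by ring
    _ = 0 := by rw [h3, mul_zero]

/-- the condition for fixed `s` -/
theorem YV_fixs {m : ℕ} (hm : Even m) {a : N} {A B : Finset N} (haA : a ∉ A) (haB : a ∉ B)
    (hAB : Disjoint A B) (hcov : ∀ x, x = a ∨ x ∈ A ∨ x ∈ B) (hA : A.card = m) (hB : B.card = m)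
    {s : Finset N} (hs : s.card = m) :
    (if a ∈ s then 0 else (m : ℤ) * YV_W m (s ∩ A).card) +
      ((A \ s).card : ℤ) * YV_c m a A s + ((B \ s).card : ℤ) * YV_c m a B s = 0 := by
  have hc := YV_card haA haB hAB hcov s
  have hA' : (A \ s).card + (s ∩ A).card = m := by
    have h1 := Finset.card_sdiff_add_card_inter A s
    rw [Finset.inter_comm, hA] at h1
    exact h1
  have hB' : (B \ s).card + (s ∩ B).card = m := by
    have h1 := Finset.card_sdiff_add_card_inter B s
    rw [Finset.inter_comm, hB] at h1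
    exact h1
  unfold YV_c
  by_cases has : a ∈ s
  · rw [if_pos has] at hc
    rw [if_pos has, if_pos has, if_pos has, zero_add]
    have h3 := YV_S1 (m := m) (j := (s ∩ A).card) (k := (s ∩ B).card) (by omega) hm
    have h1 : (A \ s).card = (s ∩ B).card + 1 := by omega
    have h2 : (B \ s).card = (s ∩ A).card + 1 := by omega
    rw [h1, h2]
    push_cast
    exact h3
  · rw [if_neg has] at hc
    rw [if_neg has, if_neg has, if_neg has]
    have h3 := YV_S2 (m := m) (j := (s ∩ A).card) (k := (s ∩ B).card) (by omega) hm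
    have h1 : (A \ s).card = (s ∩ B).card := by omega
    have h2 : (B \ s).card = (s ∩ A).card := by omega
    rw [h1, h2]
    exact h3

end comb

theorem YV_vec (m : ℕ) (hm : Even m) (hm2 : 2 ≤ m) :
    ∃ v : Fin (2 * m + 1) × Finset (Fin (2 * m + 1)) → ℤ,
      (fun x => ((v x : ℤ) : ℂ)) ∈ VY m ∧
      ∀ p : ℕ, p.Prime → m + 1 = p → ∀ (x : Fin (2 * m + 1)) (s : Finset (Fin (2 * m + 1))),
        s.card = m → x ∉ s → (p : ℤ) ∣ v (x, s) - 1 := by
  classical
  obtain ⟨A, hAs, hA⟩ := Finset.exists_subset_card_eq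
    (s := (Finset.univ.erase (0 : Fin (2 * m + 1)))) (n := m) (by
      rw [Finset.card_erase_of_mem (Finset.mem_univ _), Finset.card_univ, Fintype.card_fin]
      omega)
  set a : Fin (2 * m + 1) := 0 with ha
  set B := (Finset.univ.erase a) \ A with hBdef
  have hB : B.card = m := by
    rw [hBdef, Finset.card_sdiff_of_subset hAs, hA,
      Finset.card_erase_of_mem (Finset.mem_univ _), Finset.card_univ, Fintype.card_fin]
    omega
  have haA : a ∉ A := fun h => Finset.notMem_erase a _ (hAs h)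
  have haB : a ∉ B := fun h => Finset.notMem_erase a _ (Finset.mem_sdiff.1 h).1
  have hAB : Disjoint A B := by
    rw [hBdef]
    exact Finset.disjoint_sdiff
  have hcov : ∀ x, x = a ∨ x ∈ A ∨ x ∈ B := by
    intro x
    by_cases h1 : x = a
    · exact Or.inl h1
    · by_cases h2 : x ∈ A
      · exact Or.inr (Or.inl h2)
      · exact Or.inr (Or.inr (Finset.mem_sdiff.2
          ⟨Finset.mem_erase.2 ⟨h1, Finset.mem_univ _⟩, h2⟩))
  have hcov' : ∀ x, x = a ∨ x ∈ B ∨ x ∈ A := fun x => by
    rcases hcov x with h | h | h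
    · exact Or.inl h
    · exact Or.inr (Or.inr h)
    · exact Or.inr (Or.inl h)
  let w : Fin (2 * m + 1) → Finset (Fin (2 * m + 1)) → ℤ := fun x s =>
    if x = a then (m : ℤ) * YV_W m (s ∩ A).card else if x ∈ A then YV_c m a A s
      else YV_c m a B s
  let v : Fin (2 * m + 1) × Finset (Fin (2 * m + 1)) → ℤ := fun q =>
    if q.2.card = m ∧ q.1 ∉ q.2 then w q.1 q.2 else 0
  have hwa : ∀ s, w a s = (m : ℤ) * YV_W m (s ∩ A).card := fun s => if_pos rfl
  have hwA : ∀ x ∈ A, ∀ s, w x s = YV_c m a A s := by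
    intro x hx s
    have h1 : x ≠ a := fun h => haA (h ▸ hx)
    change (if x = a then _ else if x ∈ A then _ else _) = _
    rw [if_neg h1, if_pos hx]
  have hwB : ∀ x ∈ B, ∀ s, w x s = YV_c m a B s := by
    intro x hx s
    have h1 : x ≠ a := fun h => haB (h ▸ hx)
    have h2 : x ∉ A := fun h => Finset.disjoint_left.1 hAB h hx
    change (if x = a then _ else if x ∈ A then _ else _) = _
    rw [if_neg h1, if_neg h2]
  have hv : ∀ x s, s.card = m → x ∉ s → v (x, s) = w x s := fun x s h1 h2 => if_pos ⟨h1, h2⟩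
  have hv0 : ∀ x s, (s.card ≠ m ∨ x ∈ s) → v (x, s) = 0 := by
    intro x s h
    apply if_neg
    rintro ⟨h1, h2⟩
    rcases h with h | h
    · exact h h1
    · exact h2 h
  have hcond2 : ∀ x t, x ∉ t → t.card + 1 = m →
      ∑ y ∈ (insert x t)ᶜ, v (x, insert y t) = 0 := by
    intro x t hxt ht
    have h1 : ∑ y ∈ (insert x t)ᶜ, v (x, insert y t) = ∑ y ∈ (insert x t)ᶜ, w x (insert y t) := by
      refine Finset.sum_congr rfl (fun y hy => ?_)
      rw [Finset.mem_compl, Finset.mem_insert, not_or] at hy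
      apply hv
      · rw [Finset.card_insert_of_notMem hy.2, ht]
      · rw [Finset.mem_insert, not_or]
        exact ⟨fun h => hy.1 h.symm, hxt⟩
    rw [h1]
    rcases hcov x with h | h | h
    · subst h
      rw [Finset.sum_congr rfl (fun y _ => hwa (insert y t))]
      exact YV_fixa haA haB hAB hcov hA hB hxt ht
    · rw [Finset.sum_congr rfl (fun y _ => hwA x h (insert y t))]
      exact YV_fixC hm haA haB hAB hcov hA hB h hxt ht
    · rw [Finset.sum_congr rfl (fun y _ => hwB x h (insert y t))]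
      exact YV_fixC hm haB haA hAB.symm hcov' hB hA h hxt ht
  have hcond3 : ∀ s : Finset (Fin (2 * m + 1)), s.card = m → ∑ x ∈ sᶜ, v (x, s) = 0 := by
    intro s hs
    have h1 : ∑ x ∈ sᶜ, v (x, s) = ∑ x ∈ sᶜ, w x s := by
      refine Finset.sum_congr rfl (fun y hy => ?_)
      rw [Finset.mem_compl] at hy
      exact hv y s hs hy
    rw [h1, YV_split haA haB hAB hcov,
      YV_const _ _ (YV_c m a A s) (fun y hy => hwA y (Finset.mem_sdiff.1 hy).1 s),
      YV_const _ _ (YV_c m a B s) (fun y hy => hwB y (Finset.mem_sdiff.1 hy).1 s), hwa]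
    exact YV_fixs hm haA haB hAB hcov hA hB hs
  refine ⟨v, ⟨?_, ?_, ?_⟩, ?_⟩
  · intro x s h
    change ((v (x, s) : ℤ) : ℂ) = 0
    rw [hv0 x s h, Int.cast_zero]
  · intro x t hx ht
    change ∑ y ∈ (insert x t)ᶜ, ((v (x, insert y t) : ℤ) : ℂ) = 0
    rw [← Int.cast_sum, hcond2 x t hx ht, Int.cast_zero]
  · intro s hs
    change ∑ x ∈ sᶜ, ((v (x, s) : ℤ) : ℂ) = 0
    rw [← Int.cast_sum, hcond3 s hs, Int.cast_zero]
  · intro p hp hmp x s hs hxs
    rw [hv x s hs hxs]
    have hpm : p - 1 = m := by omega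
    -- the two congruences
    have hW : ∀ i, i ≤ m → (p : ℤ) ∣ (m : ℤ) * YV_W m i - 1 := by
      intro i hi
      obtain ⟨d, hd⟩ := YV_mod hp i (by omega)
      rw [hpm] at hd
      unfold YV_W
      have h2 : (-1 : ℤ) ^ i * (-1) ^ i = 1 := by
        rw [← pow_add]
        exact (Even.add_self i).neg_one_pow
      have h3 : (m : ℤ) = p - 1 := by
        rw [← hmp]
        push_cast
        ring
      refine ⟨(-1) ^ i * ((i.factorial : ℤ) * ((m - i).factorial : ℤ)) - (-1) ^ i * d, ?_⟩
      have h4 : (i.factorial : ℤ) * ((m - i).factorial : ℤ) = p * d + (-1) ^ (i + 1) := by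
        linarith
      rw [h4, h3, pow_succ]
      linear_combination h2
    have hZ : ∀ i, i + 1 ≤ m → (p : ℤ) ∣ YV_Z m i - 1 := by
      intro i hi
      obtain ⟨d, hd⟩ := YV_mod hp (i + 1) (by omega)
      rw [hpm] at hd
      have h5 : m - (i + 1) = m - 1 - i := by omega
      rw [h5] at hd
      unfold YV_Z
      have h2 : (-1 : ℤ) ^ i * (-1) ^ i = 1 := by
        rw [← pow_add]
        exact (Even.add_self i).neg_one_pow
      refine ⟨(-1) ^ i * d, ?_⟩
      have h4 : ((i + 1).factorial : ℤ) * ((m - 1 - i).factorial : ℤ) =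
          p * d + (-1) ^ (i + 1 + 1) := by
        linarith
      rw [h4, pow_succ, pow_succ]
      linear_combination h2
    have hC : ∀ C : Finset (Fin (2 * m + 1)), C.card = m → x ∈ C → a ∉ C →
        (p : ℤ) ∣ YV_c m a C s - 1 := by
      intro C hC hxC haC
      have h6 : (s ∩ C).card + 1 ≤ m := by
        have h7 : s ∩ C ⊆ C.erase x := by
          intro y hy
          obtain ⟨h8, h9⟩ := Finset.mem_inter.1 hy
          exact Finset.mem_erase.2 ⟨fun h => hxs (h ▸ h8), h9⟩
        have h8 := Finset.card_le_card h7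
        rw [Finset.card_erase_of_mem hxC, hC] at h8
        omega
      unfold YV_c
      split_ifs
      · exact hZ _ h6
      · exact hZ _ (by omega)
    rcases hcov x with h | h | h
    · rw [h, hwa]
      apply hW
      exact (Finset.card_le_card Finset.inter_subset_right).trans hA.le
    · rw [hwA x h]
      exact hC A hA h haA
    · rw [hwB x h]
      exact hC B hB h haB

end MARK
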