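import Pool.Agent.MARK.Defs
import Pool.Agent.MARK.SPH
import Pool.Agent.MARK.MK
import Pool.Agent.MARK.AVG
import Pool.Agent.MARK.YV
import Pool.Agent.MARK.YI
import Pool.Agent.MARK.YS

namespace MARK

open Equiv
open scoped Pointwise

theorem YM_base (m : ℕ) : ∃ (a : Fin (2 * m + 1)) (A : Finset (Fin (2 * m + 1))),
    A.card = m ∧ a ∉ A := by
  classical
  obtain ⟨A, hA, hAc⟩ := Finset.exists_subset_card_eq
    (s := (Finset.univ : Finset (Fin (2 * m + 1)))) (n := m) (by simp; omega)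
  have : ∃ a, a ∉ A := by
    by_contra h
    push Not at h
    have h1 : A = Finset.univ := Finset.eq_univ_iff_forall.2 h
    rw [h1, Finset.card_univ, Fintype.card_fin] at hAc
    omega
  obtain ⟨a, ha⟩ := this
  exact ⟨a, A, hAc, ha⟩

theorem YM_smul (m : ℕ) (a : Fin (2 * m + 1)) (A : Finset (Fin (2 * m + 1)))
    (hA : A.card = m) (ha : a ∉ A) (g : Perm (Fin (2 * m + 1))) :
    (g • A).card = m ∧ g a ∉ g • A := by
  refine ⟨by rw [Finset.card_smul_finset, hA], ?_⟩
  intro h
  apply ha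
  have h1 : g • a ∈ g • A := h
  rwa [Finset.smul_mem_smul_finset_iff] at h1

theorem YM_nofix (m : ℕ) (hm2 : 2 ≤ m)
    (f : Fin (2 * m + 1) × Finset (Fin (2 * m + 1)) → ℂ) (hf : f ∈ VY m)
    (hfix : ∀ (g : Perm (Fin (2 * m + 1))) x, f (g • x) = f x) : f = 0 := by
  classical
  obtain ⟨a, A, hA, ha⟩ := YM_base m
  by_contra hne
  obtain ⟨g, hg⟩ := YI_tr m a A hA ha f hf hne
  rw [hfix] at hg
  apply hg
  -- the sum over the complement of `A`
  have h3 := hf.2.2 A hA
  have h4 : ∀ x ∈ Aᶜ, f (x, A) = f (a, A) := by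
    intro x hx
    rw [Finset.mem_compl] at hx
    have h5 := hfix (swap a x) (a, A)
    have h6 : swap a x • (a, A) = (x, A) := by
      apply Prod.ext
      · change swap a x a = x
        exact swap_apply_left a x
      · change swap a x • A = A
        ext y
        rw [← Finset.inv_smul_mem_iff]
        change (swap a x)⁻¹ y ∈ A ↔ y ∈ A
        rw [swap_inv]
        by_cases hya : y = a
        · rw [hya, swap_apply_left]; simp [hx, ha]
        by_cases hyx : y = x
        · rw [hyx, swap_apply_right]; simp [hx, ha]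
        rw [swap_apply_of_ne_of_ne hya hyx]
    rw [h6] at h5
    exact h5
  rw [Finset.sum_congr rfl h4, Finset.sum_const, nsmul_eq_mul, mul_eq_zero] at h3
  rcases h3 with h3 | h3
  · exfalso
    rw [Nat.cast_eq_zero, Finset.card_compl, Fintype.card_fin, hA] at h3
    omega
  · exact h3

theorem YM_main (m p : ℕ) (hp : p.Prime) (hm : Even m) (hm2 : 2 ≤ m) (h : m + 1 = p) :
    ∃ χ ∈ Irr (Perm (Fin (2 * m + 1))), χ ≠ 1 ∧
      ∀ K : Subgroup (Perm (Fin (2 * m + 1))), ¬ p ∣ Nat.card K → Marks χ K := by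
  classical
  obtain ⟨a, A, hA, ha⟩ := YM_base m
  obtain ⟨v, hv, hvp⟩ := YV_vec m hm hm2
  have hinv := YI_inv m
  have hvg : ∀ g : Perm (Fin (2 * m + 1)), (p : ℤ) ∣ v (g • (a, A)) - 1 := by
    intro g
    have h1 := YM_smul m a A hA ha g
    exact hvp p hp h (g a) (g • A) h1.1 h1.2
  have hne : VY m ≠ ⊥ := by
    intro hb
    rw [hb, Submodule.mem_bot] at hv
    have h1 := hvg 1
    rw [one_smul] at h1
    have h2 : ((v (a, A) : ℤ) : ℂ) = 0 := congrFun hv (a, A)
    have h3 : v (a, A) = 0 := by exact_mod_cast h2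
    rw [h3, zero_sub, dvd_neg] at h1
    have h4 : (p : ℤ) = 1 := Int.eq_one_of_dvd_one (by positivity) h1
    have h5 : p = 1 := by exact_mod_cast h4
    exact hp.one_lt.ne' h5
  have hirr : IrrSub (Perm (Fin (2 * m + 1))) (VY m) := by
    apply SPH_main (VY m) hinv hne (a, A)
    · intro f hf hf0
      exact YI_tr m a A hA ha f hf hf0
    · intro f hf hfi hz
      exact YS_sph m (by omega) a A hA ha f hf hfi hz
  obtain ⟨χ, hχ, hχ1, hχm⟩ := MK_main (1 : Perm (Fin (2 * m + 1)) →* ℤˣ) (VY m) hinv hirr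
    (by
      intro f hf hfix
      refine YM_nofix m hm2 f hf (fun g x => ?_)
      have := hfix g x
      simpa using this)
  refine ⟨χ, hχ, hχ1, fun K hK => hχm K ?_⟩
  obtain ⟨f, hf, hf0, hfK⟩ := AVG_main (VY m) hinv v hv p hp 1
    (by
      intro h1
      have h4 : (p : ℤ) = 1 := Int.eq_one_of_dvd_one (by positivity) h1
      have h5 : p = 1 := by exact_mod_cast h4
      exact hp.one_lt.ne' h5) (a, A) hvg K hK
  refine ⟨f, hf, hf0, fun g hg x => ?_⟩
  rw [hfK g hg x]
  simp

end MARK
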