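import Pool.Agent.MARK.Defs
import Pool.Agent.MARK.WM
import Pool.Agent.MARK.W1
import Pool.Agent.MARK.SG
import Pool.Agent.MARK.YM
import Pool.Agent.MARK.J3
import Pool.Agent.MARK.JP
import Pool.Agent.MARK.PR
import Pool.Agent.MARK.S7
import Pool.Agent.MARK.S6

namespace MARK

open Equiv
open scoped Pointwise

/-- A proper subgroup containing the alternating group is contained in it. -/
theorem UB_alt (n : ℕ) (K : Subgroup (Perm (Fin n))) (hK : K ≠ ⊤)
    (hA : alternatingGroup (Fin n) ≤ K) : K ≤ alternatingGroup (Fin n) := by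
  intro g hg
  by_contra h
  apply hK
  rw [Subgroup.eq_top_iff']
  intro x
  have hgs : Perm.sign g = -1 := by
    rcases Int.units_eq_one_or (Perm.sign g) with h1 | h1
    · exact absurd (Perm.mem_alternatingGroup.2 h1) h
    · exact h1
  rcases Int.units_eq_one_or (Perm.sign x) with h1 | h1
  · exact hA (Perm.mem_alternatingGroup.2 h1)
  · have h2 : x * g ∈ K := by
      apply hA
      rw [Perm.mem_alternatingGroup, map_mul, h1, hgs]
      norm_num
    have h3 : x = (x * g) * g⁻¹ := by group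
    rw [h3]
    exact K.mul_mem h2 (K.inv_mem hg)

theorem UB_gen (n p : ℕ) (hn : 3 ≤ n) (χ : Perm (Fin n) → ℂ) (hχ : χ ∈ Irr (Perm (Fin n)))
    (hχ1 : χ ≠ 1)
    (hm : ∀ K : Subgroup (Perm (Fin n)), MulAction.IsPretransitive K (Fin n) →
      ¬ p ∣ Nat.card K → Marks χ K)
    (hJ : ∀ K : Subgroup (Perm (Fin n)), MulAction.IsPretransitive K (Fin n) →
      p ∣ Nat.card K → alternatingGroup (Fin n) ≤ K) :
    ∃ c ∈ markingSizes (Perm (Fin n)), c ≤ 4 := by
  classical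
  obtain ⟨χ1, h1, h1', h1m⟩ := W1_main n (by omega)
  obtain ⟨χ2, h2, h2', h2m⟩ := SG_main n (by omega)
  refine ⟨({χ, χ1, χ2} : Finset (Perm (Fin n) → ℂ)).card, ⟨{χ, χ1, χ2}, ?_, ?_, rfl⟩, ?_⟩
  · intro ψ hψ
    simp only [Finset.mem_insert, Finset.mem_singleton] at hψ
    rcases hψ with rfl | rfl | rfl
    · exact ⟨hχ, hχ1⟩
    · exact ⟨h1, h1'⟩
    · exact ⟨h2, h2'⟩
  · intro K hK
    by_cases ht : MulAction.IsPretransitive K (Fin n)
    · by_cases hp : p ∣ Nat.card K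
      · refine ⟨χ2, by simp, h2m K (UB_alt n K hK (hJ K ht hp))⟩
      · exact ⟨χ, by simp, hm K ht hp⟩
    · exact ⟨χ1, by simp, h1m K ht⟩
  · exact (Finset.card_le_three).trans (by norm_num)

theorem UB_one : ∃ c ∈ markingSizes (Perm (Fin 1)), c ≤ 4 := by
  refine ⟨0, ⟨∅, by simp, ?_, rfl⟩, by norm_num⟩
  intro K hK
  exact absurd (Subsingleton.elim K ⊤) hK

theorem UB_two : ∃ c ∈ markingSizes (Perm (Fin 2)), c ≤ 4 := by
  obtain ⟨χ1, h1, h1', h1m⟩ := W1_main 2 le_rfl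
  refine ⟨1, ⟨{χ1}, ?_, ?_, Finset.card_singleton _⟩, by norm_num⟩
  · intro ψ hψ
    rw [Finset.mem_singleton] at hψ
    rw [hψ]
    exact ⟨h1, h1'⟩
  · intro K hK
    refine ⟨χ1, by simp, h1m K (fun ht => hK ?_)⟩
    obtain ⟨g, hg⟩ := ht.exists_smul_eq (0 : Fin 2) 1
    have hg1 : (g : Perm (Fin 2)) 0 = 1 := hg
    rw [Subgroup.eq_top_iff']
    intro x
    have key : ∀ a b : Perm (Fin 2), a 0 = 1 → b = 1 ∨ b = a := by decide
    rcases key g x hg1 with h | h
    · rw [h]; exact K.one_mem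
    · rw [h]; exact g.2

theorem UB_three : ∃ c ∈ markingSizes (Perm (Fin 3)), c ≤ 4 := by
  obtain ⟨χ1, h1, h1', h1m⟩ := W1_main 3 (by norm_num)
  refine UB_gen 3 3 le_rfl χ1 h1 h1' ?_ (fun K ht hd => J3_main 3 (by norm_num) K ht hd)
  intro K ht hd
  exfalso
  apply hd
  have h := MulAction.index_stabilizer_of_transitive K (0 : Fin 3)
  rw [Nat.card_eq_fintype_card, Fintype.card_fin] at h
  have h2 := Subgroup.index_dvd_card (MulAction.stabilizer K (0 : Fin 3))
  rwa [h] at h2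

theorem UB_six : ∃ c ∈ markingSizes (Perm (Fin 6)), c ≤ 4 := by
  classical
  obtain ⟨χ1, h1, h1', h1m⟩ := W1_main 6 (by norm_num)
  obtain ⟨χ2, h2, h2', h2m⟩ := SG_main 6 (by norm_num)
  obtain ⟨χ3, h3, h3', h3m⟩ := WM_main 6 2 5 (by norm_num) (by norm_num) (by norm_num)
    (by norm_num)
  obtain ⟨χ4, h4, h4', h4m⟩ := S6_main
  refine ⟨({χ1, χ2, χ3, χ4} : Finset (Perm (Fin 6) → ℂ)).card,
    ⟨{χ1, χ2, χ3, χ4}, ?_, ?_, rfl⟩, Finset.card_le_four⟩
  · intro ψ hψ
    simp only [Finset.mem_insert, Finset.mem_singleton] at hψ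
    rcases hψ with rfl | rfl | rfl | rfl
    · exact ⟨h1, h1'⟩
    · exact ⟨h2, h2'⟩
    · exact ⟨h3, h3'⟩
    · exact ⟨h4, h4'⟩
  · intro K hK
    by_cases ht : MulAction.IsPretransitive K (Fin 6)
    · by_cases hp : 5 ∣ Nat.card K
      · by_cases hA : alternatingGroup (Fin 6) ≤ K
        · exact ⟨χ2, by simp, h2m K (UB_alt 6 K hK hA)⟩
        · exact ⟨χ4, by simp, h4m K ht hp hA⟩
      · exact ⟨χ3, by simp, h3m K hp⟩
    · exact ⟨χ1, by simp, h1m K ht⟩

theorem UB_W (n p : ℕ) (hp : p.Prime) (hn : 3 ≤ n) (h1 : n + 2 ≤ 2 * p) (h2 : p ≤ n)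
    (hJ : ∀ K : Subgroup (Perm (Fin n)), MulAction.IsPretransitive K (Fin n) →
      p ∣ Nat.card K → alternatingGroup (Fin n) ≤ K) :
    ∃ c ∈ markingSizes (Perm (Fin n)), c ≤ 4 := by
  obtain ⟨χ, h, h', hm⟩ := WM_main n (n + 1 - p) p hp (by omega) (by omega) (by omega)
  exact UB_gen n p hn χ h h' (fun K _ hd => hm K hd) hJ

theorem UB_Y (m p : ℕ) (hp : p.Prime) (hm : Even m) (hm2 : 2 ≤ m) (h : m + 1 = p)
    (hJ : ∀ K : Subgroup (Perm (Fin (2 * m + 1))),
      MulAction.IsPretransitive K (Fin (2 * m + 1)) →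
      p ∣ Nat.card K → alternatingGroup (Fin (2 * m + 1)) ≤ K) :
    ∃ c ∈ markingSizes (Perm (Fin (2 * m + 1))), c ≤ 4 := by
  obtain ⟨χ, h1, h', hmk⟩ := YM_main m p hp hm hm2 h
  exact UB_gen (2 * m + 1) p (by omega) χ h1 h' (fun K _ hd => hmk K hd) hJ

theorem UB_main (n : ℕ) (hn : 1 ≤ n) : ∃ c ∈ markingSizes (Perm (Fin n)), c ≤ 4 := by
  rcases lt_or_ge n 8 with h8 | h8
  · interval_cases n
    · exact UB_one
    · exact UB_two
    · exact UB_three
    · exact UB_W 4 3 (by norm_num) (by norm_num) (by norm_num) (by norm_num)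
        (fun K ht hd => J3_main 4 (by norm_num) K ht hd)
    · exact UB_Y 2 3 (by norm_num) (by decide) (by norm_num) (by norm_num)
        (fun K ht hd => J3_main 5 (by norm_num) K ht hd)
    · exact UB_six
    · exact UB_W 7 5 (by norm_num) (by norm_num) (by norm_num) (by norm_num)
        (fun K ht hd => S7_main K ht hd)
  · by_cases h9 : n = 9
    · subst h9
      exact UB_Y 4 5 (by norm_num) (by decide) (by norm_num) (by norm_num)
        (fun K ht hd => JP_main 9 5 (by norm_num) (by norm_num) (by norm_num) K ht hd)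
    by_cases h13 : n = 13
    · subst h13
      exact UB_Y 6 7 (by norm_num) (by decide) (by norm_num) (by norm_num)
        (fun K ht hd => JP_main 13 7 (by norm_num) (by norm_num) (by norm_num) K ht hd)
    obtain ⟨p, hp, hp1, hp2⟩ := PR_main n h8 h9 h13
    exact UB_W n p hp (by omega) hp1 (by omega)
      (fun K ht hd => JP_main n p hp hp2 (by omega) K ht hd)

end MARK
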