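import Pool.Agent.MARK.Defs
import Pool.Agent.MARK.LW
import Pool.Agent.MARK.UB

namespace MARK

open Equiv
open scoped Pointwise

theorem FIN_main : (∀ n : ℕ, 1 ≤ n → (markingSizes (Perm (Fin n))).Nonempty) ∧
    IsGreatest {c : ℕ | ∃ n : ℕ, 1 ≤ n ∧ IsLeast (markingSizes (Perm (Fin n))) c} 4 := by
  refine ⟨fun n hn => ?_, ⟨6, by norm_num, ?_, ?_⟩, ?_⟩
  · obtain ⟨c, hc, -⟩ := UB_main n hn
    exact ⟨c, hc⟩
  · obtain ⟨c, hc, hc4⟩ := UB_main 6 (by norm_num)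
    have : c = 4 := le_antisymm hc4 (LW_main c hc)
    rw [← this]
    exact hc
  · intro c hc
    exact LW_main c hc
  · rintro c ⟨n, hn, hc⟩
    obtain ⟨d, hd, hd4⟩ := UB_main n hn
    exact (hc.2 hd).trans hd4

end MARK
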